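import Pool.Agent.MP_2a1f0e_nt.GM.Basic

set_option autoImplicit false

open Finset

namespace Pool.Agent.MP_2a1f0e_nt.GM

lemma sum_kp_KOne (s : Finset ℤ) : ∑ m ∈ s, kp (m : ℝ) ≤ 6 := by
  have h := sum_kp_sep s (fun m : ℤ => (m : ℝ)) (fun i _ j _ hij => by
    have h1 : (1 : ℤ) ≤ |i - j| := Int.one_le_abs (sub_ne_zero.2 hij)
    exact_mod_cast h1) 0 one_pos
  simp only [sub_zero, div_one] at h
  linarith

lemma tail_KOne {F : ℤ → ℂ} {S : ℂ} (h : HasSum F S) (T : Finset ℤ) {A B : ℝ} (hA : 0 ≤ A)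
    (hB : 0 ≤ B) (h0 : ‖F 0‖ ≤ A) (h1 : ∀ m, m ≠ 0 → m ∉ T → ‖F m‖ ≤ B * kp (m : ℝ)) :
    ‖S - ∑ m ∈ T, F m‖ ≤ A + 6 * B := by
  have h2 : HasSum (fun m => if m ∈ T then F m else 0) (∑ m ∈ T, F m) := by
    have h3 : HasSum (fun m => if m ∈ T then F m else 0)
        (∑ m ∈ T, if m ∈ T then F m else 0) :=
      hasSum_sum_of_ne_finset_zero fun m hm => if_neg hm
    rwa [sum_congr rfl fun m hm => if_pos hm] at h3
  refine le_of_tendsto' (Filter.Tendsto.norm (h.sub h2)) fun s => (norm_sum_le _ _).trans ?_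
  calc ∑ m ∈ s, ‖F m - if m ∈ T then F m else 0‖
      ≤ ∑ m ∈ s, ((if m = 0 then A else 0) + B * kp (m : ℝ)) := by
        refine sum_le_sum fun m _ => ?_
        have h4 : 0 ≤ B * kp (m : ℝ) := mul_nonneg hB (kp_pos _).le
        by_cases hT : m ∈ T
        · rw [if_pos hT, sub_self, norm_zero]
          split_ifs <;> linarith
        · rw [if_neg hT, sub_zero]
          split_ifs with hm
          · rw [hm] at h4 ⊢
            linarith
          · linarith [h1 m hm hT]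
    _ ≤ A + 6 * B := by
        rw [sum_add_distrib, ← mul_sum, sum_ite_eq']
        have h5 := mul_le_mul_of_nonneg_left (sum_kp_KOne s) hB
        split_ifs <;> linarith

lemma pt_KOne {N M L r : ℝ} {m : ℤ} (hN : 1 ≤ N) (hM : 0 < M) (hL : L ≤ 4 * N ^ 2)
    (hr0 : 0 ≤ r) (hr : r ≤ 2 * L) (hm0 : m ≠ 0) (hm : M ≤ |(m : ℝ)|) (i : ℕ) :
    (r / |(m : ℝ) * N|) ^ (i + 2) ≤ (2 * L / (N * M)) ^ i * (128 * N ^ 2) * kp (m : ℝ) := by
  have hN0 : 0 < N := by linarith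
  have h1 : (1 : ℝ) ≤ |(m : ℝ)| := by exact_mod_cast Int.one_le_abs hm0
  have h2 : r / |(m : ℝ) * N| ≤ 2 * L / (N * M) := by
    rw [abs_mul, abs_of_pos hN0, mul_comm _ N]
    gcongr
    linarith
  have h3 : r / |(m : ℝ) * N| ≤ 8 * N / |(m : ℝ)| := by
    rw [abs_mul, abs_of_pos hN0, div_le_div_iff₀ (by positivity) (by positivity)]
    nlinarith
  have h4 : (8 * N / |(m : ℝ)|) ^ 2 ≤ 128 * N ^ 2 * kp (m : ℝ) := by
    have h5 : (1 : ℝ) ≤ (m : ℝ) ^ 2 := by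
      rw [← sq_abs]
      nlinarith
    rw [kp, div_pow, sq_abs, mul_one_div, div_le_div_iff₀ (by positivity) (by positivity)]
    nlinarith [sq_nonneg N]
  have h6 : 0 ≤ r / |(m : ℝ) * N| := by positivity
  rw [pow_add, mul_assoc]
  exact mul_le_mul (pow_le_pow_left₀ h6 h2 i) ((pow_le_pow_left₀ h6 h3 2).trans h4)
    (by positivity) (pow_nonneg (h6.trans h2) i)

theorem k1_stmt (hD : DecayStmt) (hZ : ZeroStmt) (hP : PoisStmt) : K1Stmt := by
  intro δ hδ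
  obtain ⟨i, hi⟩ := exists_nat_ge (4 / δ)
  rw [div_le_iff₀ hδ] at hi
  obtain ⟨C, hC, hd⟩ := hD (i + 2)
  obtain ⟨C0, hC0, hz⟩ := hZ
  refine ⟨6 * C0 + 9216 * C, by positivity, fun N M L hN hL hLN hM => ?_⟩
  have hN1 : (1 : ℝ) ≤ N := by exact_mod_cast hN
  have hL1 : (1 : ℝ) ≤ L := by exact_mod_cast hL
  have hLN' : (L : ℝ) ≤ 4 * (N : ℝ) ^ 2 := by exact_mod_cast hLN
  have hN0 : (0 : ℝ) < N := by linarith
  have hp : 0 < (N : ℝ) ^ δ := Real.rpow_pos_of_pos hN0 δ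
  have hM0 : (0 : ℝ) < M := (mul_pos_iff_of_pos_left hN0).1 (lt_of_lt_of_le (by positivity) hM)
  set q : ℝ := 2 * L / (N * M) with hq
  have hq0 : 0 ≤ q := by positivity
  have hq1 : q ^ i * (N : ℝ) ^ 4 ≤ 1 := by
    have h1 : q * (N : ℝ) ^ δ ≤ 1 := by
      rw [hq, div_mul_eq_mul_div, div_le_one (by positivity)]
      exact hM
    have h2 : (N : ℝ) ^ 4 ≤ ((N : ℝ) ^ δ) ^ i := by
      rw [← Real.rpow_natCast, ← Real.rpow_mul_natCast hN0.le]
      exact Real.rpow_le_rpow_of_exponent_le hN1 (by push_cast; linarith)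
    calc q ^ i * (N : ℝ) ^ 4 ≤ q ^ i * ((N : ℝ) ^ δ) ^ i := by gcongr
      _ = (q * (N : ℝ) ^ δ) ^ i := (mul_pow _ _ _).symm
      _ ≤ 1 := pow_le_one₀ (by positivity) h1
  have hn : ∀ u ξ : ℝ, ‖(N : ℂ) * pw (N : ℝ) u * HH u ξ‖ = N * ‖HH u ξ‖ := fun u ξ => by
    rw [norm_mul, norm_mul, norm_pw, mul_one, Complex.norm_natCast]
  have key : ∀ u ∈ Icc (-(L : ℤ)) L, ‖KK N (u : ℝ) - Kb N M (u : ℝ)‖ ≤
      N * (C0 * kp (u : ℝ)) + 6 * (N * (C * (q ^ i * (128 * (N : ℝ) ^ 2)))) := by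
    intro u hu
    have hu1 : |(u : ℝ)| ≤ L := by exact_mod_cast abs_le.2 (mem_Icc.1 hu)
    rw [Kb, mul_sum]
    refine tail_KOne (hP N hN u) (Ms M) (by have := kp_pos (u : ℝ); positivity) (by positivity)
      ?_ fun m hm0 hm => ?_
    · rw [hn, Int.cast_zero, zero_mul]
      exact mul_le_mul_of_nonneg_left (hz _) hN0.le
    · have hm1 : (M : ℝ) ≤ |(m : ℝ)| := by
        have h1 : (M : ℤ) ≤ |m| := by
          rw [mem_Ms] at hm
          rw [le_abs]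
          omega
        exact_mod_cast h1
      rw [hn, mul_assoc, mul_assoc]
      refine mul_le_mul_of_nonneg_left ((hd _ _ (mul_ne_zero (Int.cast_ne_zero.2 hm0)
        hN0.ne')).trans (mul_le_mul_of_nonneg_left ?_ hC.le)) hN0.le
      exact pt_KOne hN1 hM0 hLN' (by positivity) (by linarith) hm0 hm1 i
  refine (sum_le_sum key).trans ?_
  rw [sum_add_distrib, ← mul_sum, ← mul_sum, sum_const, nsmul_eq_mul]
  have h1 : ((Icc (-(L : ℤ)) L).card : ℝ) ≤ 12 * (N : ℝ) ^ 2 := by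
    have h2 : (Icc (-(L : ℤ)) L).card = 2 * L + 1 := by
      rw [Int.card_Icc]
      omega
    rw [h2]
    push_cast
    linarith
  have h3 := sum_kp_KOne (Icc (-(L : ℤ)) L)
  calc _ ≤ N * (C0 * 6) + 12 * (N : ℝ) ^ 2 * (6 * (N * (C * (q ^ i * (128 * (N : ℝ) ^ 2))))) := by
        gcongr
    _ = 6 * C0 * N + 9216 * C * N * (q ^ i * (N : ℝ) ^ 4) := by ring
    _ ≤ 6 * C0 * N + 9216 * C * N * 1 := by gcongr
    _ = _ := by ring

end Pool.Agent.MP_2a1f0e_nt.GM
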