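import Pool.Agent.MP_2a1f0e_nt.GM.Basic

set_option autoImplicit false

open Finset

namespace Pool.Agent.MP_2a1f0e_nt.GM

lemma quad_Hux (N : ℕ) (F : Finset ℤ) (ψ : ℤ → ℂ) :
    ∑ s ∈ F, ∑ t ∈ F, (starRingEnd ℂ) (ψ s) * KK N ((s : ℝ) - t) * ψ t =
      ((∑ n ∈ Icc 1 (3 * N), Wt ((n : ℝ) / N) *
        ‖∑ t ∈ F, ψ t * (starRingEnd ℂ) (pw (n : ℝ) t)‖ ^ 2 : ℝ) : ℂ) := by
  push_cast
  simp only [KK, mul_sum, sum_mul]
  rw [sum_congr rfl fun s _ => sum_comm, sum_comm]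
  refine sum_congr rfl fun n _ => ?_
  rw [← Complex.conj_mul', map_sum, sum_mul_sum, mul_sum]
  refine sum_congr rfl fun s _ => ?_
  rw [mul_sum]
  refine sum_congr rfl fun t _ => ?_
  rw [pw_sub, map_mul, Complex.conj_conj]
  ring

lemma dual_Hux {N : ℕ} (hN : 1 ≤ N) {b : ℕ → ℂ} (hb : ∀ n, ‖b n‖ ≤ 1) (F : Finset ℤ) :
    (∑ t ∈ F, ‖DP N b t‖ ^ 2) ^ 2 ≤ 2 * N * ∑ n ∈ Icc 1 (3 * N), Wt ((n : ℝ) / N) *
      ‖∑ t ∈ F, DP N b t * (starRingEnd ℂ) (pw (n : ℝ) t)‖ ^ 2 := by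
  obtain ⟨c, hc⟩ : ∃ c : ℕ → ℂ, ∀ n, c n = ∑ t ∈ F, DP N b t * (starRingEnd ℂ) (pw (n : ℝ) t) :=
    ⟨_, fun _ => rfl⟩
  simp only [← hc]
  have hN' : (1 : ℝ) ≤ N := by exact_mod_cast hN
  have e1 : ((∑ t ∈ F, ‖DP N b t‖ ^ 2 : ℝ) : ℂ) =
      ∑ n ∈ Icc N (2 * N), (starRingEnd ℂ) (b n) * c n := by
    push_cast
    simp only [hc, mul_sum]
    rw [sum_comm]
    refine sum_congr rfl fun t _ => ?_
    rw [← Complex.mul_conj']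
    nth_rewrite 2 [DP]
    rw [map_sum, mul_sum]
    refine sum_congr rfl fun n _ => ?_
    rw [map_mul]
    ring
  have h0 : 0 ≤ ∑ t ∈ F, ‖DP N b t‖ ^ 2 := sum_nonneg fun _ _ => sq_nonneg _
  have e2 : ∑ t ∈ F, ‖DP N b t‖ ^ 2 ≤ ∑ n ∈ Icc N (2 * N), ‖c n‖ := by
    rw [← abs_of_nonneg h0, ← Real.norm_eq_abs, ← Complex.norm_real, e1]
    refine (norm_sum_le _ _).trans (sum_le_sum fun n _ => ?_)
    rw [norm_mul, Complex.norm_conj]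
    exact mul_le_of_le_one_left (norm_nonneg _) (hb n)
  have e3 : (∑ n ∈ Icc N (2 * N), ‖c n‖) ^ 2 ≤ (N + 1) * ∑ n ∈ Icc N (2 * N), ‖c n‖ ^ 2 := by
    have := sq_sum_le_card_mul_sum_sq (s := Icc N (2 * N)) (f := fun n => ‖c n‖)
    rw [Nat.card_Icc, show 2 * N + 1 - N = N + 1 by omega] at this
    exact_mod_cast this
  have e4 : ∑ n ∈ Icc N (2 * N), ‖c n‖ ^ 2
      ≤ ∑ n ∈ Icc 1 (3 * N), Wt ((n : ℝ) / N) * ‖c n‖ ^ 2 := by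
    refine le_trans (le_of_eq (sum_congr rfl fun n hn => ?_))
      (sum_le_sum_of_subset_of_nonneg (Icc_subset_Icc hN (by omega : 2 * N ≤ 3 * N))
        fun n _ _ => mul_nonneg (Wt_nonneg _) (sq_nonneg _))
    obtain ⟨h1, h2⟩ := mem_Icc.1 hn
    rw [Wt_eq_one, one_mul]
    · rw [le_div_iff₀ (by linarith), one_mul]
      exact_mod_cast h1
    · rw [div_le_iff₀ (by linarith)]
      exact_mod_cast h2
  have e5 : 0 ≤ ∑ n ∈ Icc N (2 * N), ‖c n‖ ^ 2 := sum_nonneg fun _ _ => sq_nonneg _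
  calc _ ≤ (∑ n ∈ Icc N (2 * N), ‖c n‖) ^ 2 := pow_le_pow_left₀ h0 e2 2
    _ ≤ (N + 1) * ∑ n ∈ Icc N (2 * N), ‖c n‖ ^ 2 := e3
    _ ≤ _ := mul_le_mul (by linarith) e4 e5 (by linarith)

theorem hux_stmt : HuxStmt := by
  intro N M b I E S V hN hb hE hS hV hHE hHS
  unfold Mass
  obtain ⟨F, hF⟩ : ∃ F, F = I.filter (fun t : ℤ => V ≤ ‖DP N b t‖) := ⟨_, rfl⟩
  rw [← hF]
  have hFI : F ⊆ I := hF ▸ filter_subset _ _
  have hFV : ∀ t ∈ F, V ≤ ‖DP N b t‖ := fun t ht => by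
    rw [hF, mem_filter] at ht
    exact ht.2
  have hN' : (1 : ℝ) ≤ N := by exact_mod_cast hN
  have h1 := dual_Hux hN hb F
  have h2 := quad_Hux N F fun t => DP N b t
  obtain ⟨A, hA⟩ : ∃ A, A = ∑ n ∈ Icc 1 (3 * N), Wt ((n : ℝ) / N) *
      ‖∑ t ∈ F, DP N b t * (starRingEnd ℂ) (pw (n : ℝ) t)‖ ^ 2 := ⟨_, rfl⟩
  rw [← hA] at h1 h2
  have h3 : A ≤ ∑ s ∈ F, ∑ t ∈ F, ‖DP N b s‖ * ‖DP N b t‖ *
        ‖KK N ((s : ℝ) - t) - Kb N M ((s : ℝ) - t)‖ +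
      ∑ s ∈ F, ∑ t ∈ F, ‖DP N b s‖ * ‖DP N b t‖ * ‖Kb N M ((s : ℝ) - t)‖ := by
    refine (le_abs_self A).trans ?_
    rw [← Real.norm_eq_abs, ← Complex.norm_real, ← h2, ← sum_add_distrib]
    refine (norm_sum_le _ _).trans (sum_le_sum fun s _ => ?_)
    rw [← sum_add_distrib]
    refine (norm_sum_le _ _).trans (sum_le_sum fun t _ => ?_)
    rw [norm_mul, norm_mul, Complex.norm_conj, mul_right_comm, ← mul_add]
    refine mul_le_mul_of_nonneg_left ?_ (by positivity)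
    have := norm_add_le (KK N ((s : ℝ) - t) - Kb N M ((s : ℝ) - t)) (Kb N M ((s : ℝ) - t))
    rwa [sub_add_cancel] at this
  have h4 := schur F (fun t => ‖DP N b t‖)
    (fun s t => ‖KK N ((s : ℝ) - t) - Kb N M ((s : ℝ) - t)‖) (fun _ _ _ _ => norm_nonneg _)
    (fun s _ t _ => norm_K1_sub N M s t) E fun s hs =>
      (sum_le_sum_of_subset_of_nonneg hFI fun _ _ _ => norm_nonneg _).trans (hHE s (hFI hs))
  have h5 : 2 * N * ∑ s ∈ F, ∑ t ∈ F, ‖DP N b s‖ * ‖DP N b t‖ * ‖Kb N M ((s : ℝ) - t)‖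
      ≤ (∑ t ∈ F, ‖DP N b t‖ ^ 2) ^ 2 / 2 +
        2 * (N : ℝ) ^ 2 * ∑ s ∈ F, ∑ t ∈ F, ‖Kb N M ((s : ℝ) - t)‖ ^ 2 := by
    rw [sq (∑ t ∈ F, _), sum_mul_sum]
    simp only [mul_sum, sum_div, ← sum_add_distrib]
    refine sum_le_sum fun s _ => sum_le_sum fun t _ => ?_
    nlinarith [sq_nonneg (‖DP N b s‖ * ‖DP N b t‖ - 2 * N * ‖Kb N M ((s : ℝ) - t)‖)]
  have h6 : V ^ 4 * ∑ s ∈ F, ∑ t ∈ F, ‖Kb N M ((s : ℝ) - t)‖ ^ 2
      ≤ (∑ t ∈ F, ‖DP N b t‖ ^ 2) * S := by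
    rw [mul_sum, sum_mul]
    refine sum_le_sum fun s hs => ?_
    have u1 : V ^ 2 * ∑ t ∈ F, ‖Kb N M ((s : ℝ) - t)‖ ^ 2 ≤ S := by
      rw [mul_sum]
      refine le_trans (sum_le_sum fun t ht => mul_le_mul_of_nonneg_right
        (pow_le_pow_left₀ hV.le (hFV t ht) 2) (sq_nonneg _)) ?_
      exact (sum_le_sum_of_subset_of_nonneg hFI fun _ _ _ => by positivity).trans
        (hHS s (hFI hs))
    rw [show V ^ 4 = V ^ 2 * V ^ 2 by ring, mul_assoc]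
    exact mul_le_mul (pow_le_pow_left₀ hV.le (hFV s hs) 2) u1
      (mul_nonneg (sq_nonneg _) (sum_nonneg fun _ _ => sq_nonneg _)) (sq_nonneg _)
  have h0 : 0 ≤ ∑ t ∈ F, ‖DP N b t‖ ^ 2 := sum_nonneg fun _ _ => sq_nonneg _
  have hV4 : 0 < V ^ 4 := by positivity
  rw [mul_comm, ← le_div_iff₀ hV4, mul_div_assoc] at h6
  rw [mul_div_assoc]
  have hq : 0 ≤ S / V ^ 4 := by positivity
  generalize S / V ^ 4 = q at *
  generalize ∑ t ∈ F, ‖DP N b t‖ ^ 2 = Y at *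
  rcases h0.eq_or_lt with rfl | hY
  · positivity
  · refine le_of_mul_le_mul_left ?_ hY
    have u1 := mul_le_mul_of_nonneg_left (h3.trans (add_le_add h4 le_rfl))
      (show (0 : ℝ) ≤ 2 * N by positivity)
    have u2 := mul_le_mul_of_nonneg_left h6 (show (0 : ℝ) ≤ 2 * (N : ℝ) ^ 2 by positivity)
    nlinarith

end Pool.Agent.MP_2a1f0e_nt.GM
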