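import Pool.Agent.MP_2a1f0e_nt.GM.Basic

set_option autoImplicit false

open Finset

namespace Pool.Agent.MP_2a1f0e_nt.GM

theorem b2_stmt (hS : SetupStmt) (hH : HuxStmt) : B2Stmt := by
  intro ε hε
  obtain ⟨C, hC, hC'⟩ := hS ε hε
  refine ⟨4 * C, by positivity, fun N T hN hNT hT b hb V hV => ?_⟩
  obtain ⟨M, Δ, -, -, -, -, hE, hS'⟩ := hC' N T hN hNT hT
  have hN' : (1 : ℝ) ≤ N := by exact_mod_cast hN
  have h1 := hH N M b _ _ _ V hN hb (by positivity) (by positivity) hV hE (hS' b hb)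
  have h2 : Mass N b (Icc 0 (T : ℤ)) V ≤ Mass N b (Ioo (-(2 * T : ℤ)) (2 * T)) V := by
    refine Mass_mono N b (fun t ht => ?_) V
    rw [mem_Icc] at ht
    rw [mem_Ioo]
    omega
  have h3 : (1 : ℝ) ≤ (N : ℝ) ^ ε := Real.one_le_rpow hN' hε.le
  have h4 : 4 * C * (N : ℝ) ^ 2 ≤ 4 * C * (N : ℝ) ^ ε * (N : ℝ) ^ 2 := by
    have : 0 ≤ 4 * C * (N : ℝ) ^ 2 := by positivity
    nlinarith
  refine h2.trans (h1.trans ?_)
  have e : 4 * C * (N : ℝ) ^ ε * ((N : ℝ) ^ 2 + T * (N : ℝ) ^ 4 / V ^ 4) =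
      4 * C * (N : ℝ) ^ ε * (N : ℝ) ^ 2 +
        4 * (N : ℝ) ^ 2 * (C * (N : ℝ) ^ ε * (T * (N : ℝ) ^ 2)) / V ^ 4 := by ring
  rw [e]
  nlinarith

lemma mass_eq_BTwo (N : ℕ) (b : ℕ → ℂ) (I : Finset ℤ) (V : ℝ) :
    Mass N b I V = ∑ t ∈ I, if V ≤ ‖DP N b t‖ then ‖DP N b t‖ ^ 2 else 0 := by
  unfold Mass
  rw [sum_filter]

lemma mass_shift_BTwo (N : ℕ) (b : ℕ → ℂ) (a : ℤ) (L : ℕ) (V : ℝ) :
    Mass N b (Icc a (a + L)) V = Mass N (fun n => b n * pw (n : ℝ) a) (Icc 0 (L : ℤ)) V := by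
  rw [mass_eq_BTwo, mass_eq_BTwo]
  symm
  refine sum_bij (fun t _ => a + t) ?_ ?_ ?_ ?_
  · intro t ht
    rw [mem_Icc] at ht ⊢
    omega
  · intro s _ t _ h
    omega
  · intro t ht
    refine ⟨t - a, ?_, by ring⟩
    rw [mem_Icc] at ht ⊢
    omega
  · intro t _
    rw [← DP_add]
    push_cast
    rfl

lemma mass_union_BTwo (N : ℕ) (b : ℕ → ℂ) (I J : Finset ℤ) (V : ℝ) :
    Mass N b (I ∪ J) V ≤ Mass N b I V + Mass N b J V := by
  rw [mass_eq_BTwo, mass_eq_BTwo, mass_eq_BTwo, ← sum_union_inter]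
  refine le_add_of_nonneg_right (sum_nonneg fun t _ => ?_)
  split_ifs <;> positivity

theorem blk_stmt : BlkStmt := by
  intro N T T₁ V Z hN hT₁ hZ b hb
  have hZ0 : 0 ≤ Z := (Mass_nonneg _ _ _ _).trans (hZ b hb)
  have key : ∀ k : ℕ, Mass N b (Icc 0 (((k + 1) * T₁ : ℕ) : ℤ)) V ≤ (k + 1) * Z := by
    intro k
    induction k with
    | zero => simpa using hZ b hb
    | succ k ih =>
      have h1 : Icc (0 : ℤ) (((k + 1 + 1) * T₁ : ℕ) : ℤ) ⊆ Icc 0 (((k + 1) * T₁ : ℕ) : ℤ) ∪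
          Icc (((k + 1) * T₁ : ℕ) : ℤ) ((((k + 1) * T₁ : ℕ) : ℤ) + T₁) := by
        intro t ht
        rw [add_mul (k + 1) 1 T₁, one_mul] at ht
        rw [mem_union, mem_Icc, mem_Icc]
        rw [mem_Icc] at ht
        omega
      have h2 : Mass N b (Icc (((k + 1) * T₁ : ℕ) : ℤ) ((((k + 1) * T₁ : ℕ) : ℤ) + T₁)) V ≤ Z := by
        rw [mass_shift_BTwo]
        refine hZ _ fun n => ?_
        rw [norm_mul, norm_pw, mul_one]
        exact hb n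
      have h3 := (Mass_mono N b h1 V).trans (mass_union_BTwo N b _ _ V)
      push_cast at h3 h2 ih ⊢
      linarith
  have h1 : Icc (0 : ℤ) (T : ℤ) ⊆ Icc 0 (((T / T₁ + 1) * T₁ : ℕ) : ℤ) := by
    refine Icc_subset_Icc_right ?_
    have : T < (T / T₁ + 1) * T₁ := by
      rw [mul_comm]
      exact Nat.lt_mul_div_succ T hT₁
    exact_mod_cast this.le
  refine (Mass_mono N b h1 V).trans ((key _).trans ?_)
  have h2 : ((T / T₁ : ℕ) : ℝ) ≤ (T : ℝ) / T₁ := Nat.cast_div_le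
  exact mul_le_mul_of_nonneg_right (by linarith) hZ0

end Pool.Agent.MP_2a1f0e_nt.GM
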