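import Pool.Agent.MP_2a1f0e_nt.GM.Basic

set_option autoImplicit false

open Finset

namespace Pool.Agent.MP_2a1f0e_nt.GM

/-- orthogonality of the characters over an interval of length `9` -/
lemma ortho_Bes (k : ℤ) :
    ∫ v in (1 / 9 : ℝ)..(82 / 9), ex ((k : ℝ) * v) = if k = 0 then 9 else 0 := by
  split_ifs with hk
  · subst hk
    simp only [Int.cast_zero, zero_mul, ex_zero, intervalIntegral.integral_const]
    rw [show (82 / 9 - 1 / 9 : ℝ) = 9 by norm_num]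
    simp
  · have hc : (2 * Real.pi * Complex.I * ((k : ℝ) : ℂ)) ≠ 0 := by
      have h1 : (Real.pi : ℂ) ≠ 0 := by exact_mod_cast Real.pi_ne_zero
      have h2 : (((k : ℝ)) : ℂ) ≠ 0 := by exact_mod_cast hk
      exact mul_ne_zero (mul_ne_zero (mul_ne_zero two_ne_zero h1) Complex.I_ne_zero) h2
    have hd : ∀ x ∈ Set.uIcc (1 / 9 : ℝ) (82 / 9),
        HasDerivAt (fun x : ℝ => (2 * Real.pi * Complex.I * ((k : ℝ) : ℂ))⁻¹ * ex ((k : ℝ) * x))
          (ex ((k : ℝ) * x)) x := by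
      intro x _
      refine ((hasDerivAt_ex (k : ℝ) x).const_mul
        (2 * Real.pi * Complex.I * ((k : ℝ) : ℂ))⁻¹).congr_deriv ?_
      rw [← mul_assoc, inv_mul_cancel₀ hc, one_mul]
    have hi : IntervalIntegrable (fun x : ℝ => ex ((k : ℝ) * x)) MeasureTheory.volume
        (1 / 9 : ℝ) (82 / 9) :=
      (continuous_ex.comp (continuous_const.mul continuous_id)).intervalIntegrable _ _
    rw [intervalIntegral.integral_eq_sub_of_hasDerivAt hd hi]
    have : ex ((k : ℝ) * (82 / 9)) = ex ((k : ℝ) * (1 / 9)) := by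
      rw [show (k : ℝ) * (82 / 9) = (k : ℝ) * (1 / 9) + ((9 * k : ℤ) : ℝ) by push_cast; ring,
        ex_add, ex_int, mul_one]
    rw [this, sub_self]

lemma cont_ex_Bes (c : ℝ) : Continuous fun v : ℝ => ex (c * v) :=
  continuous_ex.comp (continuous_const.mul continuous_id)

lemma cont_mul_ex_Bes (z : ℂ) (c : ℝ) : Continuous fun v : ℝ => z * ex (c * v) :=
  continuous_const.mul (cont_ex_Bes c)

/-- Parseval identity for a trigonometric polynomial -/
lemma parseval_Bes (s : Finset ℤ) (c : ℤ → ℂ) :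
    II (fun v => ‖∑ ξ ∈ s, c ξ * ex ((ξ : ℝ) * v)‖ ^ 2) = 9 * ∑ ξ ∈ s, ‖c ξ‖ ^ 2 := by
  have key : ((II (fun v => ‖∑ ξ ∈ s, c ξ * ex ((ξ : ℝ) * v)‖ ^ 2) : ℝ) : ℂ) =
      ((9 * ∑ ξ ∈ s, ‖c ξ‖ ^ 2 : ℝ) : ℂ) := by
    unfold II
    rw [← intervalIntegral.integral_ofReal]
    have h1 : ∀ v : ℝ, ((‖∑ ξ ∈ s, c ξ * ex ((ξ : ℝ) * v)‖ ^ 2 : ℝ) : ℂ) =
        ∑ ξ ∈ s, ∑ η ∈ s, c ξ * (starRingEnd ℂ) (c η) * ex (((ξ - η : ℤ) : ℝ) * v) := by
      intro v
      rw [Complex.ofReal_pow, ← Complex.mul_conj', map_sum, sum_mul_sum]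
      refine sum_congr rfl fun ξ _ => sum_congr rfl fun η _ => ?_
      rw [map_mul, conj_ex, show (((ξ - η : ℤ) : ℝ) * v) = (ξ : ℝ) * v + -((η : ℝ) * v) by
        push_cast; ring, ex_add]
      ring
    simp_rw [h1]
    rw [intervalIntegral.integral_finsetSum fun ξ _ => Continuous.intervalIntegrable
      (continuous_finsetSum _ fun η _ => cont_mul_ex_Bes _ _) _ _]
    push_cast
    rw [mul_sum]
    refine sum_congr rfl fun ξ hξ => ?_
    rw [intervalIntegral.integral_finsetSum fun η _ =>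
      (cont_mul_ex_Bes _ _).intervalIntegrable _ _]
    have h2 : ∀ η ∈ s, ∫ v in (1 / 9 : ℝ)..(82 / 9),
        c ξ * (starRingEnd ℂ) (c η) * ex (((ξ : ℝ) - (η : ℝ)) * v) =
        if η = ξ then 9 * (‖c ξ‖ : ℂ) ^ 2 else 0 := by
      intro η _
      have := ortho_Bes (ξ - η)
      rw [Int.cast_sub] at this
      rw [intervalIntegral.integral_const_mul, this]
      by_cases h : η = ξ
      · subst h
        rw [if_pos (sub_self _), if_pos rfl, Complex.mul_conj']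
        ring
      · rw [if_neg (fun h' => h (by omega)), if_neg h, mul_zero]
    rw [sum_congr rfl h2, sum_ite_eq' s ξ, if_pos hξ]
  exact_mod_cast key

theorem bes_stmt : BesStmt := by
  intro g hg s
  set a : ℤ → ℂ := fun ξ => ∫ v in (1 / 9 : ℝ)..(82 / 9), (g v : ℂ) * ex ((ξ : ℝ) * v) with ha
  set P : ℝ → ℂ := fun v => ∑ ξ ∈ s, (starRingEnd ℂ) (a ξ) * ex ((ξ : ℝ) * v) with hP
  have hPc : Continuous P :=
    continuous_finsetSum _ fun ξ _ => continuous_const.mul (cont_ex_Bes _)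
  have hgc : ContinuousOn (fun v => (g v : ℂ)) (Set.Icc (1 / 9 : ℝ) (82 / 9)) :=
    Complex.continuous_ofReal.comp_continuousOn hg
  have hle : (1 / 9 : ℝ) ≤ 82 / 9 := by norm_num
  have hA : II (fun v => ‖P v‖ ^ 2) = 9 * ∑ ξ ∈ s, ‖a ξ‖ ^ 2 := by
    have := parseval_Bes s fun ξ => (starRingEnd ℂ) (a ξ)
    simp only [Complex.norm_conj] at this
    exact this
  have hB : ∫ v in (1 / 9 : ℝ)..(82 / 9), (g v : ℂ) * P v = ((∑ ξ ∈ s, ‖a ξ‖ ^ 2 : ℝ) : ℂ) := by
    have h1 : ∀ v : ℝ, (g v : ℂ) * P v =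
        ∑ ξ ∈ s, (starRingEnd ℂ) (a ξ) * ((g v : ℂ) * ex ((ξ : ℝ) * v)) := by
      intro v
      simp only [hP, mul_sum]
      exact sum_congr rfl fun ξ _ => by ring
    simp_rw [h1]
    have h2 : ∀ ξ ∈ s, IntervalIntegrable
        (fun v : ℝ => (starRingEnd ℂ) (a ξ) * ((g v : ℂ) * ex ((ξ : ℝ) * v)))
        MeasureTheory.volume (1 / 9 : ℝ) (82 / 9) := fun ξ _ =>
      (continuousOn_const.mul (hgc.mul (cont_ex_Bes _).continuousOn)).intervalIntegrable_of_Icc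
        hle
    rw [intervalIntegral.integral_finsetSum h2]
    push_cast
    refine sum_congr rfl fun ξ _ => ?_
    rw [intervalIntegral.integral_const_mul, mul_comm, Complex.mul_conj']
  have hC : ∑ ξ ∈ s, ‖a ξ‖ ^ 2 ≤ II (fun v => 9 / 2 * g v ^ 2 + 1 / 18 * ‖P v‖ ^ 2) := by
    have h1 : ∑ ξ ∈ s, ‖a ξ‖ ^ 2 = ‖∫ v in (1 / 9 : ℝ)..(82 / 9), (g v : ℂ) * P v‖ := by
      rw [hB, Complex.norm_real, Real.norm_eq_abs, abs_of_nonneg (by positivity)]
    rw [h1]
    refine (intervalIntegral.norm_integral_le_integral_norm hle).trans ?_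
    refine II_mono (f := fun v => ‖(g v : ℂ) * P v‖) (hgc.mul hPc.continuousOn).norm
      ((continuousOn_const.mul (hg.pow 2)).add
        (continuousOn_const.mul (hPc.norm.pow 2).continuousOn)) fun v _ => ?_
    rw [norm_mul, Complex.norm_real, Real.norm_eq_abs, ← sq_abs (g v)]
    nlinarith [sq_nonneg (9 * |g v| - ‖P v‖)]
  have hD : II (fun v => 9 / 2 * g v ^ 2 + 1 / 18 * ‖P v‖ ^ 2) =
      9 / 2 * II (fun v => g v ^ 2) + 1 / 18 * II (fun v => ‖P v‖ ^ 2) := by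
    have h1 : IntervalIntegrable (fun v => 9 / 2 * g v ^ 2) MeasureTheory.volume
        (1 / 9 : ℝ) (82 / 9) :=
      (continuousOn_const.mul (hg.pow 2)).intervalIntegrable_of_Icc hle
    have h2 : IntervalIntegrable (fun v => 1 / 18 * ‖P v‖ ^ 2) MeasureTheory.volume
        (1 / 9 : ℝ) (82 / 9) :=
      (continuous_const.mul (hPc.norm.pow 2)).intervalIntegrable _ _
    unfold II
    beta_reduce
    rw [intervalIntegral.integral_add h1 h2,
      intervalIntegral.integral_const_mul, intervalIntegral.integral_const_mul]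
  rw [hD, hA] at hC
  change ∑ ξ ∈ s, ‖a ξ‖ ^ 2 ≤ _
  linarith

end Pool.Agent.MP_2a1f0e_nt.GM
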