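import Pool.Agent.MP_2a1f0e_nt.GM.Basic
set_option autoImplicit false
open Finset
namespace Pool.Agent.MP_2a1f0e_nt.GM

lemma fib_DivS (P : Finset (ℤ × ℤ)) (hP : ∀ p ∈ P, p.1 ≠ 0 ∧ p.2 ≠ 0) (ξ : ℤ) :
    (P.filter fun p => p.1 * p.2 = ξ).card ≤ 2 * ξ.natAbs.divisors.card := by
  have h : (P.filter fun p => p.1 * p.2 = ξ).card ≤
      ((univ : Finset Bool) ×ˢ ξ.natAbs.divisors).card := by
    refine card_le_card_of_injOn (fun p => (decide (0 < p.2), p.2.natAbs)) ?_ ?_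
    · intro p hp
      obtain ⟨h1, rfl⟩ := mem_filter.1 (mem_coe.1 hp)
      refine mem_coe.2 (mem_product.2 ⟨mem_univ _, Nat.mem_divisors.2 ⟨?_, ?_⟩⟩)
      · exact Int.natAbs_dvd_natAbs.2 (dvd_mul_left _ _)
      · exact Int.natAbs_ne_zero.2 (mul_ne_zero (hP p h1).1 (hP p h1).2)
    · intro p hp q hq e
      obtain ⟨h1, h2⟩ := mem_filter.1 (mem_coe.1 hp)
      obtain ⟨-, h4⟩ := mem_filter.1 (mem_coe.1 hq)
      obtain ⟨e1, e2⟩ := Prod.mk.inj e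
      have e3 : 0 < p.2 ↔ 0 < q.2 := decide_eq_decide.1 e1
      have e4 : p.2 = q.2 := by omega
      refine Prod.ext (mul_right_cancel₀ (hP p h1).2 ?_) e4
      rw [h2, e4, h4]
  rwa [card_product, card_univ, Fintype.card_bool] at h

theorem div_stmt : DivStmt := by
  intro N M Δ hΔ a
  have h1 : ∀ l : ℤ, ‖∑ m ∈ Ms M, a (l * m)‖ ^ 2 ≤ 2 * M * ∑ m ∈ Ms M, ‖a (l * m)‖ ^ 2 := by
    intro l
    refine (pow_le_pow_left₀ (norm_nonneg _) (norm_sum_le _ _) 2).trans ?_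
    have := sq_sum_le_card_mul_sum_sq (s := Ms M) (f := fun m => ‖a (l * m)‖)
    rwa [card_Ms, Nat.cast_mul, Nat.cast_ofNat] at this
  refine (sum_le_sum fun l _ => h1 l).trans ?_
  have hm : ∀ p ∈ (Ioo (-(N : ℤ)) N).erase 0 ×ˢ Ms M,
      p.1 * p.2 ∈ Icc (-((N * M : ℕ) : ℤ)) ((N * M : ℕ) : ℤ) := by
    intro p hp
    obtain ⟨h2, h3⟩ := mem_product.1 hp
    have h4 := mem_Ioo.1 (mem_of_mem_erase h2)
    have h5 := (mem_Ms.1 h3).2
    rw [mem_Icc, ← abs_le, abs_mul, Nat.cast_mul]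
    exact mul_le_mul (abs_le.2 ⟨h4.1.le, h4.2.le⟩) (abs_le.2 h5) (abs_nonneg _) (Nat.cast_nonneg _)
  rw [← mul_sum, ← sum_product' _ _ fun l m => ‖a (l * m)‖ ^ 2,
    ← sum_fiberwise_of_maps_to hm, show 4 * (M : ℝ) * Δ = 2 * M * (2 * Δ) by ring,
    mul_assoc _ (2 * Δ), mul_sum _ _ (2 * Δ)]
  refine mul_le_mul_of_nonneg_left (sum_le_sum fun ξ hξ => ?_) (by positivity)
  rw [sum_congr rfl fun p hp => by rw [(mem_filter.1 hp).2], sum_const, nsmul_eq_mul]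
  refine mul_le_mul_of_nonneg_right ?_ (by positivity)
  have h6 := fib_DivS ((Ioo (-(N : ℤ)) N).erase 0 ×ˢ Ms M) (fun p hp =>
    ⟨ne_of_mem_erase (mem_product.1 hp).1, (mem_Ms.1 (mem_product.1 hp).2).1⟩) ξ
  have h7 := hΔ.2 ξ.natAbs (by have := mem_Icc.1 hξ; omega)
  have h8 : (((((Ioo (-(N : ℤ)) N).erase 0 ×ˢ Ms M).filter fun p => p.1 * p.2 = ξ).card : ℕ) : ℝ) ≤
      2 * (ξ.natAbs.divisors.card : ℝ) := by exact_mod_cast h6
  linarith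

end Pool.Agent.MP_2a1f0e_nt.GM
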