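import Pool.Agent.MP_2a1f0e_nt.GM.Basic

set_option autoImplicit false

open Finset

namespace Pool.Agent.MP_2a1f0e_nt.GM

lemma card_fib_PhExp (L : ℕ) (u : ℤ) :
    ((range L ×ˢ range L).filter fun p : ℕ × ℕ => (p.1 : ℤ) - p.2 = u).card = L - u.natAbs := by
  rw [← card_range (L - u.natAbs)]
  symm
  refine card_bij (fun k _ => (k + u.toNat, k + (-u).toNat)) (fun k hk => ?_)
    (fun k _ k' _ h => ?_) fun p hp => ?_
  · rw [mem_range] at hk
    rw [mem_filter, mem_product, mem_range, mem_range]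
    dsimp only
    omega
  · exact Nat.add_right_cancel (Prod.mk.inj h).1
  · rw [mem_filter, mem_product, mem_range, mem_range] at hp
    refine ⟨min p.1 p.2, mem_range.2 (by omega), Prod.ext ?_ ?_⟩
    · dsimp only
      omega
    · dsimp only
      omega

lemma sum_diff_PhExp (L : ℕ) (f : ℤ → ℂ) :
    ∑ i ∈ range L, ∑ j ∈ range L, f ((i : ℤ) - j) =
      ∑ u ∈ Ioo (-(L : ℤ)) L, ((((L : ℝ) - |(u : ℝ)|) : ℝ) : ℂ) * f u := by
  rw [← sum_product', ← sum_fiberwise_of_maps_to (t := Ioo (-(L : ℤ)) L)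
    (g := fun p : ℕ × ℕ => (p.1 : ℤ) - p.2) (fun p hp => by
      rw [mem_product, mem_range, mem_range] at hp
      rw [mem_Ioo]
      omega)]
  refine sum_congr rfl fun u hu => ?_
  rw [mem_Ioo] at hu
  rw [sum_congr rfl (g := fun _ => f u) (fun p hp => by rw [(mem_filter.1 hp).2]), sum_const,
    card_fib_PhExp, nsmul_eq_mul, Nat.cast_sub (by omega),
    ← Int.cast_abs, Int.abs_eq_natAbs, Int.cast_natCast, Complex.ofReal_sub,
    Complex.ofReal_natCast, Complex.ofReal_natCast]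

theorem triang_stmt : TriangStmt := by
  intro L x
  have h := normsq_sum (range L) (fun _ => 1) fun r : ℕ => (r : ℝ) * x
  simp only [one_mul, map_one] at h
  rw [gs, h, ← sum_diff_PhExp L fun u => ex ((u : ℝ) * x)]
  refine sum_congr rfl fun i _ => sum_congr rfl fun j _ => ?_
  push_cast
  rw [sub_mul]

theorem phExp_stmt : PhExpStmt := by
  intro J hJ
  have hJ' : (0 : ℝ) < J := Nat.cast_pos.2 hJ
  refine ⟨fun y => ?_, fun l hl => ?_⟩
  · rw [Ph, Complex.ofReal_div, Complex.ofReal_add, ← triang_stmt, ← triang_stmt, ← sum_add_distrib,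
      sum_div]
    refine sum_congr rfl fun l _ => ?_
    rw [cf, mul_add (l : ℝ), ex_add, mul_one_div, Complex.ofReal_div]
    ring
  · rw [mem_Ioo] at hl
    have h1 : |(l : ℝ)| ≤ J := by
      rw [abs_le]
      constructor
      · exact_mod_cast hl.1.le
      · exact_mod_cast hl.2.le
    have h2 : ‖1 + ex ((l : ℝ) / (2 * J))‖ ≤ 2 := by
      refine (norm_add_le _ _).trans ?_
      rw [norm_one, norm_ex]
      norm_num
    have h3 : 0 ≤ ((J : ℝ) - |(l : ℝ)|) / (J : ℝ) ^ 2 := div_nonneg (sub_nonneg.2 h1) (by positivity)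
    have h4 : ((J : ℝ) - |(l : ℝ)|) / (J : ℝ) ^ 2 ≤ 1 / J := by
      rw [div_le_div_iff₀ (by positivity) hJ']
      nlinarith [abs_nonneg (l : ℝ)]
    rw [cf, norm_mul, Complex.norm_real, Real.norm_of_nonneg h3]
    calc _ ≤ 1 / (J : ℝ) * 2 := mul_le_mul h4 h2 (norm_nonneg _) (by positivity)
      _ = 2 / J := by ring

end Pool.Agent.MP_2a1f0e_nt.GM
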