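import Pool.Agent.MP_2a1f0e_nt.GM.Basic
set_option autoImplicit false
open Finset
namespace Pool.Agent.MP_2a1f0e_nt.GM

lemma ex_sub_le_PhMaj (x : ℝ) : ‖ex x - 1‖ ≤ 2 * Real.pi * |x| := by
  unfold ex
  refine Real.norm_exp_I_mul_ofReal_sub_one_le.trans (le_of_eq ?_)
  rw [Real.norm_eq_abs, abs_mul, abs_of_pos (by positivity)]

lemma ex_half_PhMaj : ex (1 / 2) = -1 := by
  unfold ex
  rw [← Complex.exp_pi_mul_I]
  congr 1
  push_cast
  ring

lemma gs_low_PhMaj (J : ℕ) (x t : ℝ) (h : |x| ≤ t) :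
    ‖ex (J * x) - 1‖ ^ 2 ≤ (2 * Real.pi * t) ^ 2 * ‖gs J x‖ ^ 2 := by
  rw [← gs_mul, norm_mul, ← mul_pow, mul_comm]
  refine pow_le_pow_left₀ (by positivity) ?_ 2
  refine mul_le_mul_of_nonneg_right ((ex_sub_le_PhMaj x).trans ?_) (norm_nonneg _)
  have := Real.pi_pos
  gcongr

lemma low_PhMaj {J : ℕ} (hJ : 1 ≤ J) (d : ℝ) : kp (J * d) ≤ 20 * Ph J d := by
  have hJ0 : (0 : ℝ) < J := by exact_mod_cast hJ
  have h0 : (0 : ℝ) < 1 / (2 * J) := by positivity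
  have h1 := gs_low_PhMaj J d (|d| + 1 / (2 * J)) (by linarith)
  have h2 := gs_low_PhMaj J (d + 1 / (2 * J)) (|d| + 1 / (2 * J))
    ((abs_add_le _ _).trans (by rw [abs_of_pos h0]))
  have e : (J : ℝ) * (d + 1 / (2 * J)) = J * d + 1 / 2 := by field_simp
  rw [e, ex_add, ex_half_PhMaj] at h2
  have h3 : ‖ex (J * d) - 1‖ ^ 2 + ‖ex (J * d) * -1 - 1‖ ^ 2 = 4 := by
    have h4 := parallelogram_law_with_norm ℂ (ex (J * d)) 1
    have h5 : ex (J * d) * -1 - 1 = -(ex (J * d) + 1) := by ring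
    rw [h5, norm_neg]
    rw [norm_ex, norm_one] at h4
    linarith
  have h6 : (2 * Real.pi * (|d| + 1 / (2 * J))) ^ 2 * (J : ℝ) ^ 2 ≤ 80 * (1 + (J * d) ^ 2) := by
    have e2 : (2 * Real.pi * (|d| + 1 / (2 * J))) ^ 2 * (J : ℝ) ^ 2 =
        4 * Real.pi ^ 2 * (|J * d| + 1 / 2) ^ 2 := by
      rw [abs_mul, abs_of_pos hJ0]
      field_simp
      ring
    rw [e2, ← sq_abs (J * d)]
    have hp : Real.pi ^ 2 ≤ 10 := by nlinarith [Real.pi_lt_d2, Real.pi_pos]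
    have h7 : (|J * d| + 1 / 2) ^ 2 ≤ 2 * (1 + |J * d| ^ 2) := by
      nlinarith [sq_nonneg (|J * d| - 1 / 2)]
    calc 4 * Real.pi ^ 2 * (|J * d| + 1 / 2) ^ 2 ≤ 4 * 10 * (2 * (1 + |J * d| ^ 2)) := by gcongr
      _ = _ := by ring
  have h8 : ‖gs J d‖ ^ 2 + ‖gs J (d + 1 / (2 * J))‖ ^ 2 = (J : ℝ) ^ 2 * Ph J d := by
    unfold Ph
    field_simp
  have h9 : 4 ≤ (2 * Real.pi * (|d| + 1 / (2 * J))) ^ 2 * (J : ℝ) ^ 2 * Ph J d := by
    rw [mul_assoc, ← h8, mul_add]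
    linarith
  have h10 := mul_le_mul_of_nonneg_right h6 (Ph_nonneg J d)
  unfold kp
  rw [div_le_iff₀ (by positivity)]
  linarith

lemma up_PhMaj {J : ℕ} (hJ : 1 ≤ J) {d : ℝ} (hd : |d| ≤ 1 / 2) (k : ℤ) :
    kp (J * (d + k)) ≤ 10 * kp (J * d) * kp k := by
  have hJ1 : (1 : ℝ) ≤ J := by exact_mod_cast hJ
  have key : (1 + (J * d) ^ 2) * (1 + (k : ℝ) ^ 2) ≤ 10 * (1 + (J * (d + k)) ^ 2) := by
    rcases eq_or_ne k 0 with rfl | hk
    · simp only [Int.cast_zero, add_zero]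
      nlinarith [sq_nonneg (J * d)]
    · have h1 : (1 : ℝ) ≤ |(k : ℝ)| := by exact_mod_cast Int.one_le_abs hk
      have h2 : |(k : ℝ)| / 2 ≤ |d + k| := by
        have := abs_add_le (d + k) (-d)
        rw [abs_neg, show d + k + -d = k by ring] at this
        linarith
      have h3 : (k : ℝ) ^ 2 / 4 ≤ (d + k) ^ 2 := by
        rw [← sq_abs (k : ℝ), ← sq_abs (d + k)]
        nlinarith
      have h4 : d ^ 2 ≤ 1 / 4 := by
        rw [← sq_abs d]
        nlinarith [abs_nonneg d]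
      have h5 : (1 : ℝ) ≤ (k : ℝ) ^ 2 := by
        rw [← sq_abs (k : ℝ)]
        nlinarith
      have h6 : (1 : ℝ) ≤ (J : ℝ) ^ 2 := by nlinarith
      rw [mul_pow, mul_pow]
      have h7 : 1 + (J : ℝ) ^ 2 * d ^ 2 ≤ 5 / 4 * (J : ℝ) ^ 2 := by nlinarith
      have h8 : (J : ℝ) ^ 2 * ((k : ℝ) ^ 2 / 4) ≤ (J : ℝ) ^ 2 * (d + k) ^ 2 := by gcongr
      calc (1 + (J : ℝ) ^ 2 * d ^ 2) * (1 + (k : ℝ) ^ 2)
          ≤ (5 / 4 * (J : ℝ) ^ 2) * (2 * (k : ℝ) ^ 2) := by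
            gcongr
            linarith
        _ = 10 * ((J : ℝ) ^ 2 * ((k : ℝ) ^ 2 / 4)) := by ring
        _ ≤ _ := by linarith
  unfold kp
  rw [mul_assoc, div_mul_div_comm, one_mul, mul_one_div, div_le_div_iff₀ (by positivity)
    (by positivity)]
  linarith

theorem phMaj_stmt : PhMajStmt := by
  refine ⟨1200, by norm_num, fun J hJ y s => ?_⟩
  have hd : |y - round y| ≤ 1 / 2 := abs_sub_round y
  have e : Ph J y = Ph J (y - round y) := by
    unfold Ph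
    rw [← gs_add_int J (y - round y) (round y),
      ← gs_add_int J (y - round y + 1 / (2 * J)) (round y)]
    congr 4 <;> ring_nf
  have h1 : ∑ a ∈ s, kp (((round y + a : ℤ) : ℝ)) ≤ 6 := by
    have := sum_kp_sep s (fun a => ((round y + a : ℤ) : ℝ)) (fun i _ j _ hij => by
      have h2 : (1 : ℝ) ≤ |((i - j : ℤ) : ℝ)| := by
        exact_mod_cast Int.one_le_abs (sub_ne_zero.2 hij)
      convert h2 using 2
      push_cast
      ring) 0 one_pos
    simp only [sub_zero, div_one] at this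
    linarith
  have h2 := low_PhMaj hJ (y - round y)
  have h3 := kp_pos (J * (y - round y))
  calc ∑ a ∈ s, kp ((J : ℝ) * (y + a))
      ≤ ∑ a ∈ s, 10 * kp (J * (y - round y)) * kp (((round y + a : ℤ) : ℝ)) := by
        refine sum_le_sum fun a _ => le_trans (le_of_eq ?_) (up_PhMaj hJ hd (round y + a))
        congr 2
        push_cast
        ring
    _ = 10 * kp (J * (y - round y)) * ∑ a ∈ s, kp (((round y + a : ℤ) : ℝ)) := by
        rw [mul_sum]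
    _ ≤ 10 * kp (J * (y - round y)) * 6 := by gcongr
    _ ≤ 1200 * Ph J y := by
        rw [e]
        linarith

end Pool.Agent.MP_2a1f0e_nt.GM
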