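import Pool.Agent.MP_2a1f0e_nt.GM.Basic

set_option autoImplicit false

open Finset
open scoped FourierTransform

namespace Pool.Agent.MP_2a1f0e_nt.GM

lemma cont_Pois (u : ℝ) : Continuous fun y : ℝ => (Wt y : ℂ) * pw y u := by
  refine continuous_iff_continuousAt.2 fun y => ?_
  by_cases hy : 0 < y
  · exact (Complex.continuous_ofReal.comp continuous_Wt).continuousAt.mul
      ((continuousOn_pw u).continuousAt (Ioi_mem_nhds hy))
  · have h : (fun y : ℝ => (Wt y : ℂ) * pw y u) =ᶠ[nhds y] fun _ => 0 := by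
      filter_upwards [Iio_mem_nhds (show y < 3 / 4 by linarith [not_lt.1 hy])] with z hz
      rw [Wt_eq_zero (Or.inl (le_of_lt hz)), Complex.ofReal_zero, zero_mul]
    exact continuousAt_const.congr h.symm

theorem pois_stmt (hD : DecayStmt) : PoisStmt := by
  intro N hN u
  have hN1 : (1 : ℝ) ≤ N := by exact_mod_cast hN
  have hN0 : (0 : ℝ) < N := by linarith
  let f : ℝ → ℂ := fun x => pw (N : ℝ) u * ((Wt (x / N) : ℂ) * pw (x / N) u)
  have hc : Continuous f := continuous_const.mul ((cont_Pois u).comp (continuous_id.div_const _))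
  have h0 : ∀ x : ℝ, x ≤ 0 ∨ 3 * N < x → f x = 0 := fun x hx => by
    have h : Wt (x / N) = 0 := Wt_eq_zero (hx.imp
      (fun h => (div_nonpos_of_nonpos_of_nonneg h hN0.le).trans (by norm_num))
      fun h => by rw [le_div_iff₀ hN0]; linarith)
    simp only [f, h, Complex.ofReal_zero, zero_mul, mul_zero]
  have hf : f =O[Filter.cocompact ℝ] fun x : ℝ => |x| ^ (-(2 : ℝ)) := by
    have h : f =ᶠ[Filter.cocompact ℝ] fun _ => 0 := by
      filter_upwards [(isCompact_Icc (a := (0 : ℝ)) (b := 3 * N)).compl_mem_cocompact] with x hx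
      refine h0 x ?_
      by_contra h1
      rw [not_or, not_le, not_lt] at h1
      exact hx ⟨h1.1.le, h1.2⟩
    exact (Asymptotics.isBigO_zero _ _).congr' h.symm Filter.EventuallyEq.rfl
  have hF : ∀ m : ℤ, 𝓕 f m = (N : ℂ) * pw (N : ℝ) u * HH u ((m : ℝ) * N) := fun m => by
    have h := MeasureTheory.Measure.integral_comp_div
      (fun y : ℝ => (Wt y : ℂ) * pw y u * ex (-((m : ℝ) * N * y))) (N : ℝ)
    rw [abs_of_pos hN0, Complex.real_smul, Complex.ofReal_natCast] at h
    rw [Real.fourier_real_eq_integral_exp_smul, HH, mul_comm (N : ℂ), mul_assoc, ← h,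
      ← MeasureTheory.integral_const_mul]
    refine congrArg _ (funext fun x => ?_)
    have e : ex (-((m : ℝ) * N * (x / N))) =
        Complex.exp (((-2 * Real.pi * x * m : ℝ) : ℂ) * Complex.I) := by
      rw [ex, mul_comm Complex.I]
      congr 3
      field_simp
    rw [e, smul_eq_mul]
    simp only [f]
    ring
  have hs : Summable fun m : ℤ => (N : ℂ) * pw (N : ℝ) u * HH u ((m : ℝ) * N) := by
    obtain ⟨C, hC, hb⟩ := hD 2
    refine Summable.mul_left _ (Summable.of_norm_bounded_eventually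
      ((Real.summable_one_div_int_pow.2 one_lt_two).mul_left (C * (1 + |u|) ^ 2)) ?_)
    filter_upwards [(Set.finite_singleton (0 : ℤ)).compl_mem_cofinite] with m hm
    have hm' : (m : ℝ) ≠ 0 := Int.cast_ne_zero.2 hm
    refine (hb u _ (mul_ne_zero hm' hN0.ne')).trans ?_
    rw [div_pow, sq_abs, mul_assoc, mul_one_div, mul_pow]
    have h1 : (0 : ℝ) < (m : ℝ) ^ 2 := by positivity
    gcongr
    exact le_mul_of_one_le_right h1.le (one_le_pow₀ hN1)
  have h1 := Real.tsum_eq_tsum_fourier_of_rpow_decay_of_summable hc one_lt_two hf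
    (by simpa only [hF] using hs) 0
  simp only [zero_add, hF, QuotientAddGroup.mk_zero, fourier_eval_zero, mul_one] at h1
  have h2 : ∑' n : ℤ, f n = KK N u := by
    rw [tsum_eq_sum (s := (Icc 1 (3 * N)).map Nat.castEmbedding), sum_map, KK]
    · refine sum_congr rfl fun n hn => ?_
      have hn' : (n : ℝ) ≠ 0 := Nat.cast_ne_zero.2 (by have := (mem_Icc.1 hn).1; omega)
      have e : pw (n : ℝ) u = pw (N : ℝ) u * pw ((n : ℝ) / N) u := by
        rw [← pw_mul hN0.ne' (div_ne_zero hn' hN0.ne'), mul_div_cancel₀ _ hN0.ne']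
      rw [e]
      simp only [f, Nat.castEmbedding_apply, Int.cast_natCast]
      ring
    · intro n hn
      refine h0 _ ?_
      by_contra h3
      rw [not_or, not_le, not_lt] at h3
      have h4 : 0 < n := by exact_mod_cast h3.1
      have h5 : n ≤ 3 * N := by exact_mod_cast h3.2
      refine hn (mem_map.2 ⟨n.toNat, mem_Icc.2 ⟨by omega, by omega⟩, ?_⟩)
      exact Int.toNat_of_nonneg h4.le
  rw [← h2, h1]
  exact hs.hasSum

end Pool.Agent.MP_2a1f0e_nt.GM
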