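import Pool.Agent.MP_2a1f0e_nt.GM.Basic

set_option autoImplicit false

open Finset

namespace Pool.Agent.MP_2a1f0e_nt.GM

lemma expand_Pt (hT : TriangStmt) (N L : ℕ) (b : ℕ → ℂ) (t₀ : ℤ) (v : ℝ) :
    FT (Ioo (-(L : ℤ)) L)
        (fun u => ((L : ℝ) - |(u : ℝ)|) / L * ‖DP N b ((t₀ + u : ℤ) : ℝ)‖ ^ 2) v =
      ∑ a ∈ Icc N (2 * N), ∑ a' ∈ Icc N (2 * N),
        (b a * pw (a : ℝ) t₀) * (starRingEnd ℂ) (b a' * pw (a' : ℝ) t₀) / (L : ℂ) *
          ((‖gs L ((Real.log v + Real.log a - Real.log a') / (2 * Real.pi))‖ ^ 2 : ℝ) : ℂ) := by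
  have h1 : ∀ u : ℤ, ((‖DP N b ((t₀ + u : ℤ) : ℝ)‖ ^ 2 : ℝ) : ℂ) =
      ∑ a ∈ Icc N (2 * N), ∑ a' ∈ Icc N (2 * N),
        (b a * pw (a : ℝ) t₀) * (starRingEnd ℂ) (b a' * pw (a' : ℝ) t₀) *
          ex ((u : ℝ) * (Real.log a / (2 * Real.pi)) -
            (u : ℝ) * (Real.log a' / (2 * Real.pi))) := by
    intro u
    rw [← normsq_sum (Icc N (2 * N)) (fun a => b a * pw (a : ℝ) t₀)
      (fun a => (u : ℝ) * (Real.log a / (2 * Real.pi)))]
    congr 3
    rw [Int.cast_add, DP_add]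
    unfold DP
    refine sum_congr rfl fun a _ => ?_
    rw [pw_eq_ex (a : ℝ) (u : ℝ)]
  unfold FT
  simp_rw [← hT L, mul_sum]
  simp_rw [sum_comm (s := Icc N (2 * N)) (t := Ioo (-(L : ℤ)) L)]
  refine sum_congr rfl fun u _ => ?_
  rw [Complex.ofReal_mul, h1 u, mul_sum, sum_mul]
  refine sum_congr rfl fun a _ => ?_
  rw [mul_sum, sum_mul]
  refine sum_congr rfl fun a' _ => ?_
  rw [pw_eq_ex v (u : ℝ), show (u : ℝ) * ((Real.log v + Real.log a - Real.log a') / (2 * Real.pi)) =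
    ((u : ℝ) * (Real.log a / (2 * Real.pi)) - (u : ℝ) * (Real.log a' / (2 * Real.pi))) +
      (u : ℝ) * (Real.log v / (2 * Real.pi)) by ring, ex_add, Complex.ofReal_div,
    Complex.ofReal_natCast]
  ring

lemma theta_le_Pt {N a a' : ℕ} (hN : 1 ≤ N) (ha : a ∈ Icc N (2 * N)) (ha' : a' ∈ Icc N (2 * N))
    {v : ℝ} (hv : v ∈ Set.Icc (1 / 9 : ℝ) (82 / 9)) :
    |Real.log v + Real.log a - Real.log a'| ≤ Real.pi := by
  obtain ⟨h1, h2⟩ := mem_Icc.1 ha
  obtain ⟨h3, h4⟩ := mem_Icc.1 ha'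
  have hN' : (1 : ℝ) ≤ N := by exact_mod_cast hN
  have h1' : (N : ℝ) ≤ a := by exact_mod_cast h1
  have h2' : (a : ℝ) ≤ 2 * N := by exact_mod_cast h2
  have h3' : (N : ℝ) ≤ a' := by exact_mod_cast h3
  have h4' : (a' : ℝ) ≤ 2 * N := by exact_mod_cast h4
  obtain ⟨hv1, hv2⟩ := hv
  have hvp : 0 < v := by linarith
  have hap : (0 : ℝ) < a := by linarith
  have hap' : (0 : ℝ) < a' := by linarith
  have he : (19 : ℝ) ≤ Real.exp 3 := by
    have h := Real.exp_one_gt_d9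
    have : Real.exp 3 = Real.exp 1 ^ 3 := by rw [← Real.exp_nat_mul]; norm_num
    rw [this]
    have h0 : (2.7 : ℝ) ≤ Real.exp 1 := by linarith
    have := pow_le_pow_left₀ (by norm_num) h0 3
    linarith [show (19 : ℝ) ≤ 2.7 ^ 3 by norm_num]
  have hl : Real.log 19 ≤ 3 := (Real.log_le_iff_le_exp (by norm_num)).2 he
  have hpi := Real.pi_gt_three
  have k1 : Real.log (v * a) ≤ Real.log (19 * a') :=
    Real.log_le_log (by positivity) (by nlinarith)
  have k2 : Real.log a' ≤ Real.log (19 * (v * a)) :=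
    Real.log_le_log hap' (by nlinarith)
  rw [Real.log_mul hvp.ne' hap.ne', Real.log_mul (by norm_num) hap'.ne'] at k1
  rw [Real.log_mul (by norm_num) (by positivity), Real.log_mul hvp.ne' hap.ne'] at k2
  rw [abs_le]
  constructor <;> linarith

lemma gs_bound_Pt {N L J a a' : ℕ} (hN : 1 ≤ N) (hJ : J * N ≤ 2 * L)
    (ha : a ∈ Icc N (2 * N)) (ha' : a' ∈ Icc N (2 * N))
    {v : ℝ} (hv : v ∈ Set.Icc (1 / 9 : ℝ) (82 / 9)) :
    ‖gs L ((Real.log v + Real.log a - Real.log a') / (2 * Real.pi))‖ ^ 2 ≤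
      2 * (L : ℝ) ^ 2 * (120 ^ 2 * kp ((J : ℝ) * (v * a - a'))) := by
  have hθ := theta_le_Pt hN ha ha' hv
  set θ := Real.log v + Real.log a - Real.log a' with hθd
  have hpi := Real.pi_pos
  have hx : |θ / (2 * Real.pi)| ≤ 1 / 2 := by
    rw [abs_div, abs_of_pos (by positivity : 0 < 2 * Real.pi), div_le_iff₀ (by positivity)]
    linarith
  refine (gs_sq_le L hx).trans (mul_le_mul_of_nonneg_left ?_ (by positivity))
  refine le_trans ?_ (kp_mul_le (c := 1 / 120) (A := 120) (by norm_num) (by norm_num) _)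
  apply kp_anti
  obtain ⟨h1, h2⟩ := mem_Icc.1 ha
  obtain ⟨h3, h4⟩ := mem_Icc.1 ha'
  have hN' : (1 : ℝ) ≤ N := by exact_mod_cast hN
  have h1' : (N : ℝ) ≤ a := by exact_mod_cast h1
  have h2' : (a : ℝ) ≤ 2 * N := by exact_mod_cast h2
  have h3' : (N : ℝ) ≤ a' := by exact_mod_cast h3
  have h4' : (a' : ℝ) ≤ 2 * N := by exact_mod_cast h4
  have hJ' : (J : ℝ) * N ≤ 2 * L := by exact_mod_cast hJ
  obtain ⟨hv1, hv2⟩ := hv
  have hvp : 0 < v := by linarith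
  have hap : (0 : ℝ) < a := by linarith
  have hap' : (0 : ℝ) < a' := by linarith
  have hl := abs_sub_div_le_log (a := v * a) (b := a') (X := 19 * N) (by positivity) hap'
    (by nlinarith) (by linarith)
  rw [Real.log_mul hvp.ne' hap.ne', ← hθd, div_le_iff₀ (by positivity)] at hl
  apply sq_le_sq.2
  have e : 2 * (L : ℝ) * (θ / (2 * Real.pi)) = L / Real.pi * θ := by field_simp
  rw [e, abs_mul, abs_mul, abs_mul, abs_of_pos (by norm_num : (0 : ℝ) < 1 / 120),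
    abs_of_nonneg (Nat.cast_nonneg J : (0 : ℝ) ≤ J),
    abs_of_nonneg (by positivity : (0 : ℝ) ≤ L / Real.pi)]
  have hp2 := Real.pi_lt_d2
  have hθ0 := abs_nonneg θ
  have hJ0 : (0 : ℝ) ≤ J := Nat.cast_nonneg J
  have hL0 : (0 : ℝ) ≤ L := Nat.cast_nonneg L
  calc 1 / 120 * ((J : ℝ) * |v * a - a'|) ≤ 1 / 120 * (J * (|θ| * (19 * N))) := by gcongr
    _ = 19 / 120 * (J * N) * |θ| := by ring
    _ ≤ 19 / 120 * (2 * L) * |θ| := by gcongr
    _ ≤ L / Real.pi * |θ| := by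
        apply mul_le_mul_of_nonneg_right _ hθ0
        rw [le_div_iff₀ hpi]
        nlinarith

lemma gs_two_Pt {N : ℕ} (hN : 1 ≤ N) (y : ℝ) :
    ‖gs (2 * N) y‖ ^ 2 ≤ 4 * (N : ℝ) ^ 2 * Ph N y := by
  have e : gs (2 * N) y = gs N y * (1 + ex (N * y)) := by
    unfold gs
    rw [two_mul, sum_range_add, mul_add, mul_one, sum_mul]
    congr 1
    refine sum_congr rfl fun r _ => ?_
    rw [← ex_add]
    congr 1
    push_cast
    ring
  have h1 : ‖1 + ex (N * y)‖ ≤ 2 := by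
    refine (norm_add_le _ _).trans ?_
    rw [norm_ex, norm_one]
    norm_num
  have h2 := gs_sq_le_Ph hN y
  rw [e, norm_mul, mul_pow]
  have h3 := pow_le_pow_left₀ (norm_nonneg _) h1 2
  have h4 := sq_nonneg ‖gs N y‖
  nlinarith

lemma sum_Ph_Pt (hT : TriangStmt) (hE : PhExpStmt) {N M J : ℕ} (hN : 1 ≤ N) (hJ : 1 ≤ J)
    (hJM : J ≤ M) (v : ℝ) :
    ∑ a ∈ Icc N (2 * N), Ph J (v * a) ≤ 8 * N / J * (1 + rho N M v) := by
  have hN' : (1 : ℝ) ≤ N := by exact_mod_cast hN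
  have hJ' : (1 : ℝ) ≤ J := by exact_mod_cast hJ
  set S : ℝ := ∑ u ∈ Ioo (-((2 * N : ℕ) : ℤ)) ((2 * N : ℕ) : ℤ),
    ((((2 * N : ℕ) : ℝ) - |(u : ℝ)|) / N) * Ph J (v * (N + u)) with hS
  have h1 : ∑ a ∈ Icc N (2 * N), Ph J (v * a) ≤ S := by
    have e : ∑ a ∈ Icc N (2 * N), Ph J (v * a) =
        ∑ u ∈ (Icc N (2 * N)).image (fun a : ℕ => (a : ℤ) - N), Ph J (v * (N + u)) := by
      rw [sum_image (fun a _ b _ h => by simpa using h)]
      refine sum_congr rfl fun a _ => ?_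
      congr 2
      push_cast
      ring
    rw [e]
    calc ∑ u ∈ (Icc N (2 * N)).image (fun a : ℕ => (a : ℤ) - N), Ph J (v * (N + u))
        ≤ ∑ u ∈ (Icc N (2 * N)).image (fun a : ℕ => (a : ℤ) - N),
          ((((2 * N : ℕ) : ℝ) - |(u : ℝ)|) / N) * Ph J (v * (N + u)) := by
          refine sum_le_sum fun u hu => ?_
          obtain ⟨a, ha, rfl⟩ := mem_image.1 hu
          obtain ⟨h1, h2⟩ := mem_Icc.1 ha
          have h1' : (N : ℝ) ≤ a := by exact_mod_cast h1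
          have h2' : (a : ℝ) ≤ 2 * N := by exact_mod_cast h2
          refine le_mul_of_one_le_left (Ph_nonneg _ _) ?_
          rw [le_div_iff₀ (by linarith)]
          push_cast
          rw [abs_of_nonneg (by linarith)]
          linarith
      _ ≤ S := by
          apply sum_le_sum_of_subset_of_nonneg
          · intro u hu
            obtain ⟨a, ha, rfl⟩ := mem_image.1 hu
            obtain ⟨h1, h2⟩ := mem_Icc.1 ha
            rw [mem_Ioo]
            push_cast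
            omega
          · intro u hu _
            refine mul_nonneg (div_nonneg ?_ (by linarith)) (Ph_nonneg _ _)
            rw [mem_Ioo] at hu
            have : |u| ≤ ((2 * N : ℕ) : ℤ) := abs_le.2 ⟨hu.1.le, hu.2.le⟩
            have h' : ((|u| : ℤ) : ℝ) ≤ (((2 * N : ℕ) : ℤ) : ℝ) := by exact_mod_cast this
            rw [Int.cast_abs, Int.cast_natCast] at h'
            linarith
  have h2 : (S : ℂ) = ∑ l ∈ Ioo (-(J : ℤ)) J, cf J l * ex ((l : ℝ) * v * N) / (N : ℂ) *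
      ((‖gs (2 * N) ((l : ℝ) * v)‖ ^ 2 : ℝ) : ℂ) := by
    rw [hS, Complex.ofReal_sum]
    simp_rw [← hT (2 * N), mul_sum]
    rw [sum_comm]
    refine sum_congr rfl fun u _ => ?_
    rw [Complex.ofReal_mul, (hE J hJ).1, mul_sum]
    refine sum_congr rfl fun l _ => ?_
    rw [show (l : ℝ) * (v * (N + u)) = (l : ℝ) * v * N + (u : ℝ) * ((l : ℝ) * v) by ring, ex_add,
      Complex.ofReal_div, Complex.ofReal_natCast]
    ring
  have h3 : S ≤ ‖(S : ℂ)‖ := by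
    rw [Complex.norm_real, Real.norm_eq_abs]
    exact le_abs_self _
  refine h1.trans (h3.trans ?_)
  rw [h2]
  refine (norm_sum_le _ _).trans ?_
  have h4 : ∀ l ∈ Ioo (-(J : ℤ)) J, ‖cf J l * ex ((l : ℝ) * v * N) / (N : ℂ) *
      ((‖gs (2 * N) ((l : ℝ) * v)‖ ^ 2 : ℝ) : ℂ)‖ ≤
      2 / J / N * ‖gs (2 * N) ((l : ℝ) * v)‖ ^ 2 := by
    intro l hl
    rw [norm_mul, norm_div, norm_mul, norm_ex, mul_one, Complex.norm_real, Real.norm_eq_abs,
      abs_of_nonneg (by positivity), Complex.norm_natCast]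
    have := (hE J hJ).2 l hl
    gcongr
  refine (sum_le_sum h4).trans ?_
  rw [← mul_sum]
  have h5 : ∑ l ∈ Ioo (-(J : ℤ)) J, ‖gs (2 * N) ((l : ℝ) * v)‖ ^ 2 ≤
      4 * (N : ℝ) ^ 2 * (1 + rho N M v) := by
    have h0 : (0 : ℤ) ∈ Ioo (-(J : ℤ)) J := by
      rw [mem_Ioo]
      omega
    rw [← add_sum_erase _ _ h0, mul_add, mul_one]
    apply add_le_add
    · have := pow_le_pow_left₀ (norm_nonneg _) (norm_gs_le (2 * N) (((0 : ℤ) : ℝ) * v)) 2
      push_cast at this ⊢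
      linarith
    · unfold rho
      rw [mul_sum]
      refine (sum_le_sum fun l _ => gs_two_Pt hN _).trans ?_
      apply sum_le_sum_of_subset_of_nonneg
      · intro l hl
        rw [mem_erase, mem_Ioo] at hl
        rw [mem_Ms]
        omega
      · intro l _ _
        exact mul_nonneg (by positivity) (Ph_nonneg _ _)
  calc 2 / (J : ℝ) / N * ∑ l ∈ Ioo (-(J : ℤ)) J, ‖gs (2 * N) ((l : ℝ) * v)‖ ^ 2
      ≤ 2 / (J : ℝ) / N * (4 * (N : ℝ) ^ 2 * (1 + rho N M v)) :=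
        mul_le_mul_of_nonneg_left h5 (by positivity)
    _ = _ := by field_simp; ring

theorem pt_stmt (hT : TriangStmt) (hE : PhExpStmt) (hM : PhMajStmt) : PtStmt := by
  obtain ⟨C, hC, hM⟩ := hM
  refine ⟨16 * 120 ^ 2 * C, by positivity, ?_⟩
  intro N M L hN hNL hLM b hb t₀ v hv
  obtain ⟨J, hJ1, hJM, hJ2, hJ3⟩ : ∃ J : ℕ, 1 ≤ J ∧ J ≤ M ∧ J * N ≤ 2 * L ∧ L ≤ J * N := by
    have hd := Nat.div_add_mod (L + N - 1) N
    have hm := Nat.mod_lt (L + N - 1) (show N > 0 by omega)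
    refine ⟨(L + N - 1) / N, ?_, ?_, ?_, ?_⟩
    · rw [Nat.le_div_iff_mul_le (by omega)]
      omega
    · apply Nat.le_of_lt_succ
      rw [Nat.div_lt_iff_lt_mul (by omega), Nat.succ_mul, mul_comm M N]
      omega
    · rw [mul_comm]
      omega
    · rw [mul_comm]
      omega
  have hN' : (1 : ℝ) ≤ N := by exact_mod_cast hN
  have hL' : (1 : ℝ) ≤ L := by exact_mod_cast hN.trans hNL
  have hJ' : (1 : ℝ) ≤ J := by exact_mod_cast hJ1
  have hJ3' : (L : ℝ) ≤ J * N := by exact_mod_cast hJ3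
  have hρ := rho_nonneg N M v
  rw [expand_Pt hT]
  have h1 : ∀ a ∈ Icc N (2 * N), ‖∑ a' ∈ Icc N (2 * N),
        (b a * pw (a : ℝ) t₀) * (starRingEnd ℂ) (b a' * pw (a' : ℝ) t₀) / (L : ℂ) *
          ((‖gs L ((Real.log v + Real.log a - Real.log a') / (2 * Real.pi))‖ ^ 2 : ℝ) : ℂ)‖ ≤
      2 * L * 120 ^ 2 * C * Ph J (v * a) := by
    intro a ha
    refine (norm_sum_le _ _).trans ?_
    have h2 : ∀ a' ∈ Icc N (2 * N),
        ‖(b a * pw (a : ℝ) t₀) * (starRingEnd ℂ) (b a' * pw (a' : ℝ) t₀) / (L : ℂ) *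
          ((‖gs L ((Real.log v + Real.log a - Real.log a') / (2 * Real.pi))‖ ^ 2 : ℝ) : ℂ)‖ ≤
        2 * L * 120 ^ 2 * kp ((J : ℝ) * (v * a - a')) := by
      intro a' ha'
      rw [norm_mul, norm_div, norm_mul, Complex.norm_conj, norm_mul, norm_mul, norm_pw, norm_pw,
        mul_one, mul_one, Complex.norm_real, Real.norm_eq_abs, abs_of_nonneg (by positivity),
        Complex.norm_natCast]
      have h3 := gs_bound_Pt hN hJ2 ha ha' hv
      have h4 : ‖b a‖ * ‖b a'‖ ≤ 1 := mul_le_one₀ (hb a) (norm_nonneg _) (hb a')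
      calc _ ≤ 1 / (L : ℝ) * (2 * (L : ℝ) ^ 2 * (120 ^ 2 * kp ((J : ℝ) * (v * a - a')))) := by
            gcongr
        _ = _ := by field_simp
    refine (sum_le_sum h2).trans ?_
    rw [← mul_sum, mul_assoc (2 * (L : ℝ) * 120 ^ 2)]
    apply mul_le_mul_of_nonneg_left _ (by positivity)
    have h5 := hM J hJ1 (v * a) ((Icc N (2 * N)).image (fun a' : ℕ => -(a' : ℤ)))
    rw [sum_image (fun x _ y _ h => by simpa using h)] at h5
    refine le_trans (le_of_eq (sum_congr rfl fun a' _ => ?_)) h5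
    congr 2
    push_cast
    ring
  refine (norm_sum_le _ _).trans ((sum_le_sum h1).trans ?_)
  rw [← mul_sum]
  have h6 := sum_Ph_Pt hT hE hN hJ1 hJM v
  calc 2 * (L : ℝ) * 120 ^ 2 * C * ∑ a ∈ Icc N (2 * N), Ph J (v * a)
      ≤ 2 * ((J : ℝ) * N) * 120 ^ 2 * C * (8 * N / J * (1 + rho N M v)) := by
        have : 0 ≤ ∑ a ∈ Icc N (2 * N), Ph J (v * a) := sum_nonneg fun _ _ => Ph_nonneg _ _
        gcongr
    _ = _ := by field_simp; ring

end Pool.Agent.MP_2a1f0e_nt.GM
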