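import Pool.Agent.MP_2a1f0e_nt.GM.Basic

set_option autoImplicit false

open Finset

namespace Pool.Agent.MP_2a1f0e_nt.GM

/-- bounds for a function and its first two derivatives -/
def Bd_Rad (A : ℝ) (φ : ℝ → ℝ) : Prop :=
  ∃ φ₁ φ₂ : ℝ → ℝ, (∀ x, HasDerivAt φ (φ₁ x) x) ∧ (∀ x, HasDerivAt φ₁ (φ₂ x) x) ∧
    Continuous φ₂ ∧ ∀ x, |φ x| ≤ A ∧ |φ₁ x| ≤ A ∧ |φ₂ x| ≤ A

lemma nonneg_Rad {A : ℝ} {φ : ℝ → ℝ} (h : Bd_Rad A φ) : 0 ≤ A := by
  obtain ⟨_, _, -, -, -, h⟩ := h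
  exact (abs_nonneg _).trans (h 0).1

lemma mul_Rad {A B : ℝ} {φ ψ : ℝ → ℝ} (h : Bd_Rad A φ) (h' : Bd_Rad B ψ) :
    Bd_Rad (4 * (A * B)) fun x => φ x * ψ x := by
  have hA := nonneg_Rad h
  have hAB := mul_nonneg hA (nonneg_Rad h')
  obtain ⟨φ₁, φ₂, a1, a2, a3, a4⟩ := h
  obtain ⟨ψ₁, ψ₂, b1, b2, b3, b4⟩ := h'
  have c1 : Continuous φ := continuous_iff_continuousAt.2 fun x => (a1 x).continuousAt
  have c2 : Continuous φ₁ := continuous_iff_continuousAt.2 fun x => (a2 x).continuousAt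
  have c3 : Continuous ψ := continuous_iff_continuousAt.2 fun x => (b1 x).continuousAt
  have c4 : Continuous ψ₁ := continuous_iff_continuousAt.2 fun x => (b2 x).continuousAt
  have key : ∀ {a b : ℝ}, |a| ≤ A → |b| ≤ B → |a * b| ≤ A * B := fun ha hb => by
    rw [abs_mul]
    exact mul_le_mul ha hb (abs_nonneg _) hA
  refine ⟨fun x => φ₁ x * ψ x + φ x * ψ₁ x,
    fun x => φ₂ x * ψ x + φ₁ x * ψ₁ x + (φ₁ x * ψ₁ x + φ x * ψ₂ x), fun x => (a1 x).mul (b1 x),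
    fun x => ((a2 x).mul (b1 x)).add ((a1 x).mul (b2 x)), by fun_prop, fun x => ?_⟩
  obtain ⟨p0, p1, p2⟩ := a4 x
  obtain ⟨q0, q1, q2⟩ := b4 x
  have k00 := abs_le.1 (key p0 q0)
  have k10 := abs_le.1 (key p1 q0)
  have k01 := abs_le.1 (key p0 q1)
  have k20 := abs_le.1 (key p2 q0)
  have k11 := abs_le.1 (key p1 q1)
  have k02 := abs_le.1 (key p0 q2)
  simp only [abs_le]
  refine ⟨⟨?_, ?_⟩, ⟨?_, ?_⟩, ?_, ?_⟩ <;>
    linarith [k00.1, k00.2, k10.1, k10.2, k01.1, k01.2, k20.1, k20.2, k11.1, k11.2, k02.1, k02.2]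

lemma scale_Rad {A v : ℝ} {φ : ℝ → ℝ} (h : Bd_Rad A φ) (hv : |v| ≤ 3) :
    Bd_Rad (9 * A) fun x => φ (x * v) := by
  have hA := nonneg_Rad h
  obtain ⟨φ₁, φ₂, a1, a2, a3, a4⟩ := h
  refine ⟨fun x => φ₁ (x * v) * v, fun x => φ₂ (x * v) * v * v,
    fun x => (a1 (x * v)).comp x (hasDerivAt_mul_const v),
    fun x => ((a2 (x * v)).comp x (hasDerivAt_mul_const v)).mul_const v, by fun_prop,
    fun x => ?_⟩
  obtain ⟨p0, p1, p2⟩ := a4 (x * v)
  have k1 : |φ₁ (x * v)| * |v| ≤ A * 3 := mul_le_mul p1 hv (abs_nonneg _) hA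
  have k2 : |φ₂ (x * v)| * |v| * |v| ≤ A * 3 * 3 :=
    mul_le_mul (mul_le_mul p2 hv (abs_nonneg _) hA) hv (abs_nonneg _) (by positivity)
  simp only [abs_mul]
  refine ⟨?_, ?_, ?_⟩ <;> linarith

lemma exists_Rad {φ : ℝ → ℝ} (h : ContDiff ℝ 2 φ) (hs : HasCompactSupport φ) :
    ∃ A, Bd_Rad A φ := by
  have h1 : ContDiff ℝ 1 (deriv φ) := h.deriv' (n := 1)
  have h2 : Continuous (deriv (deriv φ)) := h1.continuous_deriv le_rfl
  obtain ⟨A, hA⟩ := h.continuous.bounded_above_of_compact_support hs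
  obtain ⟨B, hB⟩ := h1.continuous.bounded_above_of_compact_support hs.deriv
  obtain ⟨C, hC⟩ := h2.bounded_above_of_compact_support hs.deriv.deriv
  exact ⟨max A (max B C), deriv φ, deriv (deriv φ),
    fun x => (h.differentiable (by norm_num) x).hasDerivAt,
    fun x => (h1.differentiable (by norm_num) x).hasDerivAt, h2,
    fun x => ⟨(hA x).trans (le_max_left _ _), (hB x).trans (le_max_of_le_right (le_max_left _ _)),
      (hC x).trans (le_max_of_le_right (le_max_right _ _))⟩⟩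

lemma four_Rad {A : ℝ} {φ : ℝ → ℝ} (h : Bd_Rad A φ) (hs : ∀ x, x ≤ 3 / 4 ∨ 9 / 4 ≤ x → φ x = 0)
    (η : ℝ) : ‖∫ r : ℝ, (φ r : ℂ) * ex (-(η * r))‖ ≤ 6 * A * kp η := by
  obtain ⟨φ₁, φ₂, a1, a2, a3, a4⟩ := h
  have c1 : Continuous φ := continuous_iff_continuousAt.2 fun x => (a1 x).continuousAt
  have c0 := continuous_ex
  have z0 : φ₁ 0 = 0 := (a1 0).unique ((hasDerivAt_const (0 : ℝ) (0 : ℝ)).congr_of_eventuallyEq
    ((eventually_le_nhds (by norm_num : (0 : ℝ) < 3 / 4)).mono fun x hx => hs x (Or.inl hx)))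
  have z3 : φ₁ 3 = 0 := (a1 3).unique ((hasDerivAt_const (3 : ℝ) (0 : ℝ)).congr_of_eventuallyEq
    ((eventually_ge_nhds (by norm_num : (9 / 4 : ℝ) < 3)).mono fun x hx => hs x (Or.inr hx)))
  have e0 : ∫ r : ℝ, (φ r : ℂ) * ex (-(η * r)) = ∫ r in (0 : ℝ)..3, (φ r : ℂ) * ex (-η * r) := by
    simp only [neg_mul]
    refine (intervalIntegral.integral_eq_integral_of_support_subset fun x hx => ?_).symm
    by_contra hc
    apply hx
    rw [Set.mem_Ioc, not_and_or, not_lt, not_le] at hc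
    rw [hs x (hc.imp (fun h => by linarith) fun h => by linarith), Complex.ofReal_zero, zero_mul]
  have bd : ∀ ψ : ℝ → ℝ, (∀ x, |ψ x| ≤ A) →
      ‖∫ r in (0 : ℝ)..3, (ψ r : ℂ) * ex (-η * r)‖ ≤ 3 * A := fun ψ hψ => by
    refine (intervalIntegral.norm_integral_le_of_norm_le_const (C := A) fun x _ => ?_).trans
      (le_of_eq (by norm_num [mul_comm]))
    rw [norm_mul, norm_ex, mul_one, Complex.norm_real]
    exact hψ x
  set c : ℂ := 2 * Real.pi * Complex.I * ((-η : ℝ) : ℂ) with hc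
  have e1 : ∫ r in (0 : ℝ)..3, (c ^ 2 * ((φ r : ℂ) * ex (-η * r)) - (φ₂ r : ℂ) * ex (-η * r)) =
      (c * φ 3 - φ₁ 3) * ex (-η * 3) - (c * φ 0 - φ₁ 0) * ex (-η * 0) := by
    refine intervalIntegral.integral_eq_sub_of_hasDerivAt
      (f := fun r : ℝ => (c * φ r - φ₁ r) * ex (-η * r)) (fun x _ => ?_)
      (Continuous.intervalIntegrable (by fun_prop) _ _)
    refine (((((a1 x).ofReal_comp).const_mul c).sub (a2 x).ofReal_comp).mul
      (hasDerivAt_ex (-η) x)).congr_deriv ?_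
    simp only [Pi.sub_apply, ← hc]
    ring
  rw [z0, z3, hs 0 (by norm_num), hs 3 (by norm_num), intervalIntegral.integral_sub
    (Continuous.intervalIntegrable (by fun_prop) _ _)
    (Continuous.intervalIntegrable (by fun_prop) _ _), intervalIntegral.integral_const_mul] at e1
  simp only [Complex.ofReal_zero, mul_zero, sub_zero, zero_mul, sub_eq_zero] at e1
  have k1 := bd φ fun x => (a4 x).1
  have k2 := bd φ₂ fun x => (a4 x).2.2
  have k3 : η ^ 2 ≤ ‖c‖ ^ 2 := by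
    have : ‖c‖ = 2 * Real.pi * |η| := by
      rw [hc, norm_mul, norm_mul, norm_mul, Complex.norm_I, Complex.norm_real, Complex.norm_real,
        Real.norm_of_nonneg Real.pi_pos.le, Real.norm_eq_abs, abs_neg]
      simp
    rw [this, mul_pow, sq_abs]
    refine le_mul_of_one_le_left (sq_nonneg _) (one_le_pow₀ ?_)
    linarith [Real.pi_gt_three]
  rw [← e1, norm_mul, norm_pow] at k2
  rw [e0, kp, mul_one_div, le_div_iff₀ (by positivity)]
  have k4 := mul_le_mul_of_nonneg_right k3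
    (norm_nonneg (∫ r in (0 : ℝ)..3, (φ r : ℂ) * ex (-η * r)))
  linarith

theorem rad_stmt : RadStmt := by
  have hW : ContDiff ℝ 2 Wt := contDiff_Wt (n := 2)
  obtain ⟨A₀, h0⟩ := exists_Rad hW hasCompactSupport_Wt
  obtain ⟨A₁, h1⟩ := exists_Rad (φ := fun r => r * Wt r) (contDiff_id.mul hW)
    hasCompactSupport_Wt.mul_left
  obtain ⟨A₂, h2⟩ := exists_Rad (φ := fun r => r ^ 2 * Wt r) ((contDiff_id.pow 2).mul hW)
    hasCompactSupport_Wt.mul_left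
  have p0 := nonneg_Rad h0
  have p1 := nonneg_Rad h1
  have p2 := nonneg_Rad h2
  have q1 : 0 ≤ 6 * (4 * (A₁ * (9 * A₀))) := by positivity
  have q2 : 0 ≤ 6 * (4 * (4 * (A₂ * (9 * A₀)) * (9 * A₀))) := by positivity
  refine ⟨6 * (4 * (A₁ * (9 * A₀))) + 6 * (4 * (4 * (A₂ * (9 * A₀)) * (9 * A₀))) + 1,
    by positivity, fun v w η hv hw => ?_⟩
  have hv' : |v| ≤ 3 := abs_le.2 ⟨by linarith [hv.1], hv.2⟩
  have hw' : |w| ≤ 3 := abs_le.2 ⟨by linarith [hw.1], hw.2⟩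
  constructor
  · refine (four_Rad (mul_Rad h1 (scale_Rad h0 hv')) (fun x hx => ?_) η).trans
      (mul_le_mul_of_nonneg_right (by linarith) (kp_pos η).le)
    simp only [Wt_eq_zero hx, mul_zero, zero_mul]
  · refine (four_Rad (mul_Rad (mul_Rad h2 (scale_Rad h0 hv')) (scale_Rad h0 hw'))
      (fun x hx => ?_) η).trans (mul_le_mul_of_nonneg_right (by linarith) (kp_pos η).le)
    simp only [Wt_eq_zero hx, mul_zero, zero_mul]

end Pool.Agent.MP_2a1f0e_nt.GM
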