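import Pool.Agent.MP_2a1f0e_nt.GM.Basic

set_option autoImplicit false

open Finset

namespace Pool.Agent.MP_2a1f0e_nt.GM

noncomputable def G_Rho (g : ℝ → ℝ) (ξ : ℤ) : ℂ :=
  ∫ v in (1 / 9 : ℝ)..(82 / 9), (g v : ℂ) * ex ((ξ : ℝ) * v)

lemma cont_Rho {g : ℝ → ℝ} (hg : Continuous g) (ξ : ℤ) :
    Continuous fun v => (g v : ℂ) * ex ((ξ : ℝ) * v) :=
  (Complex.continuous_ofReal.comp hg).mul (continuous_ex.comp (continuous_const.mul continuous_id))

lemma zero_Rho (g : ℝ → ℝ) : G_Rho g 0 = (II g : ℂ) := by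
  unfold G_Rho II
  rw [← intervalIntegral.integral_ofReal]
  simp [ex_zero]

lemma one_Rho {k : ℤ} (hk : k ≠ 0) : G_Rho (fun _ => 1) k = 0 := by
  have hc : (2 * Real.pi * Complex.I * (k : ℝ) : ℂ) ≠ 0 := by
    have h1 : (Real.pi : ℂ) ≠ 0 := by exact_mod_cast Real.pi_ne_zero
    have h2 : ((k : ℝ) : ℂ) ≠ 0 := by exact_mod_cast hk
    exact mul_ne_zero (mul_ne_zero (mul_ne_zero two_ne_zero h1) Complex.I_ne_zero) h2
  have h := intervalIntegral.integral_eq_sub_of_hasDerivAt (a := (1 / 9 : ℝ)) (b := 82 / 9)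
    (fun x _ => hasDerivAt_ex (k : ℝ) x)
    ((continuous_const.mul (continuous_ex.comp
      (continuous_const.mul continuous_id))).intervalIntegrable _ _)
  rw [intervalIntegral.integral_const_mul,
    show (k : ℝ) * (82 / 9) = k * (1 / 9) + ((9 * k : ℤ) : ℝ) by push_cast; ring, ex_add, ex_int,
    mul_one, sub_self] at h
  unfold G_Rho
  simp only [Complex.ofReal_one, one_mul]
  exact (mul_eq_zero.1 h).resolve_left hc

lemma expand_Rho (hE : PhExpStmt) {N : ℕ} (hN : 1 ≤ N) (M : ℕ) {g : ℝ → ℝ} (hg : Continuous g) :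
    (II (fun v => g v * rho N M v) : ℂ) =
      ∑ l ∈ Ioo (-(N : ℤ)) N, cf N l * ∑ m ∈ Ms M, G_Rho g (l * m) := by
  have e : ∀ v, ((g v * rho N M v : ℝ) : ℂ) = ∑ l ∈ Ioo (-(N : ℤ)) N,
      cf N l * ∑ m ∈ Ms M, (g v : ℂ) * ex (((l * m : ℤ) : ℝ) * v) := by
    intro v
    unfold rho
    rw [Complex.ofReal_mul, Complex.ofReal_sum]
    simp only [(hE N hN).1, mul_sum]
    rw [sum_comm]
    refine sum_congr rfl fun l _ => sum_congr rfl fun m _ => ?_
    rw [Int.cast_mul, mul_assoc (l : ℝ)]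
    ring
  unfold II G_Rho
  rw [← intervalIntegral.integral_ofReal]
  simp only [e]
  have hc : ∀ l : ℤ, Continuous fun v =>
      cf N l * ∑ m ∈ Ms M, (g v : ℂ) * ex (((l * m : ℤ) : ℝ) * v) := fun l =>
    continuous_const.mul (continuous_finsetSum _ fun m _ => cont_Rho hg _)
  rw [intervalIntegral.integral_finsetSum fun l _ => (hc l).intervalIntegrable _ _]
  refine sum_congr rfl fun l _ => ?_
  rw [intervalIntegral.integral_const_mul,
    intervalIntegral.integral_finsetSum fun m _ => (cont_Rho hg _).intervalIntegrable _ _]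

lemma bound_Rho (hE : PhExpStmt) {N : ℕ} (hN : 1 ≤ N) (M : ℕ) {g : ℝ → ℝ} (hg : Continuous g)
    (h0 : ∀ v, 0 ≤ g v) : II (fun v => g v * rho N M v) ≤ 2 / N * (2 * M * II g) +
      2 / N * ∑ l ∈ (Ioo (-(N : ℤ)) N).erase 0, ‖∑ m ∈ Ms M, G_Rho g (l * m)‖ := by
  have h1 : II (fun v => g v * rho N M v) ≤ ‖(II (fun v => g v * rho N M v) : ℂ)‖ := by
    rw [Complex.norm_real]
    exact Real.le_norm_self _
  have h2 : ‖∑ m ∈ Ms M, G_Rho g (0 * m)‖ = 2 * M * II g := by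
    simp only [zero_mul, zero_Rho, sum_const, card_Ms, nsmul_eq_mul]
    rw [norm_mul, Complex.norm_natCast, Complex.norm_real, Real.norm_of_nonneg (II_nonneg h0)]
    push_cast
    ring
  rw [expand_Rho hE hN M hg] at h1
  refine h1.trans ((norm_sum_le _ _).trans ?_)
  rw [← h2, ← mul_add, add_sum_erase _ (fun l => ‖∑ m ∈ Ms M, G_Rho g (l * m)‖)
    (mem_Ioo.2 ⟨by omega, by omega⟩), mul_sum]
  refine sum_le_sum fun l hl => ?_
  rw [norm_mul]
  exact mul_le_mul_of_nonneg_right ((hE N hN).2 l hl) (norm_nonneg _)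

theorem rho_stmt (hE : PhExpStmt) (hB : BesStmt) (hD : DivStmt) : RhoStmt := by
  refine ⟨288, by norm_num, fun N M Δ hN hΔ => ?_⟩
  have hN' : (0 : ℝ) < N := by exact_mod_cast hN
  have hΔ' : 0 ≤ Δ := zero_le_one.trans hΔ.1
  have h1 : II (rho N M) ≤ 36 * (M / N) := by
    have h := bound_Rho hE hN M (g := fun _ => 1) continuous_const fun _ => zero_le_one
    rw [sum_eq_zero fun l hl => by
      rw [sum_eq_zero fun m hm => one_Rho (mul_ne_zero (ne_of_mem_erase hl) (mem_Ms.1 hm).1),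
        norm_zero]] at h
    have e : II (fun _ => 1) = 9 := by
      unfold II
      rw [intervalIntegral.integral_const]
      norm_num
    simp only [one_mul] at h
    rw [e] at h
    refine h.trans (le_of_eq ?_)
    ring
  have hq : (0 : ℝ) ≤ M / N := by positivity
  refine ⟨h1.trans (by linarith), ?_⟩
  have h2 := bound_Rho hE hN M (continuous_rho N M) (rho_nonneg N M)
  simp only [← sq] at h2
  have h3 := hD N M Δ hΔ (G_Rho (rho N M))
  have h4 : ∑ ξ ∈ Icc (-((N * M : ℕ) : ℤ)) ((N * M : ℕ) : ℤ), ‖G_Rho (rho N M) ξ‖ ^ 2 ≤ _ :=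
    hB (rho N M) (continuous_rho N M).continuousOn _
  have h5 := sq_sum_le_card_mul_sum_sq (s := (Ioo (-(N : ℤ)) N).erase 0)
    (f := fun l => ‖∑ m ∈ Ms M, G_Rho (rho N M) (l * m)‖)
  have h6 : (((Ioo (-(N : ℤ)) N).erase 0).card : ℝ) ≤ 2 * N := by
    have : ((Ioo (-(N : ℤ)) N).erase 0).card ≤ 2 * N := by
      refine card_erase_le.trans ?_
      rw [Int.card_Ioo]
      omega
    exact_mod_cast this
  have hx : 0 ≤ II fun v => rho N M v ^ 2 := II_nonneg fun v => sq_nonneg _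
  generalize II (fun v => rho N M v ^ 2) = x at h2 h4 hx ⊢
  have h7 := h5.trans (mul_le_mul h6 (h3.trans (mul_le_mul_of_nonneg_left h4 (by positivity)))
    (sum_nonneg fun _ _ => sq_nonneg _) (by positivity))
  generalize ∑ l ∈ (Ioo (-(N : ℤ)) N).erase 0, ‖∑ m ∈ Ms M, G_Rho (rho N M) (l * m)‖ = S at h2 h7
  have h8 : (2 / N * S) ^ 2 ≤ 288 * (M * Δ / N) * x := by
    rw [mul_pow]
    refine (mul_le_mul_of_nonneg_left h7 (sq_nonneg _)).trans (le_of_eq ?_)
    field_simp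
    ring
  have h9 : 2 / (N : ℝ) * (2 * M * II (rho N M)) ≤ 144 * ((M : ℝ) ^ 2 / (N : ℝ) ^ 2) := by
    refine (mul_le_mul_of_nonneg_left (mul_le_mul_of_nonneg_left h1 (by positivity))
      (by positivity)).trans (le_of_eq ?_)
    field_simp
    ring
  have hc : 0 ≤ 288 * (M * Δ / N) := by positivity
  have h10 : 2 / N * S ≤ (x + 288 * (M * Δ / N)) / 2 :=
    le_of_pow_le_pow_left₀ two_ne_zero (by positivity)
      (h8.trans (by nlinarith [sq_nonneg (x - 288 * (M * Δ / N))]))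
  linarith

end Pool.Agent.MP_2a1f0e_nt.GM
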