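import Pool.Agent.MP_2a1f0e_nt.GM.Basic

set_option autoImplicit false

open Finset

namespace Pool.Agent.MP_2a1f0e_nt.GM

lemma reindex_SSt (T : ℕ) (hT : 1 ≤ T) (F G : ℝ → ℝ) (hF : ∀ x, 0 ≤ F x) (hG : ∀ x, 0 ≤ G x)
    (s : ℤ) (hs : s ∈ Ioo (-(2 * T : ℤ)) (2 * T)) :
    ∑ t ∈ Ioo (-(2 * T : ℤ)) (2 * T), F t * G ((t : ℝ) - s) ≤
      2 * ∑ u ∈ Ioo (-((8 * T : ℕ) : ℤ)) ((8 * T : ℕ) : ℤ),
        (((8 * T : ℕ) : ℝ) - |(u : ℝ)|) / ((8 * T : ℕ) : ℝ) * F ((s + u : ℤ) : ℝ) * G u := by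
  have hT' : (0 : ℝ) < T := by exact_mod_cast hT
  rw [mem_Ioo] at hs
  rw [mul_sum]
  refine le_trans ?_ (sum_le_sum_of_subset_of_nonneg
    (s := (Ioo (-(2 * T : ℤ)) (2 * T)).image fun t => t - s) ?_ ?_)
  · rw [sum_image fun a _ b _ h => by simpa using h]
    refine sum_le_sum fun t ht => ?_
    rw [mem_Ioo] at ht
    have h1 : |t - s| ≤ 4 * T := abs_le.2 ⟨by omega, by omega⟩
    have h2 : |((t - s : ℤ) : ℝ)| ≤ 4 * T := by exact_mod_cast h1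
    have h3 : (1 / 2 : ℝ) ≤ (((8 * T : ℕ) : ℝ) - |((t - s : ℤ) : ℝ)|) / ((8 * T : ℕ) : ℝ) := by
      rw [le_div_iff₀ (by positivity)]
      push_cast at h2 ⊢
      linarith
    rw [add_sub_cancel, mul_assoc]
    have h4 := mul_le_mul_of_nonneg_right h3 (mul_nonneg (hF t) (hG ((t - s : ℤ) : ℝ)))
    push_cast at h4 ⊢
    linarith
  · intro u hu
    obtain ⟨t, ht, rfl⟩ := mem_image.1 hu
    rw [mem_Ioo] at ht ⊢
    push_cast
    omega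
  · intro u hu _
    rw [mem_Ioo] at hu
    have h1 : |u| ≤ ((8 * T : ℕ) : ℤ) := abs_le.2 ⟨hu.1.le, hu.2.le⟩
    have h2 : |(u : ℝ)| ≤ ((8 * T : ℕ) : ℝ) := by exact_mod_cast h1
    have := hF ((s + u : ℤ) : ℝ)
    have := hG u
    have := sub_nonneg.2 h2
    positivity

theorem s_stmt (h2 : TwoStmt) (hP : PtStmt) (hR : RhoStmt) : SStmt := by
  obtain ⟨C2, hC2, h2⟩ := h2
  obtain ⟨CP, hCP, hP⟩ := hP
  obtain ⟨CR, hCR, hR⟩ := hR
  refine ⟨4 * C2 * CP * CR, by positivity, ?_⟩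
  intro N M T Δ hN hNT hT hD b hb s hs
  have hN' : (0 : ℝ) < N := by exact_mod_cast hN
  have e1 := reindex_SSt T (hN.trans hNT) (fun x => ‖DP N b x‖ ^ 2) (fun x => ‖Kb N M x‖ ^ 2)
    (fun _ => sq_nonneg _) (fun _ => sq_nonneg _) s hs
  have e2 := h2 N M hN (Ioo (-((8 * T : ℕ) : ℤ)) ((8 * T : ℕ) : ℤ))
    fun u => (((8 * T : ℕ) : ℝ) - |(u : ℝ)|) / ((8 * T : ℕ) : ℝ) * ‖DP N b ((s + u : ℤ) : ℝ)‖ ^ 2
  have e3 := hP N M (8 * T) hN (by omega) hT b hb s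
  obtain ⟨e4, e5⟩ := hR N M Δ hN hD
  have hc := continuous_rho N M
  have e6 := II_mono (f := fun v => ‖FT (Ioo (-((8 * T : ℕ) : ℤ)) ((8 * T : ℕ) : ℤ))
      (fun u => (((8 * T : ℕ) : ℝ) - |(u : ℝ)|) / ((8 * T : ℕ) : ℝ) *
        ‖DP N b ((s + u : ℤ) : ℝ)‖ ^ 2) v‖ * rho N M v)
    (g := fun v => CP * (N : ℝ) ^ 2 * (rho N M v + rho N M v ^ 2))
    ((((continuousOn_FT _ _).mono Icc_sub_Ioi).norm).mul hc.continuousOn)
    (Continuous.continuousOn (by fun_prop)) fun v hv => by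
      refine (mul_le_mul_of_nonneg_right (e3 v hv) (rho_nonneg N M v)).trans (le_of_eq ?_)
      ring
  have e7 : II (fun v => CP * (N : ℝ) ^ 2 * (rho N M v + rho N M v ^ 2)) =
      CP * (N : ℝ) ^ 2 * (II (rho N M) + II fun v => rho N M v ^ 2) := by
    unfold II
    rw [intervalIntegral.integral_const_mul, intervalIntegral.integral_add
      (g := fun v => rho N M v ^ 2) (hc.intervalIntegrable _ _) ((hc.pow 2).intervalIntegrable _ _)]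
  have e8 : (M : ℝ) / N ≤ (M : ℝ) ^ 2 / (N : ℝ) ^ 2 + M * Δ / N := by
    have : (M : ℝ) / N ≤ M * Δ / N :=
      div_le_div_of_nonneg_right (le_mul_of_one_le_right (Nat.cast_nonneg M) hD.1) hN'.le
    have : 0 ≤ (M : ℝ) ^ 2 / (N : ℝ) ^ 2 := by positivity
    linarith
  have e9 : II (rho N M) + II (fun v => rho N M v ^ 2) ≤
      2 * CR * ((M : ℝ) ^ 2 / (N : ℝ) ^ 2 + M * Δ / N) := by
    have := mul_le_mul_of_nonneg_left e8 hCR.le
    linarith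
  simp only [norm_Kb_sub N M (s : ℝ)]
  refine e1.trans ?_
  refine (mul_le_mul_of_nonneg_left (e2.trans (mul_le_mul_of_nonneg_left (e6.trans (e7.le.trans
    (mul_le_mul_of_nonneg_left e9 (by positivity)))) (by positivity))) zero_le_two).trans
    (le_of_eq ?_)
  ring

end Pool.Agent.MP_2a1f0e_nt.GM
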