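import Pool.Agent.MP_2a1f0e_nt.GM.Basic

set_option autoImplicit false

open Finset

namespace Pool.Agent.MP_2a1f0e_nt.GM

theorem he_Setup {N M T : ℕ} {E : ℝ}
    (h : ∑ u ∈ Icc (-((4 * T : ℕ) : ℤ)) ((4 * T : ℕ) : ℤ), ‖KK N (u : ℝ) - Kb N M (u : ℝ)‖ ≤ E) :
    HE N M (Ioo (-(2 * T : ℤ)) (2 * T)) E := by
  intro s hs
  refine le_trans ?_ h
  have e : ∑ t ∈ Ioo (-(2 * T : ℤ)) (2 * T), ‖KK N ((s : ℝ) - t) - Kb N M ((s : ℝ) - t)‖ =
      ∑ u ∈ (Ioo (-(2 * T : ℤ)) (2 * T)).image (fun t => s - t),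
        ‖KK N (u : ℝ) - Kb N M (u : ℝ)‖ := by
    rw [sum_image fun a _ b _ hab => sub_right_injective hab]
    simp only [Int.cast_sub]
  rw [e]
  refine sum_le_sum_of_subset_of_nonneg (fun u hu => ?_) fun _ _ _ => norm_nonneg _
  obtain ⟨t, ht, rfl⟩ := mem_image.1 hu
  rw [mem_Ioo] at hs ht
  rw [mem_Icc]
  push_cast
  constructor <;> omega

theorem setup_stmt (hK : K1Stmt) (hS : SStmt) : SetupStmt := by
  intro δ hδ
  have hη : 0 < min δ 1 / 4 := by positivity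
  have hη1 : min δ 1 / 4 ≤ 1 := by linarith [min_le_right δ 1]
  have hη2 : min δ 1 / 4 * 4 ≤ δ := by linarith [min_le_left δ 1]
  generalize min δ 1 / 4 = η at hη hη1 hη2
  obtain ⟨E, hE, h1⟩ := hK η hη
  obtain ⟨Cs, hCs, h2⟩ := hS
  obtain ⟨Cd, hCd, h3⟩ := divisor_bound hη
  have hC0 : 0 ≤ Cs * (81 + 81 * Cd) := by positivity
  refine ⟨9 + 9 * Cd + E + Cs * (81 + 81 * Cd), by linarith, fun N T hN hT hT2 => ?_⟩
  have n1 : (1 : ℝ) ≤ N := by exact_mod_cast hN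
  have t1 : (N : ℝ) ≤ T := by exact_mod_cast hT
  have t2 : (T : ℝ) ≤ (N : ℝ) ^ 2 := by exact_mod_cast hT2
  have n0 : (0 : ℝ) < N := by linarith
  have x1 : 1 ≤ (N : ℝ) ^ η := Real.one_le_rpow n1 hη.le
  have x2 : (N : ℝ) ^ η ≤ N := by
    simpa using Real.rpow_le_rpow_of_exponent_le n1 hη1
  have x4 : ((N : ℝ) ^ η) ^ 4 ≤ (N : ℝ) ^ δ := by
    rw [← Real.rpow_natCast, ← Real.rpow_mul n0.le]
    exact Real.rpow_le_rpow_of_exponent_le n1 (by exact_mod_cast hη2)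
  have x9 : (9 * (N : ℝ) ^ 3) ^ η ≤ 9 * ((N : ℝ) ^ η) ^ 3 := by
    rw [Real.mul_rpow (by norm_num) (by positivity), ← Real.rpow_natCast, ← Real.rpow_mul n0.le,
      mul_comm ((3 : ℕ) : ℝ), Real.rpow_mul n0.le, Real.rpow_natCast]
    refine mul_le_mul_of_nonneg_right ?_ (by positivity)
    simpa using Real.rpow_le_rpow_of_exponent_le (show (1 : ℝ) ≤ 9 by norm_num) hη1
  have k1 := h1 N ⌈8 * T * (N : ℝ) ^ η / N⌉₊ (4 * T) hN (by omega) (by omega)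
  have k2 := h2 N ⌈8 * T * (N : ℝ) ^ η / N⌉₊ T (9 * Cd * ((N : ℝ) ^ η) ^ 3) hN hT
  have m1 := Nat.le_ceil (8 * T * (N : ℝ) ^ η / N)
  have m2 := (Nat.ceil_lt_add_one (show 0 ≤ 8 * T * (N : ℝ) ^ η / N by positivity)).le
  generalize ⌈8 * T * (N : ℝ) ^ η / N⌉₊ = M at k1 k2 m1 m2
  have k3 : ∀ n : ℕ, (n : ℝ) ≤ 9 * (N : ℝ) ^ 3 →
      (n.divisors.card : ℝ) ≤ 9 * Cd * ((N : ℝ) ^ η) ^ 3 := fun n hn => by
    have := (Real.rpow_le_rpow (Nat.cast_nonneg n) hn hη.le).trans x9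
    nlinarith [h3 n]
  generalize (N : ℝ) ^ η = x at *
  generalize (N : ℝ) ^ δ = y at *
  have y1 : x ^ 3 ≤ y := (pow_le_pow_right₀ x1 (by norm_num)).trans x4
  have y2 : x ^ 2 ≤ y := (pow_le_pow_right₀ x1 (by norm_num)).trans x4
  have y3 : x ≤ y := by simpa using (pow_le_pow_right₀ x1 (show 1 ≤ 4 by norm_num)).trans x4
  rw [div_le_iff₀ n0] at m1
  have m3 : (N : ℝ) * M ≤ 9 * T * x := by
    have := mul_le_mul_of_nonneg_left m2 n0.le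
    rw [mul_add, mul_div_cancel₀ _ n0.ne', mul_one] at this
    nlinarith
  have m4 : 8 * T ≤ N * M := by
    have : (8 : ℝ) * T ≤ N * M := by nlinarith
    exact_mod_cast this
  have hD : DivB (N * M) (9 * Cd * x ^ 3) := by
    refine ⟨by nlinarith [one_le_pow₀ (n := 3) x1], fun n hn => k3 n ?_⟩
    have h4 : (n : ℝ) ≤ N * M := by exact_mod_cast hn
    have h5 : T * x ≤ (N : ℝ) ^ 2 * N := mul_le_mul t2 x2 (by linarith) (by positivity)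
    nlinarith
  have T0 : (0 : ℝ) < T := by linarith
  have y0 : 0 ≤ y := by linarith
  refine ⟨M, 9 * Cd * x ^ 3, m4, ?_, hD, ?_, fun s hs => ?_, fun b hb s hs => ?_⟩
  · rw [← mul_div_assoc, le_div_iff₀ n0]
    have : 9 * T * x ≤ 9 * y * T := by nlinarith
    have h4 : 0 ≤ (9 * Cd + E + Cs * (81 + 81 * Cd)) * y * T := by positivity
    nlinarith
  · have h4 : 0 ≤ (9 + E + Cs * (81 + 81 * Cd)) * y := by positivity
    nlinarith
  · refine (he_Setup (k1 ?_) s hs).trans (mul_le_mul_of_nonneg_right (by linarith) n0.le)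
    push_cast
    linarith
  · refine (k2 m4 hD b hb s hs).trans ?_
    have e : (N : ℝ) ^ 4 * ((M : ℝ) ^ 2 / (N : ℝ) ^ 2 + M * (9 * Cd * x ^ 3) / N) =
        (N * M) ^ 2 + (N : ℝ) ^ 2 * (N * M) * (9 * Cd * x ^ 3) := by
      field_simp
    have h4 : ((N : ℝ) * M) ^ 2 ≤ 81 * (y * (T * (N : ℝ) ^ 2)) :=
      calc ((N : ℝ) * M) ^ 2 ≤ (9 * T * x) ^ 2 := pow_le_pow_left₀ (by positivity) m3 2
        _ = 81 * (x ^ 2 * (T * T)) := by ring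
        _ ≤ 81 * (y * (T * (N : ℝ) ^ 2)) := by gcongr
    have h5 : (N : ℝ) ^ 2 * (N * M) * (9 * Cd * x ^ 3) ≤ 81 * Cd * (y * (T * (N : ℝ) ^ 2)) :=
      calc (N : ℝ) ^ 2 * (N * M) * (9 * Cd * x ^ 3)
          ≤ (N : ℝ) ^ 2 * (9 * T * x) * (9 * Cd * x ^ 3) := by gcongr
        _ = 81 * Cd * (x ^ 4 * (T * (N : ℝ) ^ 2)) := by ring
        _ ≤ 81 * Cd * (y * (T * (N : ℝ) ^ 2)) := by gcongr
    have h6 : 0 ≤ (9 + 9 * Cd + E) * (y * (T * (N : ℝ) ^ 2)) := by positivity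
    rw [mul_assoc, e]
    nlinarith [mul_le_mul_of_nonneg_left (add_le_add h4 h5) hCs.le]

end Pool.Agent.MP_2a1f0e_nt.GM
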