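import Pool.Agent.MP_2a1f0e_nt.GM.Basic

set_option autoImplicit false

open Finset

namespace Pool.Agent.MP_2a1f0e_nt.GM

lemma split_BOne {I J : Finset ℤ} (hJ : J ⊆ I) (d om : ℤ → ℝ) {V : ℝ} (V1 : ℝ) (hV : 0 < V)
    (h0 : ∀ t ∈ I, 0 ≤ om t) (h1 : ∀ t ∈ J, 1 / 2 ≤ om t) :
    ∑ t ∈ J.filter (fun t => V ≤ d t), d t ^ 2 ≤ ∑ t ∈ I.filter (fun t => V1 ≤ d t), d t ^ 2 +
      2 * (∑ t ∈ I, (if d t < V1 then om t * d t ^ 2 else 0) * d t ^ 2) / V ^ 2 := by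
  have hp : ∀ t ∈ I, 0 ≤ (if V1 ≤ d t then d t ^ 2 else 0) +
      2 * ((if d t < V1 then om t * d t ^ 2 else 0) * d t ^ 2) / V ^ 2 := by
    intro t ht
    have := h0 t ht
    split_ifs <;> positivity
  rw [sum_filter, sum_filter, mul_sum, sum_div, ← sum_add_distrib]
  refine le_trans (sum_le_sum fun t ht => ?_)
    (sum_le_sum_of_subset_of_nonneg hJ fun t ht _ => hp t ht)
  by_cases h : V ≤ d t
  · rw [if_pos h]
    by_cases h' : V1 ≤ d t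
    · rw [if_pos h', if_neg (not_lt.2 h')]
      simp
    · rw [if_neg h', if_pos (not_le.1 h'), zero_add, le_div_iff₀ (by positivity)]
      have a1 : V ^ 2 ≤ d t ^ 2 := pow_le_pow_left₀ hV.le h 2
      have a2 := h1 t ht
      have a3 : 0 ≤ d t ^ 2 := sq_nonneg _
      nlinarith [mul_le_mul_of_nonneg_left a1 a3, mul_nonneg (mul_nonneg a3 a3) (sub_nonneg.2 a2)]
  · rw [if_neg h]
    exact hp t (hJ ht)

lemma ft_BOne (I : Finset ℤ) (d om : ℤ → ℝ) (V1 v : ℝ) (h0 : ∀ t ∈ I, 0 ≤ om t)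
    (h1 : ∀ t ∈ I, om t ≤ 1) :
    ‖FT I (fun t => if d t < V1 then om t * d t ^ 2 else 0) v‖ ≤
      ‖FT I (fun t => om t * d t ^ 2) v‖ + ∑ t ∈ I.filter (fun t => V1 ≤ d t), d t ^ 2 := by
  have e : FT I (fun t => if d t < V1 then om t * d t ^ 2 else 0) v =
      FT I (fun t => om t * d t ^ 2) v -
        FT I (fun t => if V1 ≤ d t then om t * d t ^ 2 else 0) v := by
    unfold FT
    rw [← sum_sub_distrib]
    refine sum_congr rfl fun t _ => ?_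
    by_cases h : V1 ≤ d t
    · simp [h, not_lt.2 h]
    · simp [h, not_le.1 h]
  rw [e]
  refine (norm_sub_le _ _).trans (add_le_add le_rfl ((norm_FT_le _ _ _).trans ?_))
  rw [sum_filter]
  refine sum_le_sum fun t ht => ?_
  split_ifs
  · rw [abs_of_nonneg (mul_nonneg (h0 t ht) (sq_nonneg _))]
    exact mul_le_of_le_one_left (sq_nonneg _) (h1 t ht)
  · simp

theorem b1_stmt (hS : SetupStmt) (hH : HuxStmt) (hC : CubStmt) (hQ : QStmt) (hP : PtStmt)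
    (hN : NumStmt) : B1Stmt := by
  intro ε hε
  have hδ : 0 < ε / 6 := by positivity
  obtain ⟨C0, c0, hS⟩ := hS _ hδ
  obtain ⟨C1, c1, hP⟩ := hP
  obtain ⟨CQ, cq, hQ⟩ := hQ
  have c0' : 0 < C0 := by linarith
  obtain ⟨C, a0, a1, a2, a3⟩ : ∃ C : ℝ, C0 ≤ C ∧ C1 + 8 * C0 ≤ C ∧ 32 * CQ ≤ C ∧
      32 * C0 ^ 2 ≤ C := by
    have := sq_nonneg C0
    exact ⟨32 * (CQ + C0 ^ 2) + C1 + 8 * C0, by linarith, by linarith, by linarith, by linarith⟩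
  obtain ⟨K0, k0, hN⟩ := hN _ C hδ (c0.trans a0)
  refine ⟨8 * C0 + 2 * (K0 + 4 * C0), by positivity, fun N T hN1 hNT hT b hb V hV => ?_⟩
  have hT2 : T ≤ N ^ 2 := by
    by_contra h
    have h1 : (N ^ 2) ^ 5 < T ^ 5 := Nat.pow_lt_pow_left (not_le.1 h) (by norm_num)
    have h2 : N ^ 6 ≤ (N ^ 2) ^ 5 := by
      rw [← pow_mul]
      exact Nat.pow_le_pow_right hN1 (by norm_num)
    omega
  obtain ⟨M, Δ, m1, m2, m3, m4, m5, m6⟩ := hS N T hN1 hNT hT2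
  have m7 := m6 b hb
  have hM : 1 ≤ M := by
    rcases Nat.eq_zero_or_pos M with rfl | h
    · omega
    · exact h
  have n1 : (1 : ℝ) ≤ N := by exact_mod_cast hN1
  have n0 : (0 : ℝ) < N := by linarith
  have t1 : (1 : ℝ) ≤ T := by exact_mod_cast hN1.trans hNT
  have t0 : (0 : ℝ) < T := by linarith
  have p1 : 1 ≤ (N : ℝ) ^ (ε / 6) := Real.one_le_rpow n1 hδ.le
  have p2 : (N : ℝ) ^ (ε / 6) ≤ (N : ℝ) ^ ε := Real.rpow_le_rpow_of_exponent_le n1 (by linarith)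
  have p3 : 6 * (ε / 6) = ε := by ring
  have hP' := fun v hv => hP N M (2 * T) hN1 (by omega) (by omega) b hb 0 v hv
  simp only [Nat.cast_mul, Nat.cast_ofNat, zero_add] at hP'
  have hN' := hN N T M Δ
  rw [p3] at hN'
  generalize (N : ℝ) ^ (ε / 6) = P at *
  generalize (N : ℝ) ^ ε = R at *
  have s0 : 0 < √(T : ℝ) := Real.sqrt_pos.2 t0
  have u0 : 0 < √(T : ℝ) * N := by positivity
  have v0 : 0 < √(√(T : ℝ) * N) := Real.sqrt_pos.2 u0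
  have v2 : √(√(T : ℝ) * N) ^ 2 = √(T : ℝ) * N := Real.sq_sqrt u0.le
  have v4 : √(√(T : ℝ) * N) ^ 4 = T * (N : ℝ) ^ 2 := by
    rw [show (4 : ℕ) = 2 * 2 from rfl, pow_mul, v2, mul_pow, Real.sq_sqrt t0.le]
  generalize √(√(T : ℝ) * N) = V1 at v0 v2 v4
  have hY := hH N M b _ _ _ V1 hN1 hb (by positivity) (by positivity) v0 m5 m7
  have hY' : Mass N b (Ioo (-(2 * T : ℤ)) (2 * T)) V1 ≤ 8 * C0 * P * (N : ℝ) ^ 2 := by
    rw [v4, mul_div_assoc, mul_div_assoc, div_self (by positivity)] at hY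
    nlinarith [mul_nonneg (mul_nonneg c0'.le (sq_nonneg (N : ℝ))) (sub_nonneg.2 p1)]
  have o0 : ∀ t ∈ Ioo (-(2 * T : ℤ)) (2 * T), 0 ≤ (2 * (T : ℝ) - |(t : ℝ)|) / (2 * T) := by
    intro t ht
    rw [mem_Ioo] at ht
    have h1 : |t| ≤ 2 * T := abs_le.2 ⟨ht.1.le, ht.2.le⟩
    have h2 : |(t : ℝ)| ≤ 2 * T := by exact_mod_cast h1
    exact div_nonneg (sub_nonneg.2 h2) (by positivity)
  have o1 : ∀ t ∈ Ioo (-(2 * T : ℤ)) (2 * T), (2 * (T : ℝ) - |(t : ℝ)|) / (2 * T) ≤ 1 := by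
    intro t _
    rw [div_le_one (by positivity)]
    linarith [abs_nonneg (t : ℝ)]
  have o2 : ∀ t ∈ Icc 0 (T : ℤ), 1 / 2 ≤ (2 * (T : ℝ) - |(t : ℝ)|) / (2 * T) := by
    intro t ht
    rw [mem_Icc] at ht
    have h1 : |t| ≤ T := abs_le.2 ⟨by omega, ht.2⟩
    have h2 : |(t : ℝ)| ≤ T := by exact_mod_cast h1
    rw [le_div_iff₀ (by positivity)]
    linarith
  have hsub : Icc 0 (T : ℤ) ⊆ Ioo (-(2 * T : ℤ)) (2 * T) := by
    intro t ht
    rw [mem_Icc] at ht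
    rw [mem_Ioo]
    omega
  have e1 := split_BOne hsub (fun t => ‖DP N b t‖)
    (fun t => (2 * (T : ℝ) - |(t : ℝ)|) / (2 * T)) V1 hV o0 o2
  have e2 := fun v => ft_BOne _ (fun t => ‖DP N b t‖)
    (fun t => (2 * (T : ℝ) - |(t : ℝ)|) / (2 * T)) V1 v o0 o1
  set ν : ℤ → ℝ := fun t => if ‖DP N b t‖ < V1 then
    (2 * (T : ℝ) - |(t : ℝ)|) / (2 * T) * ‖DP N b t‖ ^ 2 else 0 with hν
  have hν' : ∀ t ∈ Ioo (-(2 * T : ℤ)) (2 * T),
      0 ≤ ν t ∧ ν t ≤ √(T : ℝ) * N ∧ ν t ≤ ‖DP N b t‖ ^ 2 := by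
    intro t ht
    simp only [hν]
    split_ifs with h
    · have h1 := mul_le_of_le_one_left (sq_nonneg ‖DP N b t‖) (o1 t ht)
      refine ⟨mul_nonneg (o0 t ht) (sq_nonneg _), h1.trans ?_, h1⟩
      rw [← v2]
      exact pow_le_pow_left₀ (norm_nonneg _) h.le 2
    · exact ⟨le_rfl, u0.le, sq_nonneg _⟩
  obtain ⟨X, hX⟩ : ∃ X, X = ∑ t ∈ Ioo (-(2 * T : ℤ)) (2 * T), ν t * ‖DP N b t‖ ^ 2 := ⟨_, rfl⟩
  have x0 : 0 ≤ X := hX ▸ sum_nonneg fun t ht => mul_nonneg (hν' t ht).1 (sq_nonneg _)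
  have x1 : X ≤ (K0 + 4 * C0) * R * (√(T : ℝ) * (N : ℝ) ^ 3) := by
    have w0 : 0 < √(T : ℝ) * (N : ℝ) ^ 3 := by positivity
    have r1 : 1 ≤ R := p1.trans p2
    by_cases h : 4 * (N : ℝ) * (C0 * N) * (√(T : ℝ) * N) ≤ X
    · have q1 := hC N M b _ _ _ _ X ν hN1 hb (by positivity) (by positivity) m5 m7 hν' hX h
      have b0 : 0 ≤ (C1 + 8 * C0) * P * (N : ℝ) ^ 2 := by positivity
      have q2 := hQ N M Δ _ X _ ν hN1 m3 b0 hM (fun v hv => by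
          have h1 := e2 v
          have h2 := hP' v hv
          have h3 := rho_nonneg N M v
          have h4 : 0 ≤ C1 * (N : ℝ) ^ 2 * (1 + rho N M v) * (P - 1) :=
            mul_nonneg (by positivity) (sub_nonneg.2 p1)
          have h5 : 0 ≤ 8 * C0 * P * (N : ℝ) ^ 2 * rho N M v := by positivity
          unfold Mass at hY'
          nlinarith)
        (le_of_le_of_eq (sum_le_sum fun t ht => (sq (ν t)).trans_le
          (mul_le_mul_of_nonneg_left (hν' t ht).2.2 (hν' t ht).1)) hX.symm)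
      have d0 : 0 ≤ Δ := zero_le_one.trans m3.1
      have q3 := hN' _ X hN1 hNT hT
        (m2.trans (by gcongr)) m3.1 (m4.trans (by gcongr)) b0 (by gcongr) x0 (by
          refine q1.trans ?_
          have w1 : 0 ≤ (M : ℝ) ^ 2 * (X * √X) + M * Δ * ((C1 + 8 * C0) * P * (N : ℝ) ^ 2) * X +
              (M : ℝ) ^ 2 * Δ * ((C1 + 8 * C0) * P * (N : ℝ) ^ 2) ^ 2 * √X *
                √((M : ℝ) ^ 2 / (N : ℝ) ^ 2 + M * Δ / N) := by positivity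
          generalize (M : ℝ) ^ 2 * (X * √X) + M * Δ * ((C1 + 8 * C0) * P * (N : ℝ) ^ 2) * X +
              (M : ℝ) ^ 2 * Δ * ((C1 + 8 * C0) * P * (N : ℝ) ^ 2) ^ 2 * √X *
                √((M : ℝ) ^ 2 / (N : ℝ) ^ 2 + M * Δ / N) = W at q2 w1 ⊢
          have w2 : 0 ≤ P * (T * (N : ℝ) ^ 3) * X := by positivity
          have w3 : 32 * (‖Q3 N M (Ioo (-(2 * T : ℤ)) (2 * T)) ν‖ +
              C0 * N * X * (C0 * P * (T * (N : ℝ) ^ 2))) ≤
              C * ((N : ℝ) ^ 2 * W + P * (T * (N : ℝ) ^ 3) * X) := by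
            have y1 := mul_le_mul_of_nonneg_right a2 (mul_nonneg (sq_nonneg (N : ℝ)) w1)
            have y2 := mul_le_mul_of_nonneg_right a3 w2
            nlinarith
          have w4 := mul_le_mul_of_nonneg_left w3 (pow_nonneg n0.le 3)
          nlinarith)
      have : 0 ≤ 4 * C0 * R * (√(T : ℝ) * (N : ℝ) ^ 3) := by positivity
      nlinarith
    · have y1 : 0 ≤ K0 * R * (√(T : ℝ) * (N : ℝ) ^ 3) := by positivity
      have y2 : 0 ≤ 4 * C0 * (√(T : ℝ) * (N : ℝ) ^ 3) * (R - 1) :=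
        mul_nonneg (by positivity) (sub_nonneg.2 r1)
      nlinarith [not_le.1 h]
  unfold Mass at hY' ⊢
  refine e1.trans ?_
  simp only [hν] at hX
  rw [← hX]
  have z1 : 2 * X / V ^ 2 ≤ 2 * (K0 + 4 * C0) * R * (√(T : ℝ) * (N : ℝ) ^ 3 / V ^ 2) := by
    rw [← mul_div_assoc]
    exact div_le_div_of_nonneg_right (by linarith) (by positivity)
  have z2 : 8 * C0 * P * (N : ℝ) ^ 2 ≤ 8 * C0 * R * (N : ℝ) ^ 2 := by gcongr
  have r0 : 0 < R := by linarith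
  have z3 : 0 ≤ 8 * C0 * R * (√(T : ℝ) * (N : ℝ) ^ 3 / V ^ 2) := by positivity
  have z4 : 0 ≤ 2 * (K0 + 4 * C0) * R * (N : ℝ) ^ 2 := by positivity
  nlinarith

end Pool.Agent.MP_2a1f0e_nt.GM
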