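import Pool.Agent.MP_2a1f0e_nt.GM.Defs

set_option autoImplicit false

open Finset

namespace Pool.Agent.MP_2a1f0e_nt.GM

lemma norm_pw (x u : ℝ) : ‖pw x u‖ = 1 := by
  unfold pw
  rw [show Complex.I * (u : ℂ) * ((Real.log x : ℝ) : ℂ) = ((u * Real.log x : ℝ) : ℂ) * Complex.I by
    push_cast; ring]
  exact Complex.norm_exp_ofReal_mul_I _

lemma pw_add (x u u' : ℝ) : pw x (u + u') = pw x u * pw x u' := by
  unfold pw
  rw [← Complex.exp_add]
  congr 1
  push_cast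
  ring

lemma pw_zero (x : ℝ) : pw x 0 = 1 := by simp [pw]

lemma pw_one (u : ℝ) : pw 1 u = 1 := by simp [pw]

lemma pw_mul {x y : ℝ} (hx : x ≠ 0) (hy : y ≠ 0) (u : ℝ) : pw (x * y) u = pw x u * pw y u := by
  unfold pw
  rw [← Complex.exp_add, Real.log_mul hx hy]
  congr 1
  push_cast
  ring

lemma conj_pw (x u : ℝ) : (starRingEnd ℂ) (pw x u) = pw x (-u) := by
  unfold pw
  rw [← Complex.exp_conj]
  congr 1
  simp only [map_mul, Complex.conj_I, Complex.conj_ofReal]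
  push_cast
  ring

lemma pw_inv (x u : ℝ) : pw x⁻¹ u = pw x (-u) := by
  unfold pw
  rw [Real.log_inv]
  congr 1
  push_cast
  ring

lemma pw_div {x y : ℝ} (hx : x ≠ 0) (hy : y ≠ 0) (u : ℝ) :
    pw (x / y) u = pw x u * pw y (-u) := by
  rw [div_eq_mul_inv, pw_mul hx (inv_ne_zero hy), pw_inv]

lemma pw_mul_neg (x u : ℝ) : pw x u * pw x (-u) = 1 := by
  rw [← pw_add, add_neg_cancel, pw_zero]

lemma pw_sub (x u u' : ℝ) : pw x (u - u') = pw x u * (starRingEnd ℂ) (pw x u') := by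
  rw [conj_pw, sub_eq_add_neg, pw_add]

lemma pw_eq_ex (x u : ℝ) : pw x u = ex (u * (Real.log x / (2 * Real.pi))) := by
  unfold pw ex
  congr 1
  have : (Real.pi : ℂ) ≠ 0 := by exact_mod_cast Real.pi_ne_zero
  push_cast
  field_simp

lemma measurable_pw (u : ℝ) : Measurable fun x => pw x u := by
  unfold pw
  exact Complex.measurable_exp.comp
    (measurable_const.mul (Complex.measurable_ofReal.comp Real.measurable_log))

lemma continuousOn_pw (u : ℝ) : ContinuousOn (fun x => pw x u) (Set.Ioi 0) := by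
  unfold pw
  refine Complex.continuous_exp.comp_continuousOn (continuousOn_const.mul ?_)
  exact Complex.continuous_ofReal.comp_continuousOn
    (Real.continuousOn_log.mono fun x hx => ne_of_gt hx)

lemma hasDerivAt_pw {x : ℝ} (hx : x ≠ 0) (u : ℝ) :
    HasDerivAt (fun x => pw x u) (Complex.I * u / x * pw x u) x := by
  unfold pw
  have h1 : HasDerivAt (fun x : ℝ => ((Real.log x : ℝ) : ℂ)) ((x⁻¹ : ℝ) : ℂ) x :=
    (Real.hasDerivAt_log hx).ofReal_comp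
  have h2 := (h1.const_mul (Complex.I * (u : ℂ))).cexp
  refine h2.congr_deriv ?_
  push_cast
  ring

lemma continuous_ex : Continuous ex := by
  unfold ex
  fun_prop

lemma hasDerivAt_ex (c x : ℝ) :
    HasDerivAt (fun x => ex (c * x)) (2 * Real.pi * Complex.I * c * ex (c * x)) x := by
  unfold ex
  have h1 : HasDerivAt (fun x : ℝ => ((2 * Real.pi * (c * x) : ℝ) : ℂ))
      ((2 * Real.pi * c : ℝ) : ℂ) x := by
    have := (((hasDerivAt_id x).const_mul c).const_mul (2 * Real.pi)).ofReal_comp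
    simpa using this
  have h2 := (h1.const_mul Complex.I).cexp
  refine h2.congr_deriv ?_
  push_cast
  ring

lemma contDiff_Wt {n : ℕ∞} : ContDiff ℝ n Wt := bump.contDiff

lemma continuous_Wt : Continuous Wt := bump.continuous

lemma Wt_nonneg (x : ℝ) : 0 ≤ Wt x := bump.nonneg

lemma Wt_le_one (x : ℝ) : Wt x ≤ 1 := bump.le_one

lemma Wt_eq_one {x : ℝ} (h1 : 1 ≤ x) (h2 : x ≤ 2) : Wt x = 1 := by
  apply bump.one_of_mem_closedBall
  rw [Metric.mem_closedBall, Real.dist_eq, abs_le]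
  change -(1 / 2 : ℝ) ≤ _ ∧ _ ≤ (1 / 2 : ℝ)
  constructor <;> linarith

lemma Wt_eq_zero {x : ℝ} (h : x ≤ 3 / 4 ∨ 9 / 4 ≤ x) : Wt x = 0 := by
  apply bump.zero_of_le_dist
  rw [Real.dist_eq]
  change (3 / 4 : ℝ) ≤ _
  rcases h with h | h
  · rw [abs_of_nonpos (by linarith)]; linarith
  · rw [abs_of_nonneg (by linarith)]; linarith

lemma mem_of_Wt_ne_zero {x : ℝ} (h : Wt x ≠ 0) : 3 / 4 < x ∧ x < 9 / 4 := by
  by_contra hc
  apply h
  apply Wt_eq_zero
  by_cases h1 : 3 / 4 < x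
  · right
    by_contra h2
    exact hc ⟨h1, not_le.1 h2⟩
  · left
    exact not_lt.1 h1

lemma hasCompactSupport_Wt : HasCompactSupport Wt := bump.hasCompactSupport

lemma tsupport_Wt : tsupport Wt ⊆ Set.Icc (3 / 4) (9 / 4) := by
  refine closure_minimal (fun x hx => ?_) isClosed_Icc
  have := mem_of_Wt_ne_zero hx
  exact ⟨this.1.le, this.2.le⟩

lemma conj_HH (u ξ : ℝ) : (starRingEnd ℂ) (HH u ξ) = HH (-u) (-ξ) := by
  unfold HH
  rw [← integral_conj]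
  congr 1
  funext x
  rw [map_mul, map_mul, conj_pw, conj_ex, Complex.conj_ofReal]
  congr 2
  ring

lemma mem_Ms {M : ℕ} {m : ℤ} : m ∈ Ms M ↔ m ≠ 0 ∧ -(M : ℤ) ≤ m ∧ m ≤ M := by
  unfold Ms
  rw [mem_erase, mem_Icc]

lemma card_Ms (M : ℕ) : (Ms M).card = 2 * M := by
  unfold Ms
  rw [card_erase_of_mem (by simp), Int.card_Icc]
  omega

lemma sum_Ms_neg {α : Type*} [AddCommMonoid α] (M : ℕ) (f : ℤ → α) :
    ∑ m ∈ Ms M, f (-m) = ∑ m ∈ Ms M, f m := by
  refine sum_bij (fun m _ => -m) ?_ ?_ ?_ ?_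
  · intro m hm
    rw [mem_Ms] at hm ⊢
    omega
  · intro a _ b _ h
    omega
  · intro m hm
    refine ⟨-m, ?_, neg_neg m⟩
    rw [mem_Ms] at hm ⊢
    omega
  · intro m _
    rfl

lemma conj_Kb (N M : ℕ) (u : ℝ) : (starRingEnd ℂ) (Kb N M u) = Kb N M (-u) := by
  unfold Kb
  rw [map_mul, map_mul, conj_pw, map_sum, Complex.conj_natCast,
    ← sum_Ms_neg M (fun m => HH (-u) ((m : ℝ) * N))]
  congr 1
  refine sum_congr rfl fun m _ => ?_
  rw [conj_HH]
  congr 1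
  push_cast
  ring

lemma norm_Kb_neg (N M : ℕ) (u : ℝ) : ‖Kb N M (-u)‖ = ‖Kb N M u‖ := by
  rw [← conj_Kb, Complex.norm_conj]

lemma norm_Kb_sub (N M : ℕ) (s t : ℝ) : ‖Kb N M (s - t)‖ = ‖Kb N M (t - s)‖ := by
  rw [← norm_Kb_neg, neg_sub]

lemma conj_KK (N : ℕ) (u : ℝ) : (starRingEnd ℂ) (KK N u) = KK N (-u) := by
  unfold KK
  rw [map_sum]
  refine sum_congr rfl fun n _ => ?_
  rw [map_mul, conj_pw, Complex.conj_ofReal]

lemma norm_K1_sub (N M : ℕ) (s t : ℝ) :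
    ‖KK N (s - t) - Kb N M (s - t)‖ = ‖KK N (t - s) - Kb N M (t - s)‖ := by
  rw [← Complex.norm_conj, map_sub, conj_KK, conj_Kb, neg_sub]

lemma Ph_nonneg (J : ℕ) (y : ℝ) : 0 ≤ Ph J y := by unfold Ph; positivity

lemma Ph_le_two (J : ℕ) (y : ℝ) : Ph J y ≤ 2 := by
  unfold Ph
  rcases Nat.eq_zero_or_pos J with rfl | hJ
  · simp
  have hJ' : (0 : ℝ) < (J : ℝ) ^ 2 := by positivity
  rw [div_le_iff₀ hJ']
  have h1 := pow_le_pow_left₀ (norm_nonneg _) (norm_gs_le J y) 2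
  have h2 := pow_le_pow_left₀ (norm_nonneg _) (norm_gs_le J (y + 1 / (2 * J))) 2
  linarith

lemma gs_sq_le_Ph {J : ℕ} (hJ : 1 ≤ J) (y : ℝ) : ‖gs J y‖ ^ 2 ≤ (J : ℝ) ^ 2 * Ph J y := by
  unfold Ph
  have hJ' : (0 : ℝ) < (J : ℝ) ^ 2 := by positivity
  rw [mul_div_cancel₀ _ hJ'.ne']
  have := sq_nonneg ‖gs J (y + 1 / (2 * J))‖
  linarith

lemma continuous_gs (J : ℕ) : Continuous (gs J) := by
  unfold gs
  exact continuous_finsetSum _ fun r _ => continuous_ex.comp (continuous_const.mul continuous_id)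

lemma continuous_Ph (J : ℕ) : Continuous (Ph J) := by
  unfold Ph
  have := continuous_gs J
  fun_prop

lemma rho_nonneg (N M : ℕ) (v : ℝ) : 0 ≤ rho N M v := sum_nonneg fun _ _ => Ph_nonneg _ _

lemma rho_le (N M : ℕ) (v : ℝ) : rho N M v ≤ 4 * M := by
  unfold rho
  have := sum_le_card_nsmul (Ms M) (fun m : ℤ => Ph N ((m : ℝ) * v)) 2 fun m _ => Ph_le_two _ _
  rw [card_Ms, nsmul_eq_mul] at this
  push_cast at this
  linarith

lemma continuous_rho (N M : ℕ) : Continuous (rho N M) := by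
  unfold rho
  exact continuous_finsetSum _ fun m _ =>
    (continuous_Ph N).comp (continuous_const.mul continuous_id)

lemma rho2_nonneg (N M : ℕ) (v w : ℝ) : 0 ≤ rho2 N M v w :=
  sum_nonneg fun _ _ => sum_nonneg fun _ _ => Ph_nonneg _ _

lemma continuous_rho2 (N M : ℕ) : Continuous fun p : ℝ × ℝ => rho2 N M p.1 p.2 := by
  unfold rho2
  refine continuous_finsetSum _ fun m _ => continuous_finsetSum _ fun m' _ => ?_
  exact (continuous_Ph N).comp (by fun_prop)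

lemma continuous_kp : Continuous kp := by
  unfold kp
  exact continuous_const.div (by fun_prop) fun x => by positivity

lemma kp3_nonneg (N M : ℕ) (v w : ℝ) : 0 ≤ kp3 N M v w :=
  sum_nonneg fun _ _ => sum_nonneg fun _ _ => sum_nonneg fun _ _ => (kp_pos _).le

lemma continuous_kp3 (N M : ℕ) : Continuous fun p : ℝ × ℝ => kp3 N M p.1 p.2 := by
  unfold kp3
  refine continuous_finsetSum _ fun m _ => continuous_finsetSum _ fun m' _ =>
    continuous_finsetSum _ fun m'' _ => ?_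
  exact continuous_kp.comp (by fun_prop)

/-- scaling: `kp (c x) ≤ A ^ 2 * kp x` when `1 ≤ A * |c|` and `1 ≤ A` -/
lemma kp_mul_le {c A : ℝ} (hA : 1 ≤ A) (h : 1 ≤ A * |c|) (x : ℝ) : kp (c * x) ≤ A ^ 2 * kp x := by
  unfold kp
  rw [mul_one_div, div_le_div_iff₀ (by positivity) (by positivity)]
  have h1 : 1 ≤ A ^ 2 := one_le_pow₀ hA
  have h2 : 1 ≤ A ^ 2 * c ^ 2 := by
    have := one_le_pow₀ (n := 2) h
    rwa [mul_pow, sq_abs] at this
  nlinarith [sq_nonneg x]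

lemma continuousOn_FT (s : Finset ℤ) (g : ℤ → ℝ) : ContinuousOn (FT s g) (Set.Ioi 0) := by
  unfold FT
  exact continuousOn_finsetSum _ fun t _ => continuousOn_const.mul (continuousOn_pw _)

lemma conj_FT (s : Finset ℤ) (g : ℤ → ℝ) (v : ℝ) : (starRingEnd ℂ) (FT s g v) = FT s g v⁻¹ := by
  unfold FT
  rw [map_sum]
  refine sum_congr rfl fun t _ => ?_
  rw [map_mul, conj_pw, pw_inv, Complex.conj_ofReal]

lemma norm_FT_inv (s : Finset ℤ) (g : ℤ → ℝ) (v : ℝ) : ‖FT s g v⁻¹‖ = ‖FT s g v‖ := by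
  rw [← conj_FT, Complex.norm_conj]

lemma norm_FT_le (s : Finset ℤ) (g : ℤ → ℝ) (v : ℝ) : ‖FT s g v‖ ≤ ∑ t ∈ s, |g t| := by
  unfold FT
  refine (norm_sum_le _ _).trans (le_of_eq (sum_congr rfl fun t _ => ?_))
  rw [norm_mul, norm_pw, mul_one, Complex.norm_real, Real.norm_eq_abs]

lemma Icc_sub_Ioi : Set.Icc (1 / 9 : ℝ) (82 / 9) ⊆ Set.Ioi 0 := fun x hx => by
  have := hx.1
  rw [Set.mem_Ioi]
  linarith

lemma II_nonneg {f : ℝ → ℝ} (hf : ∀ v, 0 ≤ f v) : 0 ≤ II f :=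
  intervalIntegral.integral_nonneg (by norm_num) fun v _ => hf v

lemma II_mono {f g : ℝ → ℝ} (hf : ContinuousOn f (Set.Icc (1 / 9 : ℝ) (82 / 9)))
    (hg : ContinuousOn g (Set.Icc (1 / 9 : ℝ) (82 / 9)))
    (h : ∀ v ∈ Set.Icc (1 / 9 : ℝ) (82 / 9), f v ≤ g v) : II f ≤ II g :=
  intervalIntegral.integral_mono_on (by norm_num)
    (hf.intervalIntegrable_of_Icc (by norm_num)) (hg.intervalIntegrable_of_Icc (by norm_num)) h

lemma norm_DP_le (N : ℕ) (b : ℕ → ℂ) (hb : ∀ n, ‖b n‖ ≤ 1) (t : ℝ) : ‖DP N b t‖ ≤ N + 1 := by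
  unfold DP
  refine (norm_sum_le _ _).trans ?_
  have := sum_le_card_nsmul (Icc N (2 * N)) (fun n : ℕ => ‖b n * pw (n : ℝ) t‖) 1 fun n _ => by
    rw [norm_mul, norm_pw, mul_one]
    exact hb n
  rw [Nat.card_Icc, show 2 * N + 1 - N = N + 1 by omega, nsmul_eq_mul] at this
  push_cast at this
  linarith

lemma DP_add (N : ℕ) (b : ℕ → ℂ) (t₀ t : ℝ) :
    DP N b (t₀ + t) = DP N (fun n => b n * pw (n : ℝ) t₀) t := by
  unfold DP
  refine sum_congr rfl fun n _ => ?_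
  rw [pw_add, mul_assoc]

lemma Mass_nonneg (N : ℕ) (b : ℕ → ℂ) (I : Finset ℤ) (V : ℝ) : 0 ≤ Mass N b I V :=
  sum_nonneg fun _ _ => by positivity

lemma Mass_mono (N : ℕ) (b : ℕ → ℂ) {I I' : Finset ℤ} (h : I ⊆ I') (V : ℝ) :
    Mass N b I V ≤ Mass N b I' V :=
  sum_le_sum_of_subset_of_nonneg (filter_subset_filter _ h) fun _ _ _ => by positivity

end Pool.Agent.MP_2a1f0e_nt.GM
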