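import Pool.Agent.MP_2a1f0e_nt.GM.Basic

set_option autoImplicit false

open Finset

namespace Pool.Agent.MP_2a1f0e_nt.GM

lemma gram_Cub (N : ℕ) (I : Finset ℤ) (z : ℤ → ℂ) :
    ∑ t ∈ I, ∑ t' ∈ I, z t * KK N ((t : ℝ) - t') * (starRingEnd ℂ) (z t') =
      ((∑ n ∈ Icc 1 (3 * N), Wt ((n : ℝ) / N) * ‖∑ t ∈ I, z t * pw (n : ℝ) t‖ ^ 2 : ℝ) : ℂ) := by
  have h1 : ∀ n : ℕ, ((Wt ((n : ℝ) / N) * ‖∑ t ∈ I, z t * pw (n : ℝ) t‖ ^ 2 : ℝ) : ℂ) =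
      ∑ t ∈ I, ∑ t' ∈ I,
        z t * ((Wt ((n : ℝ) / N) : ℂ) * pw (n : ℝ) ((t : ℝ) - t')) * (starRingEnd ℂ) (z t') := by
    intro n
    rw [Complex.ofReal_mul, Complex.ofReal_pow, ← Complex.mul_conj', map_sum, sum_mul_sum, mul_sum]
    refine sum_congr rfl fun t _ => ?_
    rw [mul_sum]
    refine sum_congr rfl fun t' _ => ?_
    rw [pw_sub, map_mul]
    ring
  rw [Complex.ofReal_sum]
  simp only [h1]
  rw [sum_comm (s := Icc 1 (3 * N))]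
  refine sum_congr rfl fun t _ => ?_
  rw [sum_comm (s := Icc 1 (3 * N))]
  refine sum_congr rfl fun t' _ => ?_
  rw [KK, mul_sum, sum_mul]

lemma dual_Cub (N : ℕ) (hN : 1 ≤ N) (b : ℕ → ℂ) (hb : ∀ n, ‖b n‖ ≤ 1) (I : Finset ℤ)
    (z : ℤ → ℂ) : ‖∑ t ∈ I, z t * DP N b t‖ ^ 2 ≤
      2 * N * ∑ n ∈ Icc 1 (3 * N), Wt ((n : ℝ) / N) * ‖∑ t ∈ I, z t * pw (n : ℝ) t‖ ^ 2 := by
  have hN' : (1 : ℝ) ≤ N := by exact_mod_cast hN
  have h1 : ∑ t ∈ I, z t * DP N b t = ∑ n ∈ Icc N (2 * N), b n * ∑ t ∈ I, z t * pw (n : ℝ) t := by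
    simp only [DP, mul_sum]
    rw [sum_comm]
    exact sum_congr rfl fun n _ => sum_congr rfl fun t _ => by ring
  have h2 : ‖∑ t ∈ I, z t * DP N b t‖ ≤ ∑ n ∈ Icc N (2 * N), ‖∑ t ∈ I, z t * pw (n : ℝ) t‖ := by
    rw [h1]
    refine (norm_sum_le _ _).trans (sum_le_sum fun n _ => ?_)
    rw [norm_mul]
    exact mul_le_of_le_one_left (norm_nonneg _) (hb n)
  have h3 := sq_sum_le_card_mul_sum_sq (s := Icc N (2 * N))
    (f := fun n : ℕ => ‖∑ t ∈ I, z t * pw (n : ℝ) t‖)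
  have h4 : ((Icc N (2 * N)).card : ℝ) ≤ 2 * N := by
    rw [Nat.card_Icc, show 2 * N + 1 - N = N + 1 by omega]
    push_cast
    linarith
  have h5 : ∑ n ∈ Icc N (2 * N), ‖∑ t ∈ I, z t * pw (n : ℝ) t‖ ^ 2 ≤
      ∑ n ∈ Icc 1 (3 * N), Wt ((n : ℝ) / N) * ‖∑ t ∈ I, z t * pw (n : ℝ) t‖ ^ 2 := by
    calc _ = ∑ n ∈ Icc N (2 * N), Wt ((n : ℝ) / N) * ‖∑ t ∈ I, z t * pw (n : ℝ) t‖ ^ 2 := by
          refine sum_congr rfl fun n hn => ?_
          obtain ⟨k1, k2⟩ := mem_Icc.1 hn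
          have k1' : (N : ℝ) ≤ n := by exact_mod_cast k1
          have k2' : (n : ℝ) ≤ 2 * N := by exact_mod_cast k2
          rw [Wt_eq_one (by rw [le_div_iff₀ (by linarith)]; linarith)
            (by rw [div_le_iff₀ (by linarith)]; linarith), one_mul]
      _ ≤ _ := sum_le_sum_of_subset_of_nonneg (Icc_subset_Icc hN (by omega))
          fun n _ _ => mul_nonneg (Wt_nonneg _) (sq_nonneg _)
  calc _ ≤ (∑ n ∈ Icc N (2 * N), ‖∑ t ∈ I, z t * pw (n : ℝ) t‖) ^ 2 :=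
        pow_le_pow_left₀ (norm_nonneg _) h2 2
    _ ≤ _ := h3
    _ ≤ _ := mul_le_mul h4 h5 (sum_nonneg fun _ _ => sq_nonneg _) (by linarith)

lemma schur_Cub (N M : ℕ) (I : Finset ℤ) (E : ℝ) (hE : HE N M I E) (z : ℤ → ℂ) :
    ‖∑ t ∈ I, ∑ t' ∈ I,
      z t * (KK N ((t : ℝ) - t') - Kb N M ((t : ℝ) - t')) * (starRingEnd ℂ) (z t')‖ ≤
      E * ∑ t ∈ I, ‖z t‖ ^ 2 := by
  refine le_trans ?_ (schur I (fun t => ‖z t‖)
    (fun t t' => ‖KK N ((t : ℝ) - t') - Kb N M ((t : ℝ) - t')‖) (fun _ _ _ _ => norm_nonneg _)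
    (fun _ _ _ _ => norm_K1_sub _ _ _ _) E hE)
  refine (norm_sum_le _ _).trans (sum_le_sum fun t _ => ?_)
  refine (norm_sum_le _ _).trans (le_of_eq (sum_congr rfl fun t' _ => ?_))
  rw [norm_mul, norm_mul, Complex.norm_conj]
  ring

lemma key_Cub (N M : ℕ) (hN : 1 ≤ N) (b : ℕ → ℂ) (hb : ∀ n, ‖b n‖ ≤ 1) (I : Finset ℤ) (E : ℝ)
    (hE : HE N M I E) (z : ℤ → ℂ) : ‖∑ t ∈ I, z t * DP N b t‖ ^ 2 ≤
      2 * N * ((∑ t ∈ I, ∑ t' ∈ I, z t * Kb N M ((t : ℝ) - t') * (starRingEnd ℂ) (z t')).re +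
        E * ∑ t ∈ I, ‖z t‖ ^ 2) := by
  refine (dual_Cub N hN b hb I z).trans (mul_le_mul_of_nonneg_left ?_ (by positivity))
  have h1 := congrArg Complex.re (gram_Cub N I z)
  rw [Complex.ofReal_re] at h1
  rw [← h1]
  have h2 : ∑ t ∈ I, ∑ t' ∈ I, z t * KK N ((t : ℝ) - t') * (starRingEnd ℂ) (z t') =
      ∑ t ∈ I, ∑ t' ∈ I, z t * Kb N M ((t : ℝ) - t') * (starRingEnd ℂ) (z t') +
      ∑ t ∈ I, ∑ t' ∈ I,
        z t * (KK N ((t : ℝ) - t') - Kb N M ((t : ℝ) - t')) * (starRingEnd ℂ) (z t') := by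
    rw [← sum_add_distrib]
    refine sum_congr rfl fun t _ => ?_
    rw [← sum_add_distrib]
    exact sum_congr rfl fun t' _ => by ring
  rw [h2, Complex.add_re]
  exact add_le_add le_rfl ((Complex.re_le_norm _).trans (schur_Cub N M I E hE z))

theorem cub_stmt : CubStmt := by
  intro N M b I E S U X ν hN hb hE0 hS0 hE hS hν hX hU
  have hN' : (1 : ℝ) ≤ N := by exact_mod_cast hN
  have hX0 : 0 ≤ X := hX ▸ sum_nonneg fun t ht => mul_nonneg (hν t ht).1 (sq_nonneg _)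
  rcases hX0.eq_or_lt with h0 | hpos
  · rw [← h0]
    simp only [ne_eq, OfNat.ofNat_ne_zero, not_false_eq_true, zero_pow, mul_zero, zero_mul,
      add_zero]
    positivity
  -- the vectors
  set Z : ℤ → ℂ := fun s => ∑ t ∈ I, (Kb N M ((s : ℝ) - t) * ν t) * DP N b t with hZ
  set P : ℂ := ∑ s ∈ I, (ν s : ℂ) * (starRingEnd ℂ) (DP N b s) * Z s with hP
  have c1 := key_Cub N M hN b hb I E hE fun t => (ν t : ℂ) * (starRingEnd ℂ) (DP N b t)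
  have c2 : ∑ t ∈ I, (ν t : ℂ) * (starRingEnd ℂ) (DP N b t) * DP N b t = (X : ℂ) := by
    rw [hX, Complex.ofReal_sum]
    refine sum_congr rfl fun t _ => ?_
    rw [mul_assoc, Complex.conj_mul']
    push_cast
    ring
  have c3 : ∑ t ∈ I, ∑ t' ∈ I, (ν t : ℂ) * (starRingEnd ℂ) (DP N b t) * Kb N M ((t : ℝ) - t') *
      (starRingEnd ℂ) ((ν t' : ℂ) * (starRingEnd ℂ) (DP N b t')) = P := by
    refine sum_congr rfl fun t _ => ?_
    rw [hZ, mul_sum]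
    refine sum_congr rfl fun t' _ => ?_
    rw [map_mul, Complex.conj_conj, Complex.conj_ofReal]
    ring
  have c4 : ∑ t ∈ I, ‖(ν t : ℂ) * (starRingEnd ℂ) (DP N b t)‖ ^ 2 ≤ U * X := by
    rw [hX, mul_sum]
    refine sum_le_sum fun t ht => ?_
    rw [norm_mul, Complex.norm_conj, Complex.norm_real, Real.norm_eq_abs, mul_pow, sq_abs]
    have := mul_le_mul_of_nonneg_right (hν t ht).2.1
      (mul_nonneg (hν t ht).1 (sq_nonneg ‖DP N b t‖))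
    linarith
  rw [c2, c3, Complex.norm_real, Real.norm_eq_abs, sq_abs] at c1
  have c5 : X ^ 2 ≤ 4 * N * ‖P‖ := by
    have k1 := Complex.re_le_norm P
    have k2 := mul_le_mul_of_nonneg_left c4 hE0
    have k3 := mul_le_mul_of_nonneg_right hU hX0
    have k4 : X ^ 2 ≤ 2 * N * (‖P‖ + E * (U * X)) :=
      c1.trans (mul_le_mul_of_nonneg_left (add_le_add k1 k2) (by positivity))
    nlinarith
  -- Cauchy-Schwarz
  have d1 : ‖P‖ ^ 2 ≤ X * ∑ s ∈ I, ν s * ‖Z s‖ ^ 2 := by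
    have k1 : ‖P‖ ≤ ∑ s ∈ I, ν s * ‖DP N b s‖ * ‖Z s‖ := by
      refine (norm_sum_le _ _).trans (le_of_eq (sum_congr rfl fun s hs => ?_))
      rw [norm_mul, norm_mul, Complex.norm_conj, Complex.norm_real, Real.norm_eq_abs,
        abs_of_nonneg (hν s hs).1]
    refine (pow_le_pow_left₀ (norm_nonneg _) k1 2).trans ?_
    rw [hX]
    exact sum_sq_le_sum_mul_sum_of_sq_le_mul I
      (fun s hs => mul_nonneg (hν s hs).1 (sq_nonneg _))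
      (fun s hs => mul_nonneg (hν s hs).1 (sq_nonneg _)) fun s _ => le_of_eq (by ring)
  have d2 : ∀ s, ‖Z s‖ ^ 2 ≤ 2 * N * ((∑ t ∈ I, ∑ t' ∈ I, (Kb N M ((s : ℝ) - t) * ν t) *
      Kb N M ((t : ℝ) - t') * (starRingEnd ℂ) (Kb N M ((s : ℝ) - t') * ν t')).re +
        E * ∑ t ∈ I, ‖Kb N M ((s : ℝ) - t) * ν t‖ ^ 2) := fun s =>
    key_Cub N M hN b hb I E hE fun t => Kb N M ((s : ℝ) - t) * ν t
  have e1 : ∑ s ∈ I, ν s * (∑ t ∈ I, ∑ t' ∈ I, (Kb N M ((s : ℝ) - t) * ν t) *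
      Kb N M ((t : ℝ) - t') * (starRingEnd ℂ) (Kb N M ((s : ℝ) - t') * ν t')).re =
      (Q3 N M I ν).re := by
    rw [Q3, Complex.re_sum]
    refine sum_congr rfl fun s _ => ?_
    rw [← Complex.re_ofReal_mul, mul_sum]
    congr 1
    refine sum_congr rfl fun t _ => ?_
    rw [mul_sum]
    refine sum_congr rfl fun t' _ => ?_
    rw [map_mul, conj_Kb, Complex.conj_ofReal, neg_sub]
    push_cast
    ring
  have e2 : ∑ s ∈ I, ν s * ∑ t ∈ I, ‖Kb N M ((s : ℝ) - t) * ν t‖ ^ 2 ≤ X * S := by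
    simp only [mul_sum]
    rw [sum_comm, hX, sum_mul]
    refine sum_le_sum fun t ht => ?_
    calc ∑ s ∈ I, ν s * ‖Kb N M ((s : ℝ) - t) * ν t‖ ^ 2
        ≤ ∑ s ∈ I, ν t ^ 2 * (‖DP N b s‖ ^ 2 * ‖Kb N M ((t : ℝ) - s)‖ ^ 2) := by
          refine sum_le_sum fun s hs => ?_
          rw [norm_mul, Complex.norm_real, Real.norm_eq_abs, mul_pow, sq_abs, norm_Kb_sub]
          have := mul_le_mul_of_nonneg_right (hν s hs).2.2
            (mul_nonneg (sq_nonneg ‖Kb N M ((t : ℝ) - s)‖) (sq_nonneg (ν t)))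
          linarith
      _ ≤ ν t ^ 2 * S := by
          rw [← mul_sum]
          exact mul_le_mul_of_nonneg_left (hS t ht) (sq_nonneg _)
      _ ≤ ν t * ‖DP N b t‖ ^ 2 * S := by
          refine mul_le_mul_of_nonneg_right ?_ hS0
          rw [sq]
          exact mul_le_mul_of_nonneg_left (hν t ht).2.2 (hν t ht).1
  have e3 : ∑ s ∈ I, ν s * ‖Z s‖ ^ 2 ≤ 2 * N * (‖Q3 N M I ν‖ + E * X * S) := by
    calc _ ≤ ∑ s ∈ I, ν s * (2 * N * ((∑ t ∈ I, ∑ t' ∈ I, (Kb N M ((s : ℝ) - t) * ν t) *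
          Kb N M ((t : ℝ) - t') * (starRingEnd ℂ) (Kb N M ((s : ℝ) - t') * ν t')).re +
            E * ∑ t ∈ I, ‖Kb N M ((s : ℝ) - t) * ν t‖ ^ 2)) :=
          sum_le_sum fun s hs => mul_le_mul_of_nonneg_left (d2 s) (hν s hs).1
      _ = 2 * N * ((Q3 N M I ν).re +
            E * ∑ s ∈ I, ν s * ∑ t ∈ I, ‖Kb N M ((s : ℝ) - t) * ν t‖ ^ 2) := by
          rw [← e1, mul_sum (s := I) (a := E), ← sum_add_distrib, mul_sum]
          exact sum_congr rfl fun s _ => by ring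
      _ ≤ _ := by
          refine mul_le_mul_of_nonneg_left (add_le_add (Complex.re_le_norm _) ?_) (by positivity)
          rw [mul_assoc]
          exact mul_le_mul_of_nonneg_left e2 hE0
  have f1 : X * X ^ 3 ≤ X * (32 * (N : ℝ) ^ 3 * (‖Q3 N M I ν‖ + E * X * S)) := by
    calc X * X ^ 3 = (X ^ 2) ^ 2 := by ring
      _ ≤ (4 * N * ‖P‖) ^ 2 := pow_le_pow_left₀ (sq_nonneg _) c5 2
      _ = 16 * (N : ℝ) ^ 2 * ‖P‖ ^ 2 := by ring
      _ ≤ 16 * (N : ℝ) ^ 2 * (X * (2 * N * (‖Q3 N M I ν‖ + E * X * S))) :=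
          mul_le_mul_of_nonneg_left (d1.trans (mul_le_mul_of_nonneg_left e3 hX0)) (by positivity)
      _ = _ := by ring
  exact le_of_mul_le_mul_left f1 hpos

end Pool.Agent.MP_2a1f0e_nt.GM
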