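import Pool.Agent.MP_2a1f0e_nt.GM.Basic

set_option autoImplicit false

open Finset

namespace Pool.Agent.MP_2a1f0e_nt.GM

open MeasureTheory

/-- smooth, compactly supported away from zero -/
structure Cl_Decay (φ : ℝ → ℝ) : Prop where
  sm : ContDiff ℝ (⊤ : ℕ∞) φ
  cs : HasCompactSupport φ
  nz : (0 : ℝ) ∉ tsupport φ

/-- the integrand -/
noncomputable def G_Decay (φ : ℝ → ℝ) (u ξ x : ℝ) : ℂ := (φ x : ℂ) * pw x u * ex (-(ξ * x))

lemma Cl_Decay.ev {φ : ℝ → ℝ} (h : Cl_Decay φ) : φ =ᶠ[nhds 0] 0 :=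
  notMem_tsupport_iff_eventuallyEq.1 h.nz

lemma Cl_Decay.zero {φ : ℝ → ℝ} (h : Cl_Decay φ) : φ 0 = 0 := h.ev.eq_of_nhds

lemma Cl_Decay.der {φ : ℝ → ℝ} (h : Cl_Decay φ) : Cl_Decay (deriv φ) :=
  ⟨(contDiff_infty_iff_deriv.1 h.sm).2, h.cs.deriv, fun h0 => h.nz (tsupport_deriv_subset h0)⟩

lemma Cl_Decay.quo {φ : ℝ → ℝ} (h : Cl_Decay φ) : Cl_Decay fun x => φ x * x⁻¹ := by
  refine ⟨contDiff_iff_contDiffAt.2 fun x => ?_, h.cs.mul_right, fun h0 => h.nz
    (tsupport_mul_subset_left h0)⟩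
  by_cases hx : x = 0
  · subst hx
    refine (contDiffAt_const (c := (0 : ℝ))).congr_of_eventuallyEq ?_
    filter_upwards [h.ev] with y hy
    rw [hy, Pi.zero_apply, zero_mul]
  · exact h.sm.contDiffAt.mul (contDiffAt_inv ℝ hx)

lemma Cl_Decay.mul {φ : ℝ → ℝ} (h : Cl_Decay φ) : Cl_Decay fun x => φ x * x :=
  ⟨h.sm.mul contDiff_id, h.cs.mul_right, fun h0 => h.nz (tsupport_mul_subset_left h0)⟩

lemma cl_Wt_Decay : Cl_Decay Wt :=
  ⟨contDiff_Wt, hasCompactSupport_Wt, fun h => by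
    have := (tsupport_Wt h).1
    norm_num at this⟩

lemma norm_G_Decay (φ : ℝ → ℝ) (u ξ x : ℝ) : ‖G_Decay φ u ξ x‖ = ‖φ x‖ := by
  rw [G_Decay, norm_mul, norm_mul, norm_pw, norm_ex, mul_one, mul_one, Complex.norm_real]

lemma Cl_Decay.int {φ : ℝ → ℝ} (h : Cl_Decay φ) : Integrable φ :=
  h.sm.continuous.integrable_of_hasCompactSupport h.cs

lemma Cl_Decay.intG {φ : ℝ → ℝ} (h : Cl_Decay φ) (u ξ : ℝ) : Integrable (G_Decay φ u ξ) := by
  refine Integrable.mono' h.int.norm ?_ (Filter.Eventually.of_forall fun x =>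
    (norm_G_Decay φ u ξ x).le)
  refine Measurable.aestronglyMeasurable ?_
  exact ((Complex.continuous_ofReal.comp h.sm.continuous).measurable.mul (measurable_pw u)).mul
    (continuous_ex.comp (continuous_const.mul continuous_id).neg).measurable

lemma bound_Decay (φ : ℝ → ℝ) :
    ∃ C : ℝ, 0 < C ∧ ∀ u ξ : ℝ, ‖∫ x, G_Decay φ u ξ x‖ ≤ C := by
  have h0 : 0 ≤ ∫ x, ‖φ x‖ := integral_nonneg fun x => norm_nonneg _
  refine ⟨(∫ x, ‖φ x‖) + 1, by linarith, fun u ξ => ?_⟩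
  refine (norm_integral_le_integral_norm _).trans ?_
  simp only [norm_G_Decay]
  linarith

lemma Cl_Decay.hasDerivAt {φ : ℝ → ℝ} (h : Cl_Decay φ) (u ξ x : ℝ) :
    HasDerivAt (G_Decay φ u ξ) (G_Decay (deriv φ) u ξ x +
      Complex.I * u * G_Decay (fun x => φ x * x⁻¹) u ξ x -
      2 * Real.pi * Complex.I * ξ * G_Decay φ u ξ x) x := by
  by_cases hx : x = 0
  · subst hx
    have e : G_Decay (deriv φ) u ξ 0 + Complex.I * u * G_Decay (fun x => φ x * x⁻¹) u ξ 0 -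
        2 * Real.pi * Complex.I * ξ * G_Decay φ u ξ 0 = 0 := by
      simp [G_Decay, h.zero, h.der.zero]
    rw [e]
    refine (hasDerivAt_const (0 : ℝ) (0 : ℂ)).congr_of_eventuallyEq ?_
    filter_upwards [h.ev] with y hy
    simp [G_Decay, hy]
  · have h1 : HasDerivAt (fun x => (φ x : ℂ)) ((deriv φ x : ℝ) : ℂ) x :=
      ((h.sm.differentiable (by simp)) x).hasDerivAt.ofReal_comp
    have h2 := (h1.mul (hasDerivAt_pw hx u)).mul (hasDerivAt_ex (-ξ) x)
    have e : G_Decay φ u ξ = ((fun x => (φ x : ℂ)) * fun x => pw x u) * fun x => ex (-ξ * x) := by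
      funext y
      simp only [G_Decay, Pi.mul_apply, neg_mul]
    rw [e]
    refine h2.congr_deriv ?_
    simp only [G_Decay, Pi.mul_apply, neg_mul]
    push_cast
    ring

lemma Cl_Decay.ibp {φ : ℝ → ℝ} (h : Cl_Decay φ) (u ξ : ℝ) :
    2 * Real.pi * Complex.I * ξ * ∫ x, G_Decay φ u ξ x = (∫ x, G_Decay (deriv φ) u ξ x) +
      Complex.I * u * ∫ x, G_Decay (fun x => φ x * x⁻¹) u ξ x := by
  have i1 := h.der.intG u ξ
  have i2 := (h.quo.intG u ξ).const_mul (Complex.I * u)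
  have i3 := (h.intG u ξ).const_mul (2 * Real.pi * Complex.I * ξ)
  have i4 : Integrable fun x => G_Decay (deriv φ) u ξ x +
      Complex.I * u * G_Decay (fun x => φ x * x⁻¹) u ξ x := i1.add i2
  have h0 := integral_eq_zero_of_hasDerivAt_of_integrable (h.hasDerivAt u ξ)
    (i4.sub i3) (h.intG u ξ)
  rw [integral_sub i4 i3, integral_add i1 i2, integral_const_mul, integral_const_mul,
    sub_eq_zero] at h0
  exact h0.symm

lemma decay_Decay (j : ℕ) : ∀ φ : ℝ → ℝ, Cl_Decay φ → ∃ C : ℝ, 0 < C ∧ ∀ u ξ : ℝ, ξ ≠ 0 →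
    ‖∫ x, G_Decay φ u ξ x‖ ≤ C * ((1 + |u|) / |ξ|) ^ j := by
  induction j with
  | zero =>
    intro φ _
    obtain ⟨C, hC, h1⟩ := bound_Decay φ
    exact ⟨C, hC, fun u ξ _ => by simpa using h1 u ξ⟩
  | succ j ih =>
    intro φ h
    obtain ⟨C₁, hC₁, h1⟩ := ih _ h.der
    obtain ⟨C₂, hC₂, h2⟩ := ih _ h.quo
    refine ⟨C₁ + C₂, by positivity, fun u ξ hξ => ?_⟩
    have hξ' : 0 < |ξ| := abs_pos.2 hξ
    have h3 := congrArg norm (h.ibp u ξ)
    have h4 := norm_add_le (∫ x, G_Decay (deriv φ) u ξ x)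
      (Complex.I * u * ∫ x, G_Decay (fun x => φ x * x⁻¹) u ξ x)
    rw [← h3] at h4
    simp only [norm_mul, Complex.norm_I, Complex.norm_real, Real.norm_eq_abs, mul_one, one_mul,
      Complex.norm_ofNat, abs_of_pos Real.pi_pos] at h4
    have h5 := h1 u ξ hξ
    have h6 := mul_le_mul_of_nonneg_left (h2 u ξ hξ) (abs_nonneg u)
    have hq : 0 ≤ ((1 + |u|) / |ξ|) ^ j := by positivity
    have hu := abs_nonneg u
    have hn := norm_nonneg (∫ x, G_Decay φ u ξ x)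
    generalize ‖∫ x, G_Decay φ u ξ x‖ = a at h4 hn ⊢
    rw [pow_succ]
    generalize ((1 + |u|) / |ξ|) ^ j = q at h5 h6 hq ⊢
    rw [← mul_div_assoc, ← mul_div_assoc, le_div_iff₀ hξ']
    have h7 : a * |ξ| ≤ 2 * Real.pi * |ξ| * a := by
      have := Real.pi_gt_three
      have h8 : 0 ≤ a * |ξ| := by positivity
      nlinarith
    have h9 : 0 ≤ C₁ * q * |u| := by positivity
    have h10 : 0 ≤ C₂ * q := by positivity
    nlinarith

lemma Cl_Decay.step {φ : ℝ → ℝ} (h : Cl_Decay φ) (u : ℝ) :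
    (1 + Complex.I * u) * ∫ x, G_Decay φ u 0 x =
      -∫ x, G_Decay (fun x => deriv φ x * x) u 0 x := by
  have h1 := h.mul.ibp u 0
  have e1 : (fun x => φ x * x * x⁻¹) = φ := by
    funext x
    by_cases hx : x = 0
    · rw [hx, h.zero, zero_mul, zero_mul]
    · rw [mul_assoc, mul_inv_cancel₀ hx, mul_one]
  have e2 : G_Decay (deriv fun x => φ x * x) u 0 =
      fun x => G_Decay (fun x => deriv φ x * x) u 0 x + G_Decay φ u 0 x := by
    funext x
    have h2 : deriv (fun x => φ x * x) x = deriv φ x * x + φ x * 1 :=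
      (((h.sm.differentiable (by simp)) x).hasDerivAt.mul (hasDerivAt_id x)).deriv
    simp only [G_Decay, h2]
    push_cast
    ring
  rw [e1, e2, integral_add (h.der.mul.intG u 0) (h.intG u 0)] at h1
  simp only [Complex.ofReal_zero, mul_zero, zero_mul] at h1
  linear_combination -h1

theorem decay_stmt : DecayStmt := fun j => decay_Decay j Wt cl_Wt_Decay

theorem zero_stmt : ZeroStmt := by
  have h1 := cl_Wt_Decay
  have h2 := h1.der.mul
  obtain ⟨C, hC, h3⟩ := bound_Decay fun x => deriv (fun x => deriv Wt x * x) x * x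
  refine ⟨C, hC, fun u => ?_⟩
  have e : (1 + Complex.I * u) ^ 2 * HH u 0 =
      ∫ x, G_Decay (fun x => deriv (fun x => deriv Wt x * x) x * x) u 0 x := by
    have e0 : HH u 0 = ∫ x, G_Decay Wt u 0 x := rfl
    have e1 := h1.step u
    have e2 := h2.step u
    rw [e0]
    linear_combination (1 + Complex.I * u) * e1 - e2
  have e3 : ‖(1 + Complex.I * u) ^ 2‖ = 1 + u ^ 2 := by
    rw [norm_pow, Complex.sq_norm, Complex.normSq_apply]
    simp
    ring
  have h4 := h3 u 0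
  rw [← e, norm_mul, e3] at h4
  rw [kp, mul_one_div, le_div_iff₀ (by positivity), mul_comm]
  exact h4

end Pool.Agent.MP_2a1f0e_nt.GM
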