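import Pool.Agent.MP_2a1f0e_nt.Windows
import Pool.Agent.MP_2a1f0e_nt.Div

set_option autoImplicit false

open Finset

namespace Pool.Agent.MP_2a1f0e_nt.GM

/-- `x ^ (i u)`. -/
noncomputable def pw (x u : ℝ) : ℂ :=
  Complex.exp (Complex.I * (u : ℂ) * ((Real.log x : ℝ) : ℂ))

/-- the Dirichlet polynomial -/
noncomputable def DP (N : ℕ) (b : ℕ → ℂ) (t : ℝ) : ℂ :=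
  ∑ n ∈ Icc N (2 * N), b n * pw (n : ℝ) t

noncomputable def bump : ContDiffBump (3 / 2 : ℝ) := ⟨1 / 2, 3 / 4, by norm_num, by norm_num⟩

/-- smooth weight, `1` on `[1,2]`, `0` outside `(3/4, 9/4)` -/
noncomputable def Wt (x : ℝ) : ℝ := bump x

noncomputable def HH (u ξ : ℝ) : ℂ := ∫ x : ℝ, (Wt x : ℂ) * pw x u * ex (-(ξ * x))

noncomputable def KK (N : ℕ) (u : ℝ) : ℂ :=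
  ∑ n ∈ Icc 1 (3 * N), (Wt ((n : ℝ) / N) : ℂ) * pw (n : ℝ) u

noncomputable def Ms (M : ℕ) : Finset ℤ := (Icc (-(M : ℤ)) M).erase 0

noncomputable def Kb (N M : ℕ) (u : ℝ) : ℂ :=
  (N : ℂ) * pw (N : ℝ) u * ∑ m ∈ Ms M, HH u ((m : ℝ) * N)

/-- two-shift Fejer majorant -/
noncomputable def Ph (J : ℕ) (y : ℝ) : ℝ :=
  (‖gs J y‖ ^ 2 + ‖gs J (y + 1 / (2 * J))‖ ^ 2) / (J : ℝ) ^ 2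

noncomputable def cf (J : ℕ) (l : ℤ) : ℂ :=
  ((((J : ℝ) - |(l : ℝ)|) / (J : ℝ) ^ 2 : ℝ) : ℂ) * (1 + ex ((l : ℝ) / (2 * J)))

noncomputable def rho (N M : ℕ) (v : ℝ) : ℝ := ∑ m ∈ Ms M, Ph N ((m : ℝ) * v)

noncomputable def rho2 (N M : ℕ) (v w : ℝ) : ℝ :=
  ∑ m ∈ Ms M, ∑ m' ∈ Ms M, Ph N ((m : ℝ) * v + (m' : ℝ) * w)

noncomputable def kp3 (N M : ℕ) (v w : ℝ) : ℝ :=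
  ∑ m₁ ∈ Ms M, ∑ m₂ ∈ Ms M, ∑ m₃ ∈ Ms M,
    kp ((N : ℝ) * ((m₁ : ℝ) * v + (m₂ : ℝ) * w + (m₃ : ℝ)))

noncomputable def FT (s : Finset ℤ) (g : ℤ → ℝ) (v : ℝ) : ℂ :=
  ∑ t ∈ s, (g t : ℂ) * pw v (t : ℝ)

/-- integral over `[1/9, 82/9]`, an interval of length `9` -/
noncomputable def II (f : ℝ → ℝ) : ℝ := ∫ v in (1 / 9 : ℝ)..(82 / 9), f v

noncomputable def Pair (N M : ℕ) (g h : ℝ → ℝ) : ℝ :=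
  II fun v => II fun w => g v * h w * rho2 N M v w

/-- the cubic trace -/
noncomputable def Q3 (N M : ℕ) (s : Finset ℤ) (ν : ℤ → ℝ) : ℂ :=
  ∑ a ∈ s, ∑ b ∈ s, ∑ c ∈ s, ((ν a * ν b * ν c : ℝ) : ℂ) *
    (Kb N M ((a : ℝ) - b) * Kb N M ((b : ℝ) - c) * Kb N M ((c : ℝ) - a))

/-- the triple integral that bounds the cubic trace -/
noncomputable def Tri (N M : ℕ) (φ : ℝ → ℝ) : ℝ :=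
  ∫ v in (1 / 3 : ℝ)..3, ∫ w in (1 / 3 : ℝ)..3, φ v * φ (w / v) * φ w * kp3 N M v w

/-- divisor bound up to `X` -/
def DivB (X : ℕ) (Δ : ℝ) : Prop := 1 ≤ Δ ∧ ∀ n : ℕ, n ≤ X → (n.divisors.card : ℝ) ≤ Δ

/-- Schur bound for `KK - Kb` on `I` -/
def HE (N M : ℕ) (I : Finset ℤ) (E : ℝ) : Prop :=
  ∀ s ∈ I, ∑ t ∈ I, ‖KK N ((s : ℝ) - t) - Kb N M ((s : ℝ) - t)‖ ≤ E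

/-- majorised second moment of `Kb` on `I` -/
def HS (N M : ℕ) (b : ℕ → ℂ) (I : Finset ℤ) (S : ℝ) : Prop :=
  ∀ s ∈ I, ∑ t ∈ I, ‖DP N b t‖ ^ 2 * ‖Kb N M ((s : ℝ) - t)‖ ^ 2 ≤ S

/-- mass of `|D|^2` above level `V` on `I` -/
noncomputable def Mass (N : ℕ) (b : ℕ → ℂ) (I : Finset ℤ) (V : ℝ) : ℝ :=
  ∑ t ∈ I.filter (fun t : ℤ => V ≤ ‖DP N b t‖), ‖DP N b t‖ ^ 2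

def DecayStmt : Prop := ∀ j : ℕ, ∃ C : ℝ, 0 < C ∧ ∀ u ξ : ℝ, ξ ≠ 0 →
  ‖HH u ξ‖ ≤ C * ((1 + |u|) / |ξ|) ^ j

def ZeroStmt : Prop := ∃ C : ℝ, 0 < C ∧ ∀ u : ℝ, ‖HH u 0‖ ≤ C * kp u

def PoisStmt : Prop := ∀ N : ℕ, 1 ≤ N → ∀ u : ℝ,
  HasSum (fun m : ℤ => (N : ℂ) * pw (N : ℝ) u * HH u ((m : ℝ) * N)) (KK N u)

def K1Stmt : Prop := ∀ δ : ℝ, 0 < δ → ∃ E : ℝ, 0 < E ∧ ∀ N M L : ℕ, 1 ≤ N → 1 ≤ L →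
  L ≤ 4 * N ^ 2 → 2 * (L : ℝ) * (N : ℝ) ^ δ ≤ (N : ℝ) * M →
  ∑ u ∈ Icc (-(L : ℤ)) L, ‖KK N (u : ℝ) - Kb N M (u : ℝ)‖ ≤ E * N

def RadStmt : Prop := ∃ C : ℝ, 0 < C ∧ ∀ v w η : ℝ, v ∈ Set.Icc (1 / 3 : ℝ) 3 →
  w ∈ Set.Icc (1 / 3 : ℝ) 3 →
  ‖∫ r : ℝ, ((r * Wt r * Wt (r * v) : ℝ) : ℂ) * ex (-(η * r))‖ ≤ C * kp η ∧
  ‖∫ r : ℝ, ((r ^ 2 * Wt r * Wt (r * v) * Wt (r * w) : ℝ) : ℂ) * ex (-(η * r))‖ ≤ C * kp η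

def TriangStmt : Prop := ∀ (L : ℕ) (x : ℝ),
  ∑ u ∈ Ioo (-(L : ℤ)) L, ((((L : ℝ) - |(u : ℝ)|) : ℝ) : ℂ) * ex ((u : ℝ) * x) =
    ((‖gs L x‖ ^ 2 : ℝ) : ℂ)

def PhExpStmt : Prop := ∀ J : ℕ, 1 ≤ J →
  (∀ y : ℝ, (Ph J y : ℂ) = ∑ l ∈ Ioo (-(J : ℤ)) J, cf J l * ex ((l : ℝ) * y)) ∧
  ∀ l ∈ Ioo (-(J : ℤ)) J, ‖cf J l‖ ≤ 2 / J

def PhMajStmt : Prop := ∃ C : ℝ, 0 < C ∧ ∀ J : ℕ, 1 ≤ J → ∀ (y : ℝ) (s : Finset ℤ),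
  ∑ a ∈ s, kp ((J : ℝ) * (y + a)) ≤ C * Ph J y

def BesStmt : Prop := ∀ g : ℝ → ℝ, ContinuousOn g (Set.Icc (1 / 9 : ℝ) (82 / 9)) →
  ∀ s : Finset ℤ,
    ∑ ξ ∈ s, ‖∫ v in (1 / 9 : ℝ)..(82 / 9), (g v : ℂ) * ex ((ξ : ℝ) * v)‖ ^ 2 ≤
      9 * II (fun v => g v ^ 2)

def DivStmt : Prop := ∀ (N M : ℕ) (Δ : ℝ), DivB (N * M) Δ → ∀ a : ℤ → ℂ,
  ∑ l ∈ (Ioo (-(N : ℤ)) N).erase 0, ‖∑ m ∈ Ms M, a (l * m)‖ ^ 2 ≤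
    4 * M * Δ * ∑ ξ ∈ Icc (-((N * M : ℕ) : ℤ)) ((N * M : ℕ) : ℤ), ‖a ξ‖ ^ 2

def PairStmt : Prop := ∃ C : ℝ, 0 < C ∧ ∀ (N M : ℕ) (Δ : ℝ), 1 ≤ N → DivB (N * M) Δ →
  ∀ g h : ℝ → ℝ, ContinuousOn g (Set.Icc (1 / 9 : ℝ) (82 / 9)) →
    ContinuousOn h (Set.Icc (1 / 9 : ℝ) (82 / 9)) → (∀ v, 0 ≤ g v) → (∀ v, 0 ≤ h v) →
    Pair N M g h ≤ C * ((M : ℝ) ^ 2 / N * II g * II h +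
      M * Δ / N * √(II fun v => g v ^ 2) * √(II fun v => h v ^ 2))

def RhoStmt : Prop := ∃ C : ℝ, 0 < C ∧ ∀ (N M : ℕ) (Δ : ℝ), 1 ≤ N → DivB (N * M) Δ →
  II (rho N M) ≤ C * (M / N) ∧
  II (fun v => rho N M v ^ 2) ≤ C * ((M : ℝ) ^ 2 / (N : ℝ) ^ 2 + M * Δ / N)

def PtStmt : Prop := ∃ C : ℝ, 0 < C ∧ ∀ N M L : ℕ, 1 ≤ N → N ≤ L → L ≤ N * M →
  ∀ b : ℕ → ℂ, (∀ n, ‖b n‖ ≤ 1) → ∀ (t₀ : ℤ) (v : ℝ), v ∈ Set.Icc (1 / 9 : ℝ) (82 / 9) →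
    ‖FT (Ioo (-(L : ℤ)) L)
        (fun u => ((L : ℝ) - |(u : ℝ)|) / L * ‖DP N b ((t₀ + u : ℤ) : ℝ)‖ ^ 2) v‖ ≤
      C * (N : ℝ) ^ 2 * (1 + rho N M v)

def ParStmt : Prop := ∀ (s : Finset ℤ) (g : ℤ → ℝ),
  II (fun v => ‖FT s g v‖ ^ 2) ≤ 60 * ∑ t ∈ s, g t ^ 2

def TwoStmt : Prop := ∃ C : ℝ, 0 < C ∧ ∀ N M : ℕ, 1 ≤ N → ∀ (s : Finset ℤ) (g : ℤ → ℝ),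
  ∑ u ∈ s, g u * ‖Kb N M (u : ℝ)‖ ^ 2 ≤
    C * (N : ℝ) ^ 2 * II (fun v => ‖FT s g v‖ * rho N M v)

def ThreeStmt : Prop := ∃ C : ℝ, 0 < C ∧ ∀ N M : ℕ, 1 ≤ N → ∀ (s : Finset ℤ) (ν : ℤ → ℝ),
  ‖Q3 N M s ν‖ ≤ C * (N : ℝ) ^ 3 * Tri N M (fun v => ‖FT s ν v‖)

def SymStmt : Prop := ∃ C : ℝ, 0 < C ∧ ∀ N M : ℕ, 1 ≤ N → ∀ φ : ℝ → ℝ,
  ContinuousOn φ (Set.Ioi 0) → (∀ v, 0 ≤ φ v) → (∀ v, φ v⁻¹ = φ v) →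
  Tri N M φ ≤ C * Pair N M φ (fun v => φ v ^ 2)

def HuxStmt : Prop := ∀ (N M : ℕ) (b : ℕ → ℂ) (I : Finset ℤ) (E S V : ℝ), 1 ≤ N →
  (∀ n, ‖b n‖ ≤ 1) → 0 ≤ E → 0 ≤ S → 0 < V → HE N M I E → HS N M b I S →
  Mass N b I V ≤ 4 * N * E + 4 * (N : ℝ) ^ 2 * S / V ^ 4

def CubStmt : Prop := ∀ (N M : ℕ) (b : ℕ → ℂ) (I : Finset ℤ) (E S U X : ℝ) (ν : ℤ → ℝ),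
  1 ≤ N → (∀ n, ‖b n‖ ≤ 1) → 0 ≤ E → 0 ≤ S → HE N M I E → HS N M b I S →
  (∀ t ∈ I, 0 ≤ ν t ∧ ν t ≤ U ∧ ν t ≤ ‖DP N b t‖ ^ 2) →
  X = ∑ t ∈ I, ν t * ‖DP N b t‖ ^ 2 → 4 * N * E * U ≤ X →
  X ^ 3 ≤ 32 * (N : ℝ) ^ 3 * (‖Q3 N M I ν‖ + E * X * S)

def SStmt : Prop := ∃ C : ℝ, 0 < C ∧ ∀ (N M T : ℕ) (Δ : ℝ), 1 ≤ N → N ≤ T → 8 * T ≤ N * M →
  DivB (N * M) Δ → ∀ b : ℕ → ℂ, (∀ n, ‖b n‖ ≤ 1) →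
    HS N M b (Ioo (-(2 * T : ℤ)) (2 * T))
      (C * (N : ℝ) ^ 4 * ((M : ℝ) ^ 2 / (N : ℝ) ^ 2 + M * Δ / N))

def SetupStmt : Prop := ∀ δ : ℝ, 0 < δ → ∃ C : ℝ, 1 ≤ C ∧ ∀ N T : ℕ, 1 ≤ N → N ≤ T →
  T ≤ N ^ 2 → ∃ (M : ℕ) (Δ : ℝ), 8 * T ≤ N * M ∧ (M : ℝ) ≤ C * (N : ℝ) ^ δ * (T / N) ∧
    DivB (N * M) Δ ∧ Δ ≤ C * (N : ℝ) ^ δ ∧
    HE N M (Ioo (-(2 * T : ℤ)) (2 * T)) (C * N) ∧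
    ∀ b : ℕ → ℂ, (∀ n, ‖b n‖ ≤ 1) →
      HS N M b (Ioo (-(2 * T : ℤ)) (2 * T)) (C * (N : ℝ) ^ δ * (T * (N : ℝ) ^ 2))

def QStmt : Prop := ∃ C : ℝ, 0 < C ∧ ∀ (N M : ℕ) (Δ B X : ℝ) (s : Finset ℤ) (ν : ℤ → ℝ),
  1 ≤ N → DivB (N * M) Δ → 0 ≤ B → 1 ≤ M →
  (∀ v ∈ Set.Icc (1 / 9 : ℝ) (82 / 9), ‖FT s ν v‖ ≤ B * (1 + rho N M v)) →
  ∑ t ∈ s, ν t ^ 2 ≤ X →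
  ‖Q3 N M s ν‖ ≤ C * (N : ℝ) ^ 2 * ((M : ℝ) ^ 2 * (X * √X) + M * Δ * B * X +
    (M : ℝ) ^ 2 * Δ * B ^ 2 * √X * √((M : ℝ) ^ 2 / (N : ℝ) ^ 2 + M * Δ / N))

/-- numerical core of the cubic step -/
def NumStmt : Prop := ∀ δ C : ℝ, 0 < δ → 1 ≤ C → ∃ K : ℝ, 0 < K ∧
  ∀ (N T M : ℕ) (Δ B X : ℝ), 1 ≤ N → N ≤ T → T ^ 5 ≤ N ^ 6 →
    (M : ℝ) ≤ C * (N : ℝ) ^ δ * (T / N) → 1 ≤ Δ → Δ ≤ C * (N : ℝ) ^ δ → 0 ≤ B →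
    B ≤ C * (N : ℝ) ^ δ * (N : ℝ) ^ 2 → 0 ≤ X →
    X ^ 3 ≤ C * (N : ℝ) ^ 3 * ((N : ℝ) ^ 2 * ((M : ℝ) ^ 2 * (X * √X) + M * Δ * B * X +
      (M : ℝ) ^ 2 * Δ * B ^ 2 * √X * √((M : ℝ) ^ 2 / (N : ℝ) ^ 2 + M * Δ / N)) +
      (N : ℝ) ^ δ * (T * (N : ℝ) ^ 3) * X) →
    X ≤ K * (N : ℝ) ^ (6 * δ) * (√T * (N : ℝ) ^ 3)

def B2Stmt : Prop := ∀ ε : ℝ, 0 < ε → ∃ K : ℝ, 0 < K ∧ ∀ N T : ℕ, 1 ≤ N → N ≤ T →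
  T ≤ N ^ 2 → ∀ b : ℕ → ℂ, (∀ n, ‖b n‖ ≤ 1) → ∀ V : ℝ, 0 < V →
    Mass N b (Icc 0 (T : ℤ)) V ≤ K * (N : ℝ) ^ ε * ((N : ℝ) ^ 2 + T * (N : ℝ) ^ 4 / V ^ 4)

def B1Stmt : Prop := ∀ ε : ℝ, 0 < ε → ∃ K : ℝ, 0 < K ∧ ∀ N T : ℕ, 1 ≤ N → N ≤ T →
  T ^ 5 ≤ N ^ 6 → ∀ b : ℕ → ℂ, (∀ n, ‖b n‖ ≤ 1) → ∀ V : ℝ, 0 < V →
    Mass N b (Icc 0 (T : ℤ)) V ≤ K * (N : ℝ) ^ ε * ((N : ℝ) ^ 2 + √T * (N : ℝ) ^ 3 / V ^ 2)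

/-- subdivision into blocks -/
def BlkStmt : Prop := ∀ (N T T₁ : ℕ) (V Z : ℝ), 1 ≤ N → 1 ≤ T₁ →
  (∀ b : ℕ → ℂ, (∀ n, ‖b n‖ ≤ 1) → Mass N b (Icc 0 (T₁ : ℤ)) V ≤ Z) →
  ∀ b : ℕ → ℂ, (∀ n, ‖b n‖ ≤ 1) → Mass N b (Icc 0 (T : ℤ)) V ≤ ((T : ℝ) / T₁ + 1) * Z

def IntStmt : Prop := ∀ ε : ℝ, 0 < ε → ∃ K : ℝ, 0 < K ∧ ∀ N T : ℕ, 1 ≤ N → N ≤ T →
  ∀ b : ℕ → ℂ, (∀ n, ‖b n‖ ≤ 1) → ∀ V : ℝ, 0 < V →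
    Mass N b (Icc 0 (T : ℤ)) V ≤ K * (N : ℝ) ^ ε *
      ((N : ℝ) ^ 2 + (√T * (N : ℝ) ^ 3 + T * (N : ℝ) ^ (12 / 5 : ℝ)) / V ^ 2)

/-- transfer from integer points to 1-separated real points -/
def TayStmt : Prop := ∀ (N T : ℕ) (V Z : ℝ), 1 ≤ N → 0 < V →
  (∀ b : ℕ → ℂ, (∀ n, ‖b n‖ ≤ 1) → Mass N b (Icc 0 (T : ℤ)) (V / 6) ≤ Z) →
  ∀ b : ℕ → ℂ, (∀ n, ‖b n‖ ≤ 1) → ∀ W : Finset ℝ, (∀ t ∈ W, 0 ≤ t ∧ t < T + 1) →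
    (∀ s ∈ W, ∀ t ∈ W, s ≠ t → 1 ≤ |s - t|) → (∀ t ∈ W, V ≤ ‖DP N b t‖) →
    ∑ t ∈ W, ‖DP N b t‖ ^ 2 ≤ 36 * Z

def FinalStmt : Prop := ∀ ε : ℝ, 0 < ε → ∃ K : ℝ, ∀ (N : ℕ) (T V : ℝ), 1 ≤ N → (N : ℝ) ≤ T →
  0 < V → ∀ b : ℕ → ℂ, (∀ n, ‖b n‖ ≤ 1) → ∀ W : Finset ℝ, (∀ t ∈ W, 0 ≤ t ∧ t ≤ T) →
    (∀ s ∈ W, ∀ t ∈ W, s ≠ t → 1 ≤ |s - t|) → (∀ t ∈ W, V ≤ ‖DP N b t‖) →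
    (W.card : ℝ) ≤ K * (N : ℝ) ^ ε * ((N : ℝ) ^ 2 / V ^ 2 + √T * (N : ℝ) ^ 3 / V ^ 4 +
      T * (N : ℝ) ^ (12 / 5 : ℝ) / V ^ 4)

end Pool.Agent.MP_2a1f0e_nt.GM
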