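import Pool.Agent.MP_2a1f0e_nt.GM.Basic

set_option autoImplicit false

open Finset

namespace Pool.Agent.MP_2a1f0e_nt.GM

theorem final_stmt (hI : IntStmt) (hT : TayStmt) : FinalStmt := by
  intro ε hε
  obtain ⟨K, hK, h⟩ := hI ε hε
  refine ⟨36 * 36 * K, fun N T V hN hNT hV b hb W hW hsep hWV => ?_⟩
  have hT0 : 0 ≤ T := (Nat.cast_nonneg N).trans hNT
  have h1 : (⌊T⌋₊ : ℝ) ≤ T := Nat.floor_le hT0
  have h2 := hT N ⌊T⌋₊ V _ hN hV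
    (fun b hb => h N ⌊T⌋₊ hN (Nat.le_floor hNT) b hb (V / 6) (by positivity)) b hb W
    (fun t ht => ⟨(hW t ht).1, (hW t ht).2.trans_lt (Nat.lt_floor_add_one T)⟩) hsep hWV
  have h3 : (W.card : ℝ) * V ^ 2 ≤ ∑ t ∈ W, ‖DP N b t‖ ^ 2 := by
    rw [← nsmul_eq_mul]
    exact card_nsmul_le_sum W _ _ fun t ht => pow_le_pow_left₀ hV.le (hWV t ht) 2
  have h4 : √(⌊T⌋₊ : ℝ) * (N : ℝ) ^ 3 + ⌊T⌋₊ * (N : ℝ) ^ (12 / 5 : ℝ) ≤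
      √T * (N : ℝ) ^ 3 + T * (N : ℝ) ^ (12 / 5 : ℝ) := by gcongr
  have h5 : (N : ℝ) ^ 2 + (√(⌊T⌋₊ : ℝ) * (N : ℝ) ^ 3 + ⌊T⌋₊ * (N : ℝ) ^ (12 / 5 : ℝ)) / (V / 6) ^ 2
      ≤ 36 * ((N : ℝ) ^ 2 + (√T * (N : ℝ) ^ 3 + T * (N : ℝ) ^ (12 / 5 : ℝ)) / V ^ 2) := by
    have e : (V / 6) ^ 2 = V ^ 2 / 36 := by ring
    rw [e, div_div_eq_mul_div, mul_div_right_comm]
    have := div_le_div_of_nonneg_right h4 (sq_nonneg V)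
    nlinarith [sq_nonneg (N : ℝ)]
  have h6 : 0 ≤ K * (N : ℝ) ^ ε := by positivity
  have h7 := (h3.trans h2).trans
    (mul_le_mul_of_nonneg_left (mul_le_mul_of_nonneg_left h5 h6) (by norm_num))
  rw [← le_div_iff₀ (by positivity)] at h7
  refine h7.trans_eq ?_
  field_simp
  ring

end Pool.Agent.MP_2a1f0e_nt.GM
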