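import Pool.Agent.MP_2a1f0e_nt.GM.Basic
set_option autoImplicit false
open Finset
namespace Pool.Agent.MP_2a1f0e_nt.GM

theorem core_Num {C P τ n x M Δ B s : ℝ} (hC : 1 ≤ C) (hP : 1 ≤ P) (hn : 0 < n) (hτ : 0 < τ)
    (h5 : τ ^ 5 ≤ n ^ 3) (hx : 0 ≤ x) (hM0 : 0 ≤ M) (hM : M * n ^ 2 ≤ C * P * τ ^ 4)
    (hΔ0 : 0 ≤ Δ) (hΔ : Δ ≤ C * P) (hB0 : 0 ≤ B) (hB : B ≤ C * P * n ^ 4) (hs0 : 0 ≤ s)
    (hs : s * n ^ 2 ≤ 2 * (C * P) * τ ^ 2)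
    (h : x ^ 6 ≤ C * n ^ 6 * (n ^ 4 * (M ^ 2 * x ^ 3 + M * Δ * B * x ^ 2 +
      M ^ 2 * Δ * B ^ 2 * x * s) + P * (τ ^ 4 * n ^ 6) * x ^ 2)) :
    x ^ 2 ≤ 5 * C ^ 7 * P ^ 6 * (τ * n ^ 3) ^ 2 := by
  have hQ : 1 ≤ C * P := one_le_mul_of_one_le_of_one_le hC hP
  have hPQ : P ≤ C * P := le_mul_of_one_le_left (by linarith) hC
  have e7 : 5 * C ^ 7 * P ^ 6 = C * (5 * (C * P) ^ 6) := by ring
  rw [e7]
  generalize C * P = Q at *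
  have hz : 0 < τ * n ^ 3 := by positivity
  have q6 : 1 ≤ Q ^ 6 := one_le_pow₀ hQ
  by_contra hc
  rw [not_le] at hc
  have hzx : τ * n ^ 3 ≤ x := by
    refine le_of_lt (lt_of_pow_lt_pow_left₀ 2 hx (lt_of_le_of_lt ?_ hc))
    refine le_mul_of_one_le_left (by positivity) ?_
    nlinarith
  have hx0 : 0 < x := hz.trans_le hzx
  have t1 : n ^ 6 * n ^ 4 * (M ^ 2 * x ^ 3) ≤ Q ^ 6 * ((τ * n ^ 3) ^ 2 * x ^ 4) :=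
    calc _ = n ^ 6 * (M * n ^ 2) ^ 2 * x ^ 3 := by ring
      _ ≤ n ^ 6 * (Q * τ ^ 4) ^ 2 * x ^ 3 := by gcongr
      _ = Q ^ 2 * (τ ^ 5 * (τ ^ 3 * n ^ 6 * x ^ 3)) := by ring
      _ ≤ Q ^ 6 * (n ^ 3 * (τ ^ 3 * n ^ 6 * x ^ 3)) := by gcongr; norm_num
      _ = Q ^ 6 * ((τ * n ^ 3) ^ 2 * ((τ * n ^ 3) * x ^ 3)) := by ring
      _ ≤ Q ^ 6 * ((τ * n ^ 3) ^ 2 * (x * x ^ 3)) := by gcongr
      _ = _ := by ring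
  have t0 : (τ * n ^ 3) ^ 4 * x ^ 2 ≤ (τ * n ^ 3) ^ 2 * x ^ 4 :=
    calc _ = (τ * n ^ 3) ^ 2 * ((τ * n ^ 3) ^ 2 * x ^ 2) := by ring
      _ ≤ (τ * n ^ 3) ^ 2 * (x ^ 2 * x ^ 2) := by gcongr
      _ = _ := by ring
  have t2 : n ^ 6 * n ^ 4 * (M * Δ * B * x ^ 2) ≤ Q ^ 6 * ((τ * n ^ 3) ^ 2 * x ^ 4) :=
    calc _ = n ^ 8 * (M * n ^ 2) * Δ * B * x ^ 2 := by ring
      _ ≤ n ^ 8 * (Q * τ ^ 4) * Q * (Q * n ^ 4) * x ^ 2 := by gcongr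
      _ = Q ^ 3 * ((τ * n ^ 3) ^ 4 * x ^ 2) := by ring
      _ ≤ _ := by gcongr; norm_num
  have t3 : n ^ 6 * n ^ 4 * (M ^ 2 * Δ * B ^ 2 * x * s) ≤
      2 * Q ^ 6 * ((τ * n ^ 3) ^ 2 * x ^ 4) :=
    calc _ = n ^ 4 * (M * n ^ 2) ^ 2 * Δ * B ^ 2 * x * (s * n ^ 2) := by ring
      _ ≤ n ^ 4 * (Q * τ ^ 4) ^ 2 * Q * (Q * n ^ 4) ^ 2 * x * (2 * Q * τ ^ 2) := by gcongr
      _ = 2 * Q ^ 6 * (τ ^ 5 * (τ ^ 5 * n ^ 12 * x)) := by ring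
      _ ≤ 2 * Q ^ 6 * (n ^ 3 * (τ ^ 5 * n ^ 12 * x)) := by gcongr
      _ = 2 * Q ^ 6 * ((τ * n ^ 3) ^ 2 * ((τ * n ^ 3) ^ 3 * x)) := by ring
      _ ≤ 2 * Q ^ 6 * ((τ * n ^ 3) ^ 2 * (x ^ 3 * x)) := by gcongr
      _ = _ := by ring
  have t4 : n ^ 6 * (P * (τ ^ 4 * n ^ 6) * x ^ 2) ≤ Q ^ 6 * ((τ * n ^ 3) ^ 2 * x ^ 4) :=
    calc _ = P * ((τ * n ^ 3) ^ 4 * x ^ 2) := by ring
      _ ≤ _ := by
        gcongr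
        exact hPQ.trans (le_self_pow₀ hQ (by norm_num))
  have t5 : x ^ 2 * x ^ 4 ≤ C * (5 * Q ^ 6) * (τ * n ^ 3) ^ 2 * x ^ 4 :=
    calc _ = x ^ 6 := by ring
      _ ≤ _ := h
      _ = C * (n ^ 6 * n ^ 4 * (M ^ 2 * x ^ 3) + n ^ 6 * n ^ 4 * (M * Δ * B * x ^ 2) +
          n ^ 6 * n ^ 4 * (M ^ 2 * Δ * B ^ 2 * x * s) +
          n ^ 6 * (P * (τ ^ 4 * n ^ 6) * x ^ 2)) := by ring
      _ ≤ C * (Q ^ 6 * ((τ * n ^ 3) ^ 2 * x ^ 4) + Q ^ 6 * ((τ * n ^ 3) ^ 2 * x ^ 4) +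
          2 * Q ^ 6 * ((τ * n ^ 3) ^ 2 * x ^ 4) + Q ^ 6 * ((τ * n ^ 3) ^ 2 * x ^ 4)) := by gcongr
      _ = _ := by ring
  exact absurd (le_of_mul_le_mul_right t5 (by positivity)) (not_le.2 hc)

theorem num_stmt : NumStmt := by
  intro δ C hδ hC
  refine ⟨5 * C ^ 7, by positivity, fun N T M Δ B X hN hT h5 hM hΔ1 hΔ hB0 hB hX h => ?_⟩
  have hN1 : (1 : ℝ) ≤ N := by exact_mod_cast hN
  have hT1 : (1 : ℝ) ≤ T := by exact_mod_cast hN.trans hT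
  have h5' : (T : ℝ) ^ 5 ≤ (N : ℝ) ^ 6 := by exact_mod_cast h5
  have hP : 1 ≤ (N : ℝ) ^ δ := Real.one_le_rpow hN1 hδ.le
  have e6 : (N : ℝ) ^ (6 * δ) = ((N : ℝ) ^ δ) ^ 6 := by
    rw [mul_comm, Real.rpow_mul (by linarith)]
    exact_mod_cast Real.rpow_natCast _ 6
  rw [e6]
  have hM0 : (0 : ℝ) ≤ M := Nat.cast_nonneg M
  generalize (N : ℝ) ^ δ = P at *
  generalize (M : ℝ) = M at *
  obtain ⟨n, hn, en⟩ : ∃ n : ℝ, 0 < n ∧ (N : ℝ) = n ^ 2 :=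
    ⟨√N, Real.sqrt_pos.2 (by linarith), (Real.sq_sqrt (by linarith)).symm⟩
  obtain ⟨τ, hτ, eT⟩ : ∃ τ : ℝ, 0 < τ ∧ (T : ℝ) = (τ ^ 2) ^ 2 :=
    ⟨√(√T), Real.sqrt_pos.2 (Real.sqrt_pos.2 (by linarith)), by
      rw [Real.sq_sqrt (Real.sqrt_nonneg _), Real.sq_sqrt (by linarith)]⟩
  obtain ⟨x, hx, rfl⟩ : ∃ x : ℝ, 0 ≤ x ∧ X = x ^ 2 :=
    ⟨√X, Real.sqrt_nonneg _, (Real.sq_sqrt hX).symm⟩
  rw [en, eT] at h hM h5' ⊢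
  rw [en] at hB hN1
  rw [Real.sqrt_sq hx] at h
  rw [Real.sqrt_sq (by positivity)]
  have hQ : 0 < C * P := by positivity
  have h53 : τ ^ 5 ≤ n ^ 3 :=
    le_of_pow_le_pow_left₀ (n := 4) (by norm_num) (by positivity) (by
      calc _ = ((τ ^ 2) ^ 2) ^ 5 := by ring
        _ ≤ _ := h5'
        _ = _ := by ring)
  have hTN : (τ ^ 2) ^ 2 ≤ (n ^ 2) ^ 2 :=
    le_of_pow_le_pow_left₀ (n := 5) (by norm_num) (by positivity) (h5'.trans (by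
      rw [← pow_mul (n ^ 2)]
      exact pow_le_pow_right₀ hN1 (by norm_num)))
  have hM' : M * n ^ 2 ≤ C * P * τ ^ 4 := by
    rw [← mul_div_assoc, le_div_iff₀ (by positivity)] at hM
    exact hM.trans_eq (by ring)
  have hs : √(M ^ 2 / (n ^ 2) ^ 2 + M * Δ / n ^ 2) * n ^ 2 ≤ 2 * (C * P) * τ ^ 2 := by
    rw [← le_div_iff₀ (by positivity)]
    refine Real.sqrt_le_iff.2 ⟨by positivity, ?_⟩
    have a1 : M ^ 2 / (n ^ 2) ^ 2 ≤ (C * P * τ ^ 2 / n ^ 2) ^ 2 := by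
      rw [div_pow]
      refine div_le_div_of_nonneg_right (le_of_mul_le_mul_right ?_
        (show 0 < (n ^ 2) ^ 2 by positivity)) (by positivity)
      calc _ = (M * n ^ 2) ^ 2 := by ring
        _ ≤ (C * P * τ ^ 4) ^ 2 := by gcongr
        _ = (C * P * τ ^ 2) ^ 2 * (τ ^ 2) ^ 2 := by ring
        _ ≤ _ := by gcongr
    have a2 : M * Δ / n ^ 2 ≤ (C * P * τ ^ 2 / n ^ 2) ^ 2 := by
      rw [div_pow, div_le_div_iff₀ (by positivity) (by positivity)]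
      calc _ = M * n ^ 2 * Δ * n ^ 2 := by ring
        _ ≤ C * P * τ ^ 4 * (C * P) * n ^ 2 := by gcongr
        _ = _ := by ring
    calc _ ≤ (C * P * τ ^ 2 / n ^ 2) ^ 2 + (C * P * τ ^ 2 / n ^ 2) ^ 2 := add_le_add a1 a2
      _ ≤ 4 * (C * P * τ ^ 2 / n ^ 2) ^ 2 := by nlinarith [sq_nonneg (C * P * τ ^ 2 / n ^ 2)]
      _ = _ := by ring
  have := core_Num hC hP hn hτ h53 hx hM0 hM' (by linarith) hΔ hB0 (hB.trans_eq (by ring))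
    (Real.sqrt_nonneg _) hs (by
      calc _ = (x ^ 2) ^ 3 := by ring
        _ ≤ _ := h
        _ = _ := by ring)
  exact this.trans_eq (by ring)

end Pool.Agent.MP_2a1f0e_nt.GM
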