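import Pool.Agent.MP_2a1f0e_nt.GM.Basic

set_option autoImplicit false

open Finset

namespace Pool.Agent.MP_2a1f0e_nt.GM

noncomputable def EE_PairB (M : ℕ) (l : ℤ) (v : ℝ) : ℂ :=
  ∑ m ∈ Ms M, ex (((l * m : ℤ) : ℝ) * v)

noncomputable def GG_PairB (g : ℝ → ℝ) (ξ : ℤ) : ℂ :=
  ∫ v in (1 / 9 : ℝ)..(82 / 9), (g v : ℂ) * ex ((ξ : ℝ) * v)

lemma rho2_exp_PairB (hE : PhExpStmt) {N : ℕ} (hN : 1 ≤ N) (M : ℕ) (v w : ℝ) :
    (rho2 N M v w : ℂ) =
      ∑ l ∈ Ioo (-(N : ℤ)) N, cf N l * (EE_PairB M l v * EE_PairB M l w) := by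
  unfold rho2 EE_PairB
  simp only [Complex.ofReal_sum, (hE N hN).1, sum_mul_sum]
  simp only [mul_sum]
  symm
  rw [sum_comm]
  refine sum_congr rfl fun m _ => ?_
  rw [sum_comm]
  refine sum_congr rfl fun m' _ => sum_congr rfl fun l _ => ?_
  rw [← ex_add]
  congr 2
  push_cast
  ring

lemma int_ex_PairB {g : ℝ → ℝ} (hg : ContinuousOn g (Set.Icc (1 / 9 : ℝ) (82 / 9))) (ξ : ℝ) :
    IntervalIntegrable (fun v => (g v : ℂ) * ex (ξ * v)) MeasureTheory.volume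
      (1 / 9 : ℝ) (82 / 9) := by
  refine ContinuousOn.intervalIntegrable_of_Icc (by norm_num) ?_
  exact (Complex.continuous_ofReal.comp_continuousOn hg).mul
    (continuous_ex.comp (continuous_const.mul continuous_id)).continuousOn

lemma int_EE_PairB {g : ℝ → ℝ} (hg : ContinuousOn g (Set.Icc (1 / 9 : ℝ) (82 / 9))) (M : ℕ)
    (l : ℤ) : IntervalIntegrable (fun v => (g v : ℂ) * EE_PairB M l v) MeasureTheory.volume
      (1 / 9 : ℝ) (82 / 9) := by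
  refine ContinuousOn.intervalIntegrable_of_Icc (by norm_num) ?_
  refine (Complex.continuous_ofReal.comp_continuousOn hg).mul (Continuous.continuousOn ?_)
  exact continuous_finsetSum _ fun m _ => continuous_ex.comp (continuous_const.mul continuous_id)

lemma integral_EE_PairB {g : ℝ → ℝ} (hg : ContinuousOn g (Set.Icc (1 / 9 : ℝ) (82 / 9)))
    (M : ℕ) (l : ℤ) : ∫ v in (1 / 9 : ℝ)..(82 / 9), (g v : ℂ) * EE_PairB M l v =
      ∑ m ∈ Ms M, GG_PairB g (l * m) := by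
  unfold EE_PairB GG_PairB
  simp only [mul_sum]
  exact intervalIntegral.integral_finsetSum fun m _ => int_ex_PairB hg _

lemma integral_sum_PairB {g : ℝ → ℝ} (hg : ContinuousOn g (Set.Icc (1 / 9 : ℝ) (82 / 9)))
    (M : ℕ) (s : Finset ℤ) (c : ℤ → ℂ) :
    ∫ v in (1 / 9 : ℝ)..(82 / 9), ∑ l ∈ s, c l * ((g v : ℂ) * EE_PairB M l v) =
      ∑ l ∈ s, c l * ∑ m ∈ Ms M, GG_PairB g (l * m) := by
  rw [intervalIntegral.integral_finsetSum fun l _ => (int_EE_PairB hg M l).const_mul _]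
  refine sum_congr rfl fun l _ => ?_
  rw [intervalIntegral.integral_const_mul, integral_EE_PairB hg]

lemma pair_exp_PairB (hE : PhExpStmt) {N : ℕ} (hN : 1 ≤ N) (M : ℕ) {g h : ℝ → ℝ}
    (hg : ContinuousOn g (Set.Icc (1 / 9 : ℝ) (82 / 9)))
    (hh : ContinuousOn h (Set.Icc (1 / 9 : ℝ) (82 / 9))) :
    (Pair N M g h : ℂ) = ∑ l ∈ Ioo (-(N : ℤ)) N,
      (cf N l * ∑ m ∈ Ms M, GG_PairB h (l * m)) * ∑ m ∈ Ms M, GG_PairB g (l * m) := by
  rw [← integral_sum_PairB hg]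
  unfold Pair II
  rw [← intervalIntegral.integral_ofReal]
  refine intervalIntegral.integral_congr fun v _ => ?_
  have e : ∑ l ∈ Ioo (-(N : ℤ)) N,
      (cf N l * ∑ m ∈ Ms M, GG_PairB h (l * m)) * ((g v : ℂ) * EE_PairB M l v) =
      ∑ l ∈ Ioo (-(N : ℤ)) N, (cf N l * ((g v : ℂ) * EE_PairB M l v)) *
        ∑ m ∈ Ms M, GG_PairB h (l * m) := sum_congr rfl fun l _ => by ring
  rw [e, ← integral_sum_PairB hh, ← intervalIntegral.integral_ofReal]
  refine intervalIntegral.integral_congr fun w _ => ?_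
  rw [Complex.ofReal_mul, Complex.ofReal_mul, rho2_exp_PairB hE hN, mul_sum]
  exact sum_congr rfl fun l _ => by ring

lemma zero_PairB {g : ℝ → ℝ} (hg : ∀ v, 0 ≤ g v) (M : ℕ) :
    ‖∑ m ∈ Ms M, GG_PairB g (0 * m)‖ = 2 * M * II g := by
  have e : GG_PairB g 0 = (II g : ℂ) := by
    unfold GG_PairB II
    rw [← intervalIntegral.integral_ofReal]
    simp [ex_zero]
  simp only [zero_mul, e, sum_const, card_Ms, nsmul_eq_mul, norm_mul, Complex.norm_real,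
    Complex.norm_natCast, Real.norm_eq_abs, abs_of_nonneg (II_nonneg hg)]
  push_cast
  ring

lemma sqrt_le_PairB (hB : BesStmt) (hD : DivStmt) {N M : ℕ} {Δ : ℝ} (hΔ : DivB (N * M) Δ)
    {g : ℝ → ℝ} (hg : ContinuousOn g (Set.Icc (1 / 9 : ℝ) (82 / 9))) :
    √(∑ l ∈ (Ioo (-(N : ℤ)) N).erase 0, ‖∑ m ∈ Ms M, GG_PairB g (l * m)‖ ^ 2) ≤
      √(36 * (M * Δ)) * √(II fun v => g v ^ 2) := by
  have h0 : 0 ≤ Δ := le_trans zero_le_one hΔ.1
  rw [← Real.sqrt_mul (by positivity)]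
  refine Real.sqrt_le_sqrt ((hD N M Δ hΔ (GG_PairB g)).trans ?_)
  have h1 := hB g hg (Icc (-((N * M : ℕ) : ℤ)) ((N * M : ℕ) : ℤ))
  refine (mul_le_mul_of_nonneg_left h1 (by positivity)).trans (le_of_eq ?_)
  ring

theorem pair_stmt (hE : PhExpStmt) (hB : BesStmt) (hD : DivStmt) : PairStmt := by
  refine ⟨72, by norm_num, fun N M Δ hN hΔ g h hg hh hg0 hh0 => ?_⟩
  have h0 : 0 ≤ Δ := le_trans zero_le_one hΔ.1
  have hN' : (0 : ℝ) < N := by exact_mod_cast hN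
  have h1 : Pair N M g h ≤ ∑ l ∈ Ioo (-(N : ℤ)) N,
      2 / N * (‖∑ m ∈ Ms M, GG_PairB g (l * m)‖ * ‖∑ m ∈ Ms M, GG_PairB h (l * m)‖) := by
    refine (le_abs_self _).trans ?_
    rw [← Real.norm_eq_abs, ← Complex.norm_real, pair_exp_PairB hE hN M hg hh]
    refine (norm_sum_le _ _).trans (sum_le_sum fun l hl => ?_)
    rw [norm_mul, norm_mul, mul_assoc, mul_comm ‖∑ m ∈ Ms M, GG_PairB h (l * m)‖]
    exact mul_le_mul_of_nonneg_right ((hE N hN).2 l hl) (by positivity)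
  have hz : (0 : ℤ) ∈ Ioo (-(N : ℤ)) N := by
    rw [mem_Ioo]; omega
  rw [← mul_sum, ← add_sum_erase _ _ hz, zero_PairB hg0, zero_PairB hh0] at h1
  have h2 := Real.sum_mul_le_sqrt_mul_sqrt ((Ioo (-(N : ℤ)) N).erase 0)
    (fun l => ‖∑ m ∈ Ms M, GG_PairB g (l * m)‖) fun l => ‖∑ m ∈ Ms M, GG_PairB h (l * m)‖
  have h3 := mul_le_mul (sqrt_le_PairB hB hD hΔ hg) (sqrt_le_PairB hB hD hΔ hh)
    (Real.sqrt_nonneg _) (by positivity)
  rw [mul_mul_mul_comm, Real.mul_self_sqrt (by positivity)] at h3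
  refine h1.trans ((mul_le_mul_of_nonneg_left (add_le_add_right (h2.trans h3) _)
    (by positivity)).trans ?_)
  have h4 : 0 ≤ (M : ℝ) ^ 2 / N * II g * II h :=
    mul_nonneg (mul_nonneg (by positivity) (II_nonneg hg0)) (II_nonneg hh0)
  have e : 2 / (N : ℝ) * (2 * M * II g * (2 * M * II h) +
      36 * (M * Δ) * (√(II fun v => g v ^ 2) * √(II fun v => h v ^ 2))) =
      8 * ((M : ℝ) ^ 2 / N * II g * II h) +
        72 * (M * Δ / N * √(II fun v => g v ^ 2) * √(II fun v => h v ^ 2)) := by ring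
  rw [e]
  linarith

end Pool.Agent.MP_2a1f0e_nt.GM
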