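import Pool.Agent.MP_2a1f0e_nt.GM.Basic

set_option autoImplicit false

open Finset

namespace Pool.Agent.MP_2a1f0e_nt.GM

lemma II_lin_QSt {f g : ℝ → ℝ} (hf : ContinuousOn f (Set.Icc (1 / 9 : ℝ) (82 / 9)))
    (hg : ContinuousOn g (Set.Icc (1 / 9 : ℝ) (82 / 9))) (a b : ℝ) :
    II (fun v => a * f v + b * g v) = a * II f + b * II g := by
  unfold II
  rw [intervalIntegral.integral_add
    ((hf.intervalIntegrable_of_Icc (by norm_num)).const_mul a)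
    ((hg.intervalIntegrable_of_Icc (by norm_num)).const_mul b),
    intervalIntegral.integral_const_mul, intervalIntegral.integral_const_mul]

lemma II_cs_QSt {f : ℝ → ℝ} (hf : ContinuousOn f (Set.Icc (1 / 9 : ℝ) (82 / 9))) :
    II f ^ 2 ≤ 9 * II fun v => f v ^ 2 := by
  have h1 : II (fun _ => 1) = 9 := by
    unfold II
    rw [intervalIntegral.integral_const]
    norm_num
  have h2 := II_mono (f := fun v => 2 * (II f / 9) * f v + -(II f / 9) ^ 2 * 1)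
    (g := fun v => f v ^ 2)
    ((continuousOn_const.mul hf).add continuousOn_const) (hf.pow 2)
    fun v _ => by nlinarith [sq_nonneg (f v - II f / 9)]
  rw [II_lin_QSt hf continuousOn_const, h1] at h2
  nlinarith

lemma pt_QSt {p r B M : ℝ} (hp : 0 ≤ p) (hB : 0 ≤ B) (hM : 1 ≤ M) (h1 : r ≤ 4 * M)
    (h2 : p ≤ B * (1 + r)) : (p ^ 2) ^ 2 ≤ 2 * B ^ 2 * p ^ 2 + 50 * B ^ 4 * M ^ 2 * r ^ 2 := by
  have a1 : p ^ 2 ≤ (B * (1 + r)) ^ 2 := pow_le_pow_left₀ hp h2 2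
  have a2 : p ≤ 5 * B * M := h2.trans (by nlinarith)
  have a3 : p ^ 2 ≤ (5 * B * M) ^ 2 := pow_le_pow_left₀ hp a2 2
  have a4 : (B * (1 + r)) ^ 2 ≤ 2 * B ^ 2 + 2 * B ^ 2 * r ^ 2 := by
    nlinarith [mul_nonneg (sq_nonneg B) (sq_nonneg (1 - r))]
  have a5 := mul_le_mul_of_nonneg_right (a1.trans a4) (sq_nonneg p)
  have a6 := mul_le_mul_of_nonneg_left a3 (by positivity : 0 ≤ 2 * B ^ 2 * r ^ 2)
  nlinarith

theorem q_stmt (h3 : ThreeStmt) (hS : SymStmt) (hP : PairStmt) (hR : RhoStmt) (hPar : ParStmt) :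
    QStmt := by
  obtain ⟨C₃, c₃, h3⟩ := h3
  obtain ⟨C₄, c₄, hS⟩ := hS
  obtain ⟨C₅, c₅, hP⟩ := hP
  obtain ⟨C₆, c₆, hR⟩ := hR
  refine ⟨C₃ * C₄ * C₅ * (1440 + 8 * (50 * C₆ + 1)), by positivity,
    fun N M Δ B X s ν hN hD hB hM hpt hX => ?_⟩
  have hφ : ContinuousOn (fun v => ‖FT s ν v‖) (Set.Ioi 0) := (continuousOn_FT s ν).norm
  have hφ' := hφ.mono Icc_sub_Ioi
  have hφ2 : ContinuousOn (fun v => ‖FT s ν v‖ ^ 2) (Set.Icc (1 / 9 : ℝ) (82 / 9)) := hφ'.pow 2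
  have hX0 : 0 ≤ X := (sum_nonneg fun _ _ => sq_nonneg _).trans hX
  have hΔ : 0 ≤ Δ := zero_le_one.trans hD.1
  have hN0 : (0 : ℝ) < N := by exact_mod_cast hN
  have hM1 : (1 : ℝ) ≤ M := by exact_mod_cast hM
  have a1 := h3 N M hN s ν
  have a2 := hS N M hN _ hφ (fun _ => norm_nonneg _) (norm_FT_inv s ν)
  have a3 := hP N M Δ hN hD _ _ hφ' hφ2 (fun _ => norm_nonneg _) fun _ => sq_nonneg _
  have a4 := (hR N M Δ hN hD).2
  have b2 : II (fun v => ‖FT s ν v‖ ^ 2) ≤ 60 * X := (hPar s ν).trans (by linarith)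
  have sX : √X ^ 2 = X := Real.sq_sqrt hX0
  have sX0 := Real.sqrt_nonneg X
  have b1 : II (fun v => ‖FT s ν v‖) ≤ 24 * √X := by
    refine (sq_le_sq₀ (II_nonneg fun _ => norm_nonneg _) (by positivity)).1 ?_
    have := II_cs_QSt hφ'
    rw [mul_pow, sX]
    linarith
  set R : ℝ := (M : ℝ) ^ 2 / (N : ℝ) ^ 2 + M * Δ / N with hRdef
  have hR0 : 0 ≤ R := by positivity
  have sR : √R ^ 2 = R := Real.sq_sqrt hR0
  have sR0 := Real.sqrt_nonneg R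
  have b3 : √(II fun v => ‖FT s ν v‖ ^ 2) ≤ 8 * √X :=
    Real.sqrt_le_iff.2 ⟨by positivity, by rw [mul_pow, sX]; linarith⟩
  have b4 : II (fun v => (‖FT s ν v‖ ^ 2) ^ 2) ≤
      2 * B ^ 2 * (60 * X) + 50 * B ^ 4 * (M : ℝ) ^ 2 * (C₆ * R) := by
    have hρ : ContinuousOn (fun v => rho N M v ^ 2) (Set.Icc (1 / 9 : ℝ) (82 / 9)) :=
      ((continuous_rho N M).pow 2).continuousOn
    have := II_mono (f := fun v => (‖FT s ν v‖ ^ 2) ^ 2)
      (g := fun v => 2 * B ^ 2 * ‖FT s ν v‖ ^ 2 + 50 * B ^ 4 * (M : ℝ) ^ 2 * rho N M v ^ 2)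
      (hφ2.pow 2) ((continuousOn_const.mul hφ2).add (continuousOn_const.mul hρ))
      fun v hv => pt_QSt (norm_nonneg _) hB hM1 (rho_le N M v) (hpt v hv)
    rw [II_lin_QSt hφ2 hρ] at this
    exact this.trans (add_le_add (mul_le_mul_of_nonneg_left b2 (by positivity))
      (mul_le_mul_of_nonneg_left a4 (by positivity)))
  have b5 : √(II fun v => (‖FT s ν v‖ ^ 2) ^ 2) ≤
      11 * B * √X + (50 * C₆ + 1) * B ^ 2 * M * √R := by
    refine Real.sqrt_le_iff.2 ⟨by positivity, b4.trans ?_⟩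
    have e : (11 * B * √X + (50 * C₆ + 1) * B ^ 2 * M * √R) ^ 2 =
        121 * B ^ 2 * X + (50 * C₆ + 1) ^ 2 * (B ^ 4 * (M : ℝ) ^ 2 * R) +
          2 * (11 * B * √X) * ((50 * C₆ + 1) * B ^ 2 * M * √R) := by
      linear_combination 121 * B ^ 2 * sX + (50 * C₆ + 1) ^ 2 * (B ^ 4 * (M : ℝ) ^ 2) * sR
    have e1 : 0 ≤ 2 * (11 * B * √X) * ((50 * C₆ + 1) * B ^ 2 * M * √R) := by positivity
    have e2 : 50 * C₆ * (B ^ 4 * (M : ℝ) ^ 2 * R) ≤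
        (50 * C₆ + 1) ^ 2 * (B ^ 4 * (M : ℝ) ^ 2 * R) :=
      mul_le_mul_of_nonneg_right (by nlinarith) (by positivity)
    have e3 : 0 ≤ B ^ 2 * X := by positivity
    rw [e]
    nlinarith
  have d1 : (M : ℝ) ^ 2 / N * II (fun v => ‖FT s ν v‖) * II (fun v => ‖FT s ν v‖ ^ 2) ≤
      (M : ℝ) ^ 2 / N * (24 * √X) * (60 * X) :=
    mul_le_mul (mul_le_mul_of_nonneg_left b1 (by positivity)) b2
      (II_nonneg fun _ => sq_nonneg _) (by positivity)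
  have d2 : M * Δ / N * √(II fun v => ‖FT s ν v‖ ^ 2) * √(II fun v => (‖FT s ν v‖ ^ 2) ^ 2) ≤
      M * Δ / N * (8 * √X) * (11 * B * √X + (50 * C₆ + 1) * B ^ 2 * M * √R) :=
    mul_le_mul (mul_le_mul_of_nonneg_left b3 (by positivity)) b5 (Real.sqrt_nonneg _)
      (by positivity)
  have d3 := a1.trans (mul_le_mul_of_nonneg_left (a2.trans (mul_le_mul_of_nonneg_left
    (a3.trans (mul_le_mul_of_nonneg_left (add_le_add d1 d2) c₅.le)) c₄.le)) (by positivity))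
  refine d3.trans ?_
  have e : C₃ * (N : ℝ) ^ 3 * (C₄ * (C₅ * ((M : ℝ) ^ 2 / N * (24 * √X) * (60 * X) +
      M * Δ / N * (8 * √X) * (11 * B * √X + (50 * C₆ + 1) * B ^ 2 * M * √R)))) =
      C₃ * C₄ * C₅ * (N : ℝ) ^ 2 * (1440 * ((M : ℝ) ^ 2 * (X * √X)) +
        88 * (M * Δ * B * √X ^ 2) + 8 * (50 * C₆ + 1) * ((M : ℝ) ^ 2 * Δ * B ^ 2 * √X * √R)) := by
    field_simp
    ring
  rw [e, sX, mul_right_comm _ (1440 + 8 * (50 * C₆ + 1)), mul_assoc _ (1440 + 8 * (50 * C₆ + 1))]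
  refine mul_le_mul_of_nonneg_left ?_ (by positivity)
  have g1 : 0 ≤ (M : ℝ) ^ 2 * (X * √X) := by positivity
  have g2 : 0 ≤ M * Δ * B * X := by positivity
  have g3 : 0 ≤ (M : ℝ) ^ 2 * Δ * B ^ 2 * √X * √R := by positivity
  nlinarith [mul_nonneg c₆.le g1, mul_nonneg c₆.le g2]

end Pool.Agent.MP_2a1f0e_nt.GM
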