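import Pool.Agent.MP_2a1f0e_nt.GM.Basic
set_option autoImplicit false
open Finset
namespace Pool.Agent.MP_2a1f0e_nt.GM

lemma mono_Sym {f g : ℝ → ℝ} {a b : ℝ} (hab : a ≤ b) (hf : ∀ x, 0 ≤ f x)
    (hg : ContinuousOn g (Set.Icc a b)) (h : ∀ x ∈ Set.Icc a b, f x ≤ g x) :
    ∫ x in a..b, f x ≤ ∫ x in a..b, g x := by
  rw [intervalIntegral.integral_of_le hab, intervalIntegral.integral_of_le hab]
  exact MeasureTheory.integral_mono_of_nonneg (MeasureTheory.ae_of_all _ hf)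
    (hg.integrableOn_Icc.mono_set Set.Ioc_subset_Icc_self)
    ((MeasureTheory.ae_restrict_iff' measurableSet_Ioc).2
      (MeasureTheory.ae_of_all _ fun x hx => h x (Set.Ioc_subset_Icc_self hx)))

lemma le_II_Sym {f : ℝ → ℝ} {a b : ℝ} (ha : 1 / 9 ≤ a) (hab : a ≤ b) (hb : b ≤ 82 / 9)
    (hf : ∀ x, 0 ≤ f x) (hc : Continuous f) : ∫ x in a..b, f x ≤ II f :=
  intervalIntegral.integral_mono_interval ha hab hb (MeasureTheory.ae_of_all _ hf)
    (hc.intervalIntegrable _ _)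

lemma II_congr_Sym {f g : ℝ → ℝ} (h : ∀ x, 1 / 9 ≤ x → f x = g x) : II f = II g :=
  intervalIntegral.integral_congr fun x hx => h x (by
    rw [Set.uIcc_of_le (by norm_num)] at hx
    exact hx.1)

lemma inv_cont_Sym {K : ℝ → ℝ} (hK : Continuous K) :
    ContinuousOn (fun v : ℝ => K v⁻¹ * (v ^ 2)⁻¹) (Set.Icc (1 / 3) 3) := by
  have h : ∀ x ∈ Set.Icc (1 / 3 : ℝ) 3, x ≠ 0 := fun x hx => by
    have := hx.1
    positivity
  exact (hK.comp_continuousOn (continuousOn_id.inv₀ h)).mul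
    ((continuousOn_id.pow 2).inv₀ fun x hx => pow_ne_zero 2 (h x hx))

lemma inv_int_Sym {K : ℝ → ℝ} (hK : Continuous K) :
    ∫ v in (1 / 3 : ℝ)..3, K v⁻¹ * (v ^ 2)⁻¹ = ∫ v in (1 / 3 : ℝ)..3, K v := by
  have h : ∀ x ∈ Set.uIcc (1 / 3 : ℝ) 3, x ≠ 0 := fun x hx => by
    rw [Set.uIcc_of_le (by norm_num)] at hx
    have := hx.1
    positivity
  have h1 := intervalIntegral.integral_comp_mul_deriv (f := fun x : ℝ => x⁻¹)
    (f' := fun x : ℝ => -(x ^ 2)⁻¹) (fun x hx => hasDerivAt_inv (h x hx))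
    (((continuousOn_id.pow 2).inv₀ fun x hx => pow_ne_zero 2 (h x hx)).neg) hK
  simp only [Function.comp_apply, mul_neg, intervalIntegral.integral_neg] at h1
  rw [show ((1 / 3 : ℝ))⁻¹ = 3 by norm_num, show ((3 : ℝ))⁻¹ = 1 / 3 by norm_num,
    intervalIntegral.integral_symm (1 / 3) 3] at h1
  exact neg_injective h1

lemma kp3_le_Sym {C : ℝ} {N : ℕ} (h : ∀ (y : ℝ) (s : Finset ℤ),
    ∑ a ∈ s, kp ((N : ℝ) * (y + a)) ≤ C * Ph N y) (M : ℕ) (v w : ℝ) :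
    kp3 N M v w ≤ C * rho2 N M v w := by
  unfold kp3 rho2
  rw [mul_sum]
  refine sum_le_sum fun m _ => ?_
  rw [mul_sum]
  exact sum_le_sum fun m' _ => h _ _

lemma kp3_swap_Sym (N M : ℕ) {v : ℝ} (hv : 1 / 3 ≤ v) (w : ℝ) :
    kp3 N M v w ≤ 9 * kp3 N M v⁻¹ (w / v) := by
  have hv0 : 0 < v := by positivity
  unfold kp3
  rw [sum_comm, sum_congr rfl fun _ _ => sum_comm, sum_comm, mul_sum]
  refine sum_le_sum fun a _ => ?_
  rw [mul_sum]
  refine sum_le_sum fun b _ => ?_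
  rw [mul_sum]
  refine sum_le_sum fun c _ => ?_
  have e : (N : ℝ) * ((c : ℝ) * v + (b : ℝ) * w + (a : ℝ)) =
      v * ((N : ℝ) * ((a : ℝ) * v⁻¹ + (b : ℝ) * (w / v) + (c : ℝ))) := by
    field_simp
    ring
  rw [e]
  refine (kp_mul_le (A := 3) (by norm_num) (by rw [abs_of_pos hv0]; linarith) _).trans_eq ?_
  norm_num

lemma int_le_Sym {f H₁ H₂ : ℝ → ℝ} {a b v : ℝ} (hf : ∀ x, 0 ≤ f x) (c1 : Continuous H₁)
    (c2 : Continuous H₂) (n1 : ∀ x, 0 ≤ H₁ x) (n2 : ∀ x, 0 ≤ H₂ x) (ha : 0 ≤ a) (hb : 0 ≤ b)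
    (hv : v ∈ Set.Icc (1 / 3 : ℝ) 3)
    (h : ∀ w ∈ Set.Icc (1 / 3 : ℝ) 3, f w ≤ a * H₁ w + b * H₂ (w / v)) :
    ∫ w in (1 / 3 : ℝ)..3, f w ≤ a * II H₁ + 3 * b * II H₂ := by
  obtain ⟨hv1, hv2⟩ := hv
  have hv0 : 0 < v := by positivity
  have c3 : Continuous fun w => a * H₁ w := by fun_prop
  have c4 : Continuous fun w => b * H₂ (w / v) := by fun_prop
  refine (mono_Sym (by norm_num) hf (c3.fun_add c4).continuousOn h).trans ?_
  rw [intervalIntegral.integral_add (c3.intervalIntegrable _ _) (c4.intervalIntegrable _ _),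
    intervalIntegral.integral_const_mul, intervalIntegral.integral_const_mul,
    intervalIntegral.integral_comp_div H₂ hv0.ne', smul_eq_mul]
  have d1 := le_II_Sym (a := 1 / 3) (b := 3) (by norm_num) (by norm_num) (by norm_num) n1 c1
  have d2 := le_II_Sym (a := 1 / 3 / v) (b := 3 / v) (by rw [le_div_iff₀ hv0]; linarith)
    (div_le_div_of_nonneg_right (by norm_num) hv0.le) (by rw [div_le_iff₀ hv0]; linarith) n2 c2
  have d4 := (mul_le_mul_of_nonneg_left d2 hv0.le).trans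
    (mul_le_mul_of_nonneg_right hv2 (II_nonneg n2))
  have d5 := mul_le_mul_of_nonneg_left d1 ha
  have d6 := mul_le_mul_of_nonneg_left d4 hb
  linarith

lemma alg_Sym {p x y k r s C : ℝ} (hp : 0 ≤ p) (hk : 0 ≤ k)
    (h1 : k ≤ C * r) (h2 : k ≤ 9 * (C * s)) :
    p * x * y * k ≤ p * C * (y ^ 2 * r) + 9 * (p * C) * (x ^ 2 * s) := by
  have k3 : x * y ≤ y ^ 2 + x ^ 2 := by nlinarith [sq_nonneg (y - x), sq_nonneg (y + x)]
  have k4 := mul_le_mul_of_nonneg_right k3 hk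
  have k5 := mul_le_mul_of_nonneg_left h1 (sq_nonneg y)
  have k6 := mul_le_mul_of_nonneg_left h2 (sq_nonneg x)
  have k7 : x * y * k ≤ C * (y ^ 2 * r) + 9 * C * (x ^ 2 * s) := by linarith
  have k8 := mul_le_mul_of_nonneg_left k7 hp
  linarith

section Abs

variable {C : ℝ} {k R : ℝ → ℝ → ℝ} {φ ψ : ℝ → ℝ}

lemma inner_Sym (hC : 0 < C) (hR : Continuous fun p : ℝ × ℝ => R p.1 p.2) (R0 : ∀ v w, 0 ≤ R v w)
    (k0 : ∀ v w, 0 ≤ k v w) (h1 : ∀ v w, k v w ≤ C * R v w)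
    (h2 : ∀ v, 1 / 3 ≤ v → ∀ w, k v w ≤ 9 * k v⁻¹ (w / v)) (hφ : ∀ v, 0 ≤ φ v)
    (hψ : Continuous ψ) (he : ∀ x, 1 / 9 ≤ x → φ x = ψ x) {v : ℝ}
    (hv : v ∈ Set.Icc (1 / 3 : ℝ) 3) :
    ∫ w in (1 / 3 : ℝ)..3, φ v * φ (w / v) * φ w * k v w ≤
      φ v * C * (II fun x => ψ x ^ 2 * R v x) +
        3 * (9 * (φ v * C)) * (II fun x => ψ x ^ 2 * R v⁻¹ x) := by
  have hv0 : 0 < v := lt_of_lt_of_le (by norm_num) hv.1
  have c1 : ∀ y : ℝ, Continuous fun x => ψ x ^ 2 * R y x := fun y =>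
    (hψ.fun_pow 2).fun_mul (hR.comp (Continuous.prodMk_right y))
  have n1 : ∀ y x : ℝ, 0 ≤ ψ x ^ 2 * R y x := fun y x => mul_nonneg (sq_nonneg _) (R0 _ _)
  have p0 := mul_nonneg (hφ v) hC.le
  refine int_le_Sym (fun w => mul_nonneg (mul_nonneg (mul_nonneg (hφ _) (hφ _)) (hφ _)) (k0 _ _))
    (c1 v) (c1 v⁻¹) (n1 v) (n1 v⁻¹) p0 (mul_nonneg (by norm_num) p0) hv fun w hw => ?_
  have b1 : 1 / 9 ≤ w / v := by
    rw [le_div_iff₀ hv0]
    linarith [hw.1, hv.2]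
  rw [← he w (by linarith [hw.1]), ← he _ b1]
  exact alg_Sym (hφ _) (k0 _ _) (h1 v w)
    ((h2 v hv.1 w).trans (mul_le_mul_of_nonneg_left (h1 v⁻¹ (w / v)) (by norm_num)))

lemma main_Sym (hC : 0 < C) (hR : Continuous fun p : ℝ × ℝ => R p.1 p.2) (R0 : ∀ v w, 0 ≤ R v w)
    (k0 : ∀ v w, 0 ≤ k v w) (h1 : ∀ v w, k v w ≤ C * R v w)
    (h2 : ∀ v, 1 / 3 ≤ v → ∀ w, k v w ≤ 9 * k v⁻¹ (w / v)) (hφc : ContinuousOn φ (Set.Ioi 0))
    (hφ : ∀ v, 0 ≤ φ v) (hφi : ∀ v, φ v⁻¹ = φ v) :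
    ∫ v in (1 / 3 : ℝ)..3, ∫ w in (1 / 3 : ℝ)..3, φ v * φ (w / v) * φ w * k v w ≤
      244 * C * II fun v => II fun w => φ v * φ w ^ 2 * R v w := by
  obtain ⟨ψ, hψ, hψ0, he⟩ : ∃ ψ : ℝ → ℝ, Continuous ψ ∧ (∀ x, 0 ≤ ψ x) ∧
      ∀ x, 1 / 9 ≤ x → φ x = ψ x :=
    ⟨fun x => φ (max x (1 / 9)), hφc.comp_continuous (continuous_id.max continuous_const)
      fun x => lt_max_of_lt_right (show (0 : ℝ) < 1 / 9 by norm_num), fun x => hφ _,
      fun x hx => congrArg φ (max_eq_left hx).symm⟩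
  obtain ⟨K, hK⟩ : ∃ K : ℝ → ℝ, ∀ y, K y = ψ y * II fun x => ψ x ^ 2 * R y x := ⟨_, fun _ => rfl⟩
  have c0 : Continuous fun p : ℝ × ℝ => ψ p.2 ^ 2 * R p.1 p.2 :=
    ((hψ.comp continuous_snd).fun_pow 2).fun_mul hR
  have hKc : Continuous K := funext hK ▸ hψ.fun_mul
    (intervalIntegral.continuous_parametric_intervalIntegral_of_continuous'
      (f := fun y x => ψ x ^ 2 * R y x) c0 _ _)
  have hK0 : ∀ y, 0 ≤ K y := fun y => hK y ▸ mul_nonneg (hψ0 y)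
    (II_nonneg fun x => mul_nonneg (sq_nonneg _) (R0 _ _))
  have hP : (II fun v => II fun w => φ v * φ w ^ 2 * R v w) = II K := by
    refine II_congr_Sym fun v hv => ?_
    rw [hK]
    refine (II_congr_Sym fun w hw => ?_).trans (intervalIntegral.integral_const_mul _ _)
    rw [he v hv, he w hw, mul_assoc]
  have c1 : Continuous fun v => C * K v := by fun_prop
  have c2 : ContinuousOn (fun v => 243 * C * (K v⁻¹ * (v ^ 2)⁻¹)) (Set.Icc (1 / 3 : ℝ) 3) :=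
    continuousOn_const.fun_mul (inv_cont_Sym hKc)
  have h3 : ∫ v in (1 / 3 : ℝ)..3, ∫ w in (1 / 3 : ℝ)..3, φ v * φ (w / v) * φ w * k v w ≤
      ∫ v in (1 / 3 : ℝ)..3, (C * K v + 243 * C * (K v⁻¹ * (v ^ 2)⁻¹)) := by
    refine mono_Sym (by norm_num) (fun v => intervalIntegral.integral_nonneg (by norm_num)
      fun w _ => mul_nonneg (mul_nonneg (mul_nonneg (hφ _) (hφ _)) (hφ _)) (k0 _ _))
      (c1.continuousOn.fun_add c2)
      fun v hv => (inner_Sym hC hR R0 k0 h1 h2 hφ hψ he hv).trans ?_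
    obtain ⟨hv1, hv2⟩ := hv
    have hv0 : 0 < v := by positivity
    have e1 : φ v = ψ v := he v (by linarith)
    have e2 : φ v = ψ v⁻¹ := by
      rw [← hφi, he]
      rw [le_inv_comm₀ (by norm_num) hv0]
      linarith
    have e3 : 1 ≤ 9 * (v ^ 2)⁻¹ := by
      rw [← div_eq_mul_inv, le_div_iff₀ (by positivity)]
      nlinarith
    have e4 := mul_le_mul_of_nonneg_left e3 (mul_nonneg hC.le (hK0 v⁻¹))
    have e5 : C * K v = C * (φ v * II fun x => ψ x ^ 2 * R v x) := by rw [hK, e1]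
    have e6 : C * K v⁻¹ = C * (φ v * II fun x => ψ x ^ 2 * R v⁻¹ x) := by rw [hK, e2]
    linarith
  rw [intervalIntegral.integral_add (c1.intervalIntegrable _ _)
    (c2.intervalIntegrable_of_Icc (by norm_num)), intervalIntegral.integral_const_mul,
    intervalIntegral.integral_const_mul, inv_int_Sym hKc] at h3
  have h4 := mul_le_mul_of_nonneg_left
    (le_II_Sym (a := 1 / 3) (b := 3) (by norm_num) (by norm_num) (by norm_num) hK0 hKc) hC.le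
  rw [hP]
  linarith

end Abs

theorem sym_stmt (hM : PhMajStmt) : SymStmt := by
  obtain ⟨C, hC, hM⟩ := hM
  exact ⟨244 * C, by positivity, fun N M hN φ hφc hφ hφi =>
    main_Sym (k := kp3 N M) (R := rho2 N M) hC (continuous_rho2 N M) (rho2_nonneg N M)
      (kp3_nonneg N M) (kp3_le_Sym (hM N hN) M) (fun _ hv => kp3_swap_Sym N M hv) hφc hφ hφi⟩

end Pool.Agent.MP_2a1f0e_nt.GM
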