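import Pool.Agent.MP_2a1f0e_nt.GM.Basic

set_option autoImplicit false

open Finset

namespace Pool.Agent.MP_2a1f0e_nt.GM

/-- the coefficients of the Taylor expansion -/
noncomputable def co_Tay (N : ℕ) (b : ℕ → ℂ) (j n : ℕ) : ℂ :=
  if n ∈ Icc N (2 * N) then b n * (Complex.I * ((Real.log ((n : ℝ) / N) : ℝ) : ℂ)) ^ j else 0

lemma norm_co_Tay {N : ℕ} (hN : 1 ≤ N) {b : ℕ → ℂ} (hb : ∀ n, ‖b n‖ ≤ 1) (j n : ℕ) :
    ‖co_Tay N b j n‖ ≤ 1 := by
  unfold co_Tay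
  split_ifs with h
  · obtain ⟨h1, h2⟩ := mem_Icc.1 h
    have N0 : (0 : ℝ) < N := by exact_mod_cast hN
    have h3 : (1 : ℝ) ≤ (n : ℝ) / N := (one_le_div N0).2 (by exact_mod_cast h1)
    have h4 : (n : ℝ) / N ≤ 2 := (div_le_iff₀ N0).2 (by exact_mod_cast h2)
    have h5 : Real.log ((n : ℝ) / N) ≤ 1 :=
      (Real.log_le_sub_one_of_pos (by linarith)).trans (by linarith)
    rw [norm_mul, norm_pow, norm_mul, Complex.norm_I, one_mul, Complex.norm_real,
      Real.norm_of_nonneg (Real.log_nonneg h3)]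
    exact mul_le_one₀ (hb n) (pow_nonneg (Real.log_nonneg h3) j)
      (pow_le_one₀ (Real.log_nonneg h3) h5)
  · simp

lemma hasSum_Tay {N : ℕ} (hN : 1 ≤ N) (b : ℕ → ℂ) (m θ : ℝ) :
    HasSum (fun j : ℕ => (θ : ℂ) ^ j / (j.factorial : ℂ) * DP N (co_Tay N b j) m)
      (DP N b (m + θ) * pw (N : ℝ) (-θ)) := by
  unfold DP
  simp only [mul_sum, sum_mul]
  refine hasSum_sum fun n hn => ?_
  have N0 : (N : ℝ) ≠ 0 := by exact_mod_cast (by omega : N ≠ 0)
  have n0 : (n : ℝ) ≠ 0 := by exact_mod_cast (by have := (mem_Icc.1 hn).1; omega : n ≠ 0)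
  have h := (NormedSpace.expSeries_div_hasSum_exp
    (Complex.I * (θ : ℂ) * ((Real.log ((n : ℝ) / N) : ℝ) : ℂ))).mul_left (b n * pw (n : ℝ) m)
  rw [← Complex.exp_eq_exp_ℂ] at h
  have e1 : b n * pw (n : ℝ) (m + θ) * pw (N : ℝ) (-θ) = b n * pw (n : ℝ) m *
      Complex.exp (Complex.I * (θ : ℂ) * ((Real.log ((n : ℝ) / N) : ℝ) : ℂ)) := by
    change _ = b n * pw (n : ℝ) m * pw ((n : ℝ) / N) θ
    rw [pw_add, pw_div n0 N0]
    ring
  rw [e1]
  have e2 : ∀ j : ℕ, (θ : ℂ) ^ j / (j.factorial : ℂ) * (co_Tay N b j n * pw (n : ℝ) m) =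
      b n * pw (n : ℝ) m * ((Complex.I * (θ : ℂ) * ((Real.log ((n : ℝ) / N) : ℝ) : ℂ)) ^ j /
        (j.factorial : ℂ)) := fun j => by
    rw [co_Tay, if_pos hn, mul_pow, mul_pow, mul_pow]
    ring
  simp only [e2]
  exact h

theorem tay_stmt : TayStmt := by
  intro N T V Z hN hV hZ b hb W hW hsep hlow
  have hE : HasSum (fun j : ℕ => (1 : ℝ) / (j.factorial : ℝ)) (Real.exp 1) := by
    have := NormedSpace.expSeries_div_hasSum_exp (1 : ℝ)
    rw [← Real.exp_eq_exp_ℝ] at this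
    simpa using this
  have e3 : Real.exp 1 ≤ 3 := Real.exp_one_lt_three.le
  let g : ℕ → ℤ → ℝ := fun j m =>
    if V / 6 ≤ ‖DP N (co_Tay N b j) m‖ then ‖DP N (co_Tay N b j) m‖ ^ 2 else 0
  have g0 : ∀ j m, 0 ≤ g j m := fun j m => by
    simp only [g]
    split_ifs <;> positivity
  have g1 : ∀ j m, g j m ≤ ((N : ℝ) + 1) ^ 2 := fun j m => by
    simp only [g]
    split_ifs
    · exact pow_le_pow_left₀ (norm_nonneg _) (norm_DP_le N _ (norm_co_Tay hN hb j) _) 2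
    · positivity
  have gs : ∀ m, Summable fun j : ℕ => g j m * (1 / (j.factorial : ℝ)) := fun m =>
    Summable.of_nonneg_of_le (fun j => mul_nonneg (g0 j m) (by positivity))
      (fun j => mul_le_mul_of_nonneg_right (g1 j m) (by positivity)) (hE.summable.mul_left _)
  have h1 : ∀ t ∈ W, ‖DP N b t‖ ^ 2 ≤ 12 * ∑' j : ℕ, g j ⌊t⌋ * (1 / (j.factorial : ℝ)) := by
    intro t ht
    have hD := hlow t ht
    have h2 := (hasSum_Tay hN b (⌊t⌋ : ℝ) (Int.fract t)).mul_left ((‖DP N b t‖ : ℝ) : ℂ)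
    rw [Int.floor_add_fract] at h2
    have h3 := h2.norm_le_of_bounded
      ((hE.mul_left (‖DP N b t‖ ^ 2 / 4)).add ((gs ⌊t⌋).hasSum.mul_left 3)) fun j => by
        have f0 : (0 : ℝ) ≤ 1 / (j.factorial : ℝ) := by positivity
        have a0 := norm_nonneg (DP N (co_Tay N b j) (⌊t⌋ : ℝ))
        have k1 : ‖DP N b t‖ * ‖DP N (co_Tay N b j) (⌊t⌋ : ℝ)‖ ≤
            ‖DP N b t‖ ^ 2 / 4 + 3 * g j ⌊t⌋ := by
          simp only [g]
          split_ifs with h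
          · nlinarith [sq_nonneg (‖DP N (co_Tay N b j) (⌊t⌋ : ℝ)‖ - ‖DP N b t‖ / 6),
              sq_nonneg ‖DP N b t‖]
          · nlinarith [norm_nonneg (DP N b t)]
        have k2 : ‖((Int.fract t : ℝ) : ℂ) ^ j / (j.factorial : ℂ)‖ ≤ 1 / (j.factorial : ℝ) := by
          rw [norm_div, norm_pow, Complex.norm_real, Complex.norm_natCast,
            Real.norm_of_nonneg (Int.fract_nonneg t)]
          exact div_le_div_of_nonneg_right
            (pow_le_one₀ (Int.fract_nonneg t) (Int.fract_lt_one t).le) (by positivity)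
        rw [norm_mul, norm_mul, Complex.norm_real, norm_norm]
        calc _ ≤ ‖DP N b t‖ * (1 / (j.factorial : ℝ) * ‖DP N (co_Tay N b j) (⌊t⌋ : ℝ)‖) := by
              gcongr
          _ = ‖DP N b t‖ * ‖DP N (co_Tay N b j) (⌊t⌋ : ℝ)‖ * (1 / (j.factorial : ℝ)) := by ring
          _ ≤ (‖DP N b t‖ ^ 2 / 4 + 3 * g j ⌊t⌋) * (1 / (j.factorial : ℝ)) :=
              mul_le_mul_of_nonneg_right k1 f0
          _ = _ := by ring
    rw [norm_mul, norm_mul, Complex.norm_real, norm_norm, norm_pw, mul_one] at h3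
    have := mul_le_mul_of_nonneg_left e3 (show 0 ≤ ‖DP N b t‖ ^ 2 / 4 by positivity)
    nlinarith
  have h2 : ∀ j, ∑ t ∈ W, g j ⌊t⌋ ≤ Z := fun j => by
    refine le_trans ?_ (hZ _ (norm_co_Tay hN hb j))
    rw [Mass, sum_filter, ← sum_image (g := fun t : ℝ => ⌊t⌋) (f := g j) fun s hs t ht e => by
      by_contra hne
      exact absurd (hsep s hs t ht hne) (not_le.2 (Int.abs_sub_lt_one_of_floor_eq_floor e))]
    refine sum_le_sum_of_subset_of_nonneg (fun m hm => ?_) fun m _ _ => g0 j m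
    obtain ⟨t, ht, rfl⟩ := mem_image.1 hm
    refine mem_Icc.2 ⟨Int.floor_nonneg.2 (hW t ht).1, Int.lt_add_one_iff.1 (Int.floor_lt.2 ?_)⟩
    exact_mod_cast (hW t ht).2
  have Z0 : 0 ≤ Z := (Mass_nonneg _ _ _ _).trans (hZ b hb)
  have h3 := hasSum_le (fun j => by
      rw [← sum_mul]
      exact mul_le_mul_of_nonneg_right (h2 j) (by positivity))
    (hasSum_sum fun t (_ : t ∈ W) => (gs ⌊t⌋).hasSum) (hE.mul_left Z)
  have h4 := sum_le_sum h1
  rw [← mul_sum] at h4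
  have := mul_le_mul_of_nonneg_left e3 Z0
  linarith

end Pool.Agent.MP_2a1f0e_nt.GM
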