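import Pool.Agent.MP_2a1f0e_nt.GM.Basic

set_option autoImplicit false

open Finset MeasureTheory

namespace Pool.Agent.MP_2a1f0e_nt.GM

namespace Three

/-- globally continuous version of `pw` -/
noncomputable def pc (x u : ℝ) : ℂ := pw (max x (1 / 10)) u

lemma continuous_pc (u : ℝ) : Continuous fun x => pc x u := by
  unfold pc
  refine (continuousOn_pw u).comp_continuous (by fun_prop) fun x => ?_
  exact lt_of_lt_of_le (by norm_num) (le_max_right x (1 / 10 : ℝ))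

lemma pc_eq {x : ℝ} (hx : 1 / 10 ≤ x) (u : ℝ) : pc x u = pw x u := by
  unfold pc
  rw [max_eq_left hx]

lemma swap2 {F : ℝ → ℝ → ℂ} (hF : Continuous (Function.uncurry F)) (a b c d : ℝ) :
    ∫ x in a..b, ∫ y in c..d, F x y = ∫ y in c..d, ∫ x in a..b, F x y := by
  apply intervalIntegral_intervalIntegral_swap
  have hK : IsCompact (Set.uIcc a b ×ˢ Set.uIcc c d) := isCompact_uIcc.prod isCompact_uIcc
  exact (hF.continuousOn.integrableOn_compact hK).mono_set
    (Set.prod_mono Set.uIoc_subset_uIcc Set.uIoc_subset_uIcc)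

lemma HH_scale {r : ℝ} (h1 : 3 / 4 ≤ r) (h2 : r ≤ 9 / 4) (al x : ℝ) :
    HH al x = (r : ℂ) * pw r al *
      ∫ v in (1 / 3 : ℝ)..3, (Wt (r * v) : ℂ) * pc v al * ex (-(x * (r * v))) := by
  have hr : 0 < r := by linarith
  set G : ℝ → ℂ := fun y => (Wt y : ℂ) * pw y al * ex (-(x * y)) with hG
  have e1 := Measure.integral_comp_mul_left G r
  have e2 : ∫ v in (1 / 3 : ℝ)..3, G (r * v) = ∫ v, G (r * v) := by
    apply intervalIntegral.integral_eq_integral_of_support_subset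
    intro v hv
    have hW : Wt (r * v) ≠ 0 := by
      intro h0
      apply hv
      simp [hG, h0]
    obtain ⟨a1, a2⟩ := mem_of_Wt_ne_zero hW
    constructor
    · by_contra hc
      push Not at hc
      nlinarith
    · by_contra hc
      push Not at hc
      nlinarith
  have e3 : ∫ v in (1 / 3 : ℝ)..3, G (r * v) = pw r al *
      ∫ v in (1 / 3 : ℝ)..3, (Wt (r * v) : ℂ) * pc v al * ex (-(x * (r * v))) := by
    rw [← intervalIntegral.integral_const_mul]
    apply intervalIntegral.integral_congr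
    intro v hv
    rw [Set.uIcc_of_le (by norm_num)] at hv
    have hv0 : 0 < v := by linarith [hv.1]
    simp only [hG]
    rw [pw_mul hr.ne' hv0.ne', pc_eq (by linarith [hv.1])]
    ring
  have e4 : HH al x = ∫ y, G y := rfl
  rw [e4, mul_assoc, ← e3, e2, e1, abs_of_pos (inv_pos.2 hr), Complex.real_smul, ← mul_assoc]
  have : (r : ℂ) ≠ 0 := by exact_mod_cast hr.ne'
  push_cast
  rw [mul_inv_cancel₀ this, one_mul]

/-- radial integrand -/
noncomputable def rad (v w η r : ℝ) : ℂ :=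
  ((r ^ 2 * Wt r * Wt (r * v) * Wt (r * w) : ℝ) : ℂ) * ex (-(η * r))

noncomputable def R3 (v w η : ℝ) : ℂ := ∫ r in (3 / 4 : ℝ)..(9 / 4), rad v w η r

lemma R3_eq (v w η : ℝ) : R3 v w η = ∫ r, rad v w η r := by
  apply intervalIntegral.integral_eq_integral_of_support_subset
  intro r hr
  have hW : Wt r ≠ 0 := by
    intro h0
    apply hr
    simp [rad, h0]
  obtain ⟨a1, a2⟩ := mem_of_Wt_ne_zero hW
  exact ⟨a1, a2.le⟩

lemma continuous_rad (x₁ x₂ x₃ : ℝ) :
    Continuous fun p : ℝ × ℝ × ℝ => rad p.1 p.2.1 (x₁ * p.1 + x₂ * p.2.1 + x₃) p.2.2 := by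
  unfold rad
  have h1 := continuous_Wt
  have h2 := continuous_ex
  fun_prop

lemma continuous_R3 (x₁ x₂ x₃ : ℝ) :
    Continuous fun p : ℝ × ℝ => R3 p.1 p.2 (x₁ * p.1 + x₂ * p.2 + x₃) := by
  unfold R3
  apply intervalIntegral.continuous_parametric_intervalIntegral_of_continuous'
  exact (continuous_rad x₁ x₂ x₃).comp
    (f := fun q : (ℝ × ℝ) × ℝ => (q.1.1, q.1.2, q.2)) (by fun_prop)

lemma key {al be ga : ℝ} (h : al + be + ga = 0) (x₁ x₂ x₃ : ℝ) :
    HH al x₁ * HH be x₂ * HH ga x₃ = ∫ v in (1 / 3 : ℝ)..3, ∫ w in (1 / 3 : ℝ)..3,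
      pc v al * pc w be * R3 v w (x₁ * v + x₂ * w + x₃) := by
  set F : ℝ → ℝ → ℝ → ℂ := fun r v w =>
    pc v al * pc w be * rad v w (x₁ * v + x₂ * w + x₃) r with hF
  have cF : Continuous fun p : ℝ × ℝ × ℝ => F p.1 p.2.1 p.2.2 := by
    simp only [hF]
    refine (((continuous_pc al).comp (by fun_prop)).mul
      ((continuous_pc be).comp (by fun_prop))).mul ?_
    exact (continuous_rad x₁ x₂ x₃).comp
      (f := fun q : ℝ × ℝ × ℝ => (q.2.1, q.2.2, q.1)) (by fun_prop)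
  have e1 : HH ga x₃ = ∫ r in (3 / 4 : ℝ)..(9 / 4), (Wt r : ℂ) * pw r ga * ex (-(x₃ * r)) := by
    symm
    apply intervalIntegral.integral_eq_integral_of_support_subset
    intro r hr
    have hW : Wt r ≠ 0 := by
      intro h0
      apply hr
      simp [h0]
    obtain ⟨a1, a2⟩ := mem_of_Wt_ne_zero hW
    exact ⟨a1, a2.le⟩
  have e2 : HH al x₁ * HH be x₂ * HH ga x₃ = ∫ r in (3 / 4 : ℝ)..(9 / 4),
      ∫ v in (1 / 3 : ℝ)..3, ∫ w in (1 / 3 : ℝ)..3, F r v w := by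
    rw [e1, ← intervalIntegral.integral_const_mul]
    apply intervalIntegral.integral_congr
    intro r hr
    rw [Set.uIcc_of_le (by norm_num)] at hr
    have hp : pw r al * pw r be * pw r ga = 1 := by
      rw [← pw_add, ← pw_add, h, pw_zero]
    simp only
    rw [HH_scale hr.1 hr.2 al x₁, HH_scale hr.1 hr.2 be x₂]
    set A : ℝ → ℂ := fun v => (Wt (r * v) : ℂ) * pc v al * ex (-(x₁ * (r * v))) with hA
    set B : ℝ → ℂ := fun w => (Wt (r * w) : ℂ) * pc w be * ex (-(x₂ * (r * w))) with hB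
    have e : ∀ v w, F r v w = ((r : ℂ) ^ 2 * Wt r * ex (-(x₃ * r)) * A v) * B w := by
      intro v w
      simp only [hF, hA, hB, rad]
      rw [show -((x₁ * v + x₂ * w + x₃) * r) =
        -(x₁ * (r * v)) + -(x₂ * (r * w)) + -(x₃ * r) by ring, ex_add, ex_add]
      push_cast
      ring
    simp_rw [e, intervalIntegral.integral_const_mul, intervalIntegral.integral_mul_const,
      intervalIntegral.integral_const_mul]
    linear_combination ((r : ℂ) ^ 2 * Wt r * ex (-(x₃ * r)) * (∫ v in (1 / 3 : ℝ)..3, A v) *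
      (∫ w in (1 / 3 : ℝ)..3, B w)) * hp
  rw [e2, swap2]
  · apply intervalIntegral.integral_congr
    intro v _
    simp only
    rw [swap2]
    · apply intervalIntegral.integral_congr
      intro w _
      simp only [hF, R3]
      rw [intervalIntegral.integral_const_mul]
    · exact cF.comp (f := fun q : ℝ × ℝ => (q.1, v, q.2)) (by fun_prop)
  · apply intervalIntegral.continuous_parametric_intervalIntegral_of_continuous'
      (f := fun (q : ℝ × ℝ) w => F q.1 q.2 w)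
    exact cF.comp (f := fun q : (ℝ × ℝ) × ℝ => (q.1.1, q.1.2, q.2)) (by fun_prop)

lemma DI_sum {ι : Type*} (s : Finset ι) (f : ι → ℝ → ℝ → ℂ)
    (hf : ∀ i, Continuous (Function.uncurry (f i))) (a b c d : ℝ) :
    ∑ i ∈ s, ∫ v in a..b, ∫ w in c..d, f i v w =
      ∫ v in a..b, ∫ w in c..d, ∑ i ∈ s, f i v w := by
  rw [← intervalIntegral.integral_finsetSum]
  · apply intervalIntegral.integral_congr
    intro v _
    simp only
    rw [intervalIntegral.integral_finsetSum]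
    intro i _
    exact ((hf i).comp (f := fun w : ℝ => (v, w)) (by fun_prop)).intervalIntegrable _ _
  · intro i _
    exact (intervalIntegral.continuous_parametric_intervalIntegral_of_continuous' (hf i)
      c d).intervalIntegrable _ _

/-- one term of the expanded cubic trace -/
noncomputable def tm (N : ℕ) (ν : ℤ → ℝ) (i : (ℤ × ℤ × ℤ) × (ℤ × ℤ × ℤ)) (v w : ℝ) : ℂ :=
  ((ν i.1.1 * ν i.1.2.1 * ν i.1.2.2 : ℝ) : ℂ) *
    (pc v ((i.1.1 : ℝ) - i.1.2.1) * pc w ((i.1.2.1 : ℝ) - i.1.2.2) *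
      R3 v w ((i.2.1 : ℝ) * N * v + (i.2.2.1 : ℝ) * N * w + (i.2.2.2 : ℝ) * N))

lemma continuous_tm (N : ℕ) (ν : ℤ → ℝ) (i : (ℤ × ℤ × ℤ) × (ℤ × ℤ × ℤ)) :
    Continuous (Function.uncurry (tm N ν i)) := by
  unfold tm Function.uncurry
  exact continuous_const.mul ((((continuous_pc _).comp continuous_fst).mul
    ((continuous_pc _).comp continuous_snd)).mul (continuous_R3 _ _ _))

lemma Q3_eq (N M : ℕ) (s : Finset ℤ) (ν : ℤ → ℝ) :
    Q3 N M s ν = (N : ℂ) ^ 3 * ∫ v in (1 / 3 : ℝ)..3, ∫ w in (1 / 3 : ℝ)..3,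
      ∑ i ∈ (s ×ˢ s ×ˢ s) ×ˢ (Ms M ×ˢ Ms M ×ˢ Ms M), tm N ν i v w := by
  rw [← DI_sum _ _ (continuous_tm N ν), sum_product, mul_sum]
  unfold Q3
  rw [sum_product]
  refine sum_congr rfl fun a _ => ?_
  rw [sum_product]
  refine sum_congr rfl fun b _ => sum_congr rfl fun c _ => ?_
  have hp : pw (N : ℝ) ((a : ℝ) - b) * pw (N : ℝ) ((b : ℝ) - c) * pw (N : ℝ) ((c : ℝ) - a) = 1 := by
    rw [← pw_add, ← pw_add, show (a : ℝ) - b + ((b : ℝ) - c) + ((c : ℝ) - a) = 0 by ring, pw_zero]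
  have e : ∀ m : ℤ × ℤ × ℤ, (∫ v in (1 / 3 : ℝ)..3, ∫ w in (1 / 3 : ℝ)..3,
      tm N ν ((a, b, c), m) v w) = ((ν a * ν b * ν c : ℝ) : ℂ) *
        (HH ((a : ℝ) - b) ((m.1 : ℝ) * N) * HH ((b : ℝ) - c) ((m.2.1 : ℝ) * N) *
          HH ((c : ℝ) - a) ((m.2.2 : ℝ) * N)) := by
    intro m
    rw [key (by ring)]
    simp only [tm, intervalIntegral.integral_const_mul]
  rw [sum_congr rfl fun m _ => e m, ← mul_sum]
  have e2 : ∑ m ∈ Ms M ×ˢ Ms M ×ˢ Ms M,
      HH ((a : ℝ) - b) ((m.1 : ℝ) * N) * HH ((b : ℝ) - c) ((m.2.1 : ℝ) * N) *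
          HH ((c : ℝ) - a) ((m.2.2 : ℝ) * N) =
      (∑ m ∈ Ms M, HH ((a : ℝ) - b) ((m : ℝ) * N)) * (∑ m ∈ Ms M, HH ((b : ℝ) - c) ((m : ℝ) * N)) *
        ∑ m ∈ Ms M, HH ((c : ℝ) - a) ((m : ℝ) * N) := by
    rw [mul_assoc, sum_mul_sum (Ms M) (Ms M), ← sum_product', sum_mul_sum, sum_product]
    refine sum_congr rfl fun m _ => sum_congr rfl fun m' _ => ?_
    ring
  rw [e2]
  unfold Kb
  linear_combination (((ν a * ν b * ν c : ℝ) : ℂ) * (N : ℂ) ^ 3 *
    (∑ m ∈ Ms M, HH ((a : ℝ) - b) ((m : ℝ) * N)) * (∑ m ∈ Ms M, HH ((b : ℝ) - c) ((m : ℝ) * N)) *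
        ∑ m ∈ Ms M, HH ((c : ℝ) - a) ((m : ℝ) * N)) * hp

lemma sum_tm (N M : ℕ) (s : Finset ℤ) (ν : ℤ → ℝ) {v w : ℝ} (hv : 1 / 3 ≤ v) (hw : 1 / 3 ≤ w) :
    ∑ i ∈ (s ×ˢ s ×ˢ s) ×ˢ (Ms M ×ˢ Ms M ×ˢ Ms M), tm N ν i v w =
      FT s ν v * FT s ν (w / v) * FT s ν w⁻¹ * ∑ m ∈ Ms M ×ˢ Ms M ×ˢ Ms M,
        R3 v w ((m.1 : ℝ) * N * v + (m.2.1 : ℝ) * N * w + (m.2.2 : ℝ) * N) := by
  have hv0 : v ≠ 0 := by linarith [hv, (by norm_num : (0 : ℝ) < 1 / 3)] |> fun h : 0 < v => h.ne'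
  have hw0 : w ≠ 0 := by linarith [hw, (by norm_num : (0 : ℝ) < 1 / 3)] |> fun h : 0 < w => h.ne'
  have e : FT s ν v * FT s ν (w / v) * FT s ν w⁻¹ = ∑ a ∈ s ×ˢ s ×ˢ s,
      ((ν a.1 * ν a.2.1 * ν a.2.2 : ℝ) : ℂ) *
        (pc v ((a.1 : ℝ) - a.2.1) * pc w ((a.2.1 : ℝ) - a.2.2)) := by
    unfold FT
    rw [mul_assoc, sum_mul_sum s s, ← sum_product', sum_mul_sum, sum_product]
    refine sum_congr rfl fun a _ => sum_congr rfl fun b _ => ?_
    rw [pc_eq (by linarith), pc_eq (by linarith), pw_div hw0 hv0, pw_inv, sub_eq_add_neg,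
      sub_eq_add_neg, pw_add, pw_add]
    push_cast
    ring
  rw [e, sum_mul_sum, sum_product]
  refine sum_congr rfl fun a _ => sum_congr rfl fun m _ => ?_
  unfold tm
  ring

end Three

open Three in
theorem three_stmt (hR : RadStmt) : ThreeStmt := by
  obtain ⟨C, hC, hR⟩ := hR
  refine ⟨C, hC, fun N M _ s ν => ?_⟩
  set φ : ℝ → ℝ := fun x => ‖FT s ν (max x (1 / 10))‖ with hφ
  have cφ : Continuous φ := by
    refine ((continuousOn_FT s ν).comp_continuous (by fun_prop) fun x => ?_).norm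
    exact lt_of_lt_of_le (by norm_num) (le_max_right x (1 / 10 : ℝ))
  have eφ : ∀ x : ℝ, 1 / 10 ≤ x → φ x = ‖FT s ν x‖ := fun x hx => by
    simp only [hφ]
    rw [max_eq_left hx]
  set G : ℝ → ℝ → ℝ := fun v w =>
    φ v * φ (w / max v (1 / 3)) * φ w * kp3 N M v w with hG
  have cG : Continuous (Function.uncurry G) := by
    have h1 : Continuous fun p : ℝ × ℝ => p.2 / max p.1 (1 / 3 : ℝ) :=
      continuous_snd.div (by fun_prop) fun p =>
        (lt_of_lt_of_le (by norm_num) (le_max_right p.1 (1 / 3 : ℝ))).ne'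
    exact (((cφ.comp continuous_fst).mul (cφ.comp h1)).mul (cφ.comp continuous_snd)).mul
      (continuous_kp3 N M)
  have eG : ∀ v w : ℝ, v ∈ Set.Icc (1 / 3 : ℝ) 3 → w ∈ Set.Icc (1 / 3 : ℝ) 3 →
      G v w = ‖FT s ν v‖ * ‖FT s ν (w / v)‖ * ‖FT s ν w‖ * kp3 N M v w := by
    intro v w hv hw
    have hv0 : 0 < v := by linarith [hv.1]
    have h1 : 1 / 10 ≤ w / v := by
      rw [le_div_iff₀ hv0]
      linarith [hv.2, hw.1]
    simp only [hG]
    rw [max_eq_left hv.1, eφ v (by linarith [hv.1]), eφ w (by linarith [hw.1]), eφ _ h1]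
  have eT : Tri N M (fun v => ‖FT s ν v‖) =
      ∫ v in (1 / 3 : ℝ)..3, ∫ w in (1 / 3 : ℝ)..3, G v w := by
    unfold Tri
    apply intervalIntegral.integral_congr
    intro v hv
    rw [Set.uIcc_of_le (by norm_num)] at hv
    apply intervalIntegral.integral_congr
    intro w hw
    rw [Set.uIcc_of_le (by norm_num)] at hw
    exact (eG v w hv hw).symm
  have hb : ‖∫ v in (1 / 3 : ℝ)..3, ∫ w in (1 / 3 : ℝ)..3,
      ∑ i ∈ (s ×ˢ s ×ˢ s) ×ˢ (Ms M ×ˢ Ms M ×ˢ Ms M), tm N ν i v w‖ ≤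
      ∫ v in (1 / 3 : ℝ)..3, C * ∫ w in (1 / 3 : ℝ)..3, G v w := by
    refine intervalIntegral.norm_integral_le_of_norm_le (by norm_num)
      (Filter.Eventually.of_forall fun v hv => ?_) ?_
    · rw [← intervalIntegral.integral_const_mul]
      refine intervalIntegral.norm_integral_le_of_norm_le (by norm_num)
        (Filter.Eventually.of_forall fun w hw => ?_) ?_
      · have hv' : v ∈ Set.Icc (1 / 3 : ℝ) 3 := ⟨hv.1.le, hv.2⟩
        have hw' : w ∈ Set.Icc (1 / 3 : ℝ) 3 := ⟨hw.1.le, hw.2⟩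
        rw [sum_tm N M s ν hv'.1 hw'.1, eG v w hv' hw', norm_mul, norm_mul, norm_mul,
          norm_FT_inv]
        have h1 : ‖∑ m ∈ Ms M ×ˢ Ms M ×ˢ Ms M,
            R3 v w ((m.1 : ℝ) * N * v + (m.2.1 : ℝ) * N * w + (m.2.2 : ℝ) * N)‖ ≤
            C * kp3 N M v w := by
          refine (norm_sum_le _ _).trans ?_
          unfold kp3
          rw [sum_product, mul_sum]
          refine sum_le_sum fun m₁ _ => ?_
          rw [sum_product, mul_sum]
          refine sum_le_sum fun m₂ _ => ?_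
          rw [mul_sum]
          refine sum_le_sum fun m₃ _ => ?_
          rw [R3_eq, show (N : ℝ) * ((m₁ : ℝ) * v + (m₂ : ℝ) * w + (m₃ : ℝ)) =
            (m₁ : ℝ) * N * v + (m₂ : ℝ) * N * w + (m₃ : ℝ) * N by ring]
          exact (hR v w _ hv' hw').2
        calc _ ≤ ‖FT s ν v‖ * ‖FT s ν (w / v)‖ * ‖FT s ν w‖ * (C * kp3 N M v w) := by
              gcongr
          _ = _ := by ring
      · exact (continuous_const.mul
          (cG.comp (f := fun w : ℝ => (v, w)) (by fun_prop))).intervalIntegrable _ _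
    · exact (continuous_const.mul
        (intervalIntegral.continuous_parametric_intervalIntegral_of_continuous' cG
          _ _)).intervalIntegrable _ _
  rw [Q3_eq, norm_mul, norm_pow, Complex.norm_natCast, eT]
  rw [intervalIntegral.integral_const_mul] at hb
  calc _ ≤ (N : ℝ) ^ 3 * (C * ∫ v in (1 / 3 : ℝ)..3, ∫ w in (1 / 3 : ℝ)..3, G v w) := by
        gcongr
    _ = _ := by ring

end Pool.Agent.MP_2a1f0e_nt.GM
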