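import Pool.Agent.MP_2a1f0e_nt.GM.Decay
import Pool.Agent.MP_2a1f0e_nt.GM.Pois
import Pool.Agent.MP_2a1f0e_nt.GM.KOne
import Pool.Agent.MP_2a1f0e_nt.GM.Rad
import Pool.Agent.MP_2a1f0e_nt.GM.PhExp
import Pool.Agent.MP_2a1f0e_nt.GM.PhMaj
import Pool.Agent.MP_2a1f0e_nt.GM.Bes
import Pool.Agent.MP_2a1f0e_nt.GM.DivS
import Pool.Agent.MP_2a1f0e_nt.GM.PairB
import Pool.Agent.MP_2a1f0e_nt.GM.Rho
import Pool.Agent.MP_2a1f0e_nt.GM.Pt
import Pool.Agent.MP_2a1f0e_nt.GM.Par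
import Pool.Agent.MP_2a1f0e_nt.GM.Two
import Pool.Agent.MP_2a1f0e_nt.GM.Three
import Pool.Agent.MP_2a1f0e_nt.GM.Sym
import Pool.Agent.MP_2a1f0e_nt.GM.Hux
import Pool.Agent.MP_2a1f0e_nt.GM.Cub
import Pool.Agent.MP_2a1f0e_nt.GM.SSt
import Pool.Agent.MP_2a1f0e_nt.GM.Setup
import Pool.Agent.MP_2a1f0e_nt.GM.QSt
import Pool.Agent.MP_2a1f0e_nt.GM.Num
import Pool.Agent.MP_2a1f0e_nt.GM.BTwo
import Pool.Agent.MP_2a1f0e_nt.GM.BOne
import Pool.Agent.MP_2a1f0e_nt.GM.IntS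
import Pool.Agent.MP_2a1f0e_nt.GM.Tay
import Pool.Agent.MP_2a1f0e_nt.GM.Fin

set_option autoImplicit false

namespace Pool.Agent.MP_2a1f0e_nt.GM

theorem k1_all : K1Stmt := k1_stmt decay_stmt zero_stmt (pois_stmt decay_stmt)

theorem pair_all : PairStmt := pair_stmt phExp_stmt bes_stmt div_stmt

theorem rho_all : RhoStmt := rho_stmt phExp_stmt bes_stmt div_stmt

theorem pt_all : PtStmt := pt_stmt triang_stmt phExp_stmt phMaj_stmt

theorem s_all : SStmt := s_stmt (two_stmt rad_stmt phMaj_stmt) pt_all rho_all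

theorem setup_all : SetupStmt := setup_stmt k1_all s_all

theorem q_all : QStmt :=
  q_stmt (three_stmt rad_stmt) (sym_stmt phMaj_stmt) pair_all rho_all par_stmt

theorem b2_all : B2Stmt := b2_stmt setup_all hux_stmt

theorem b1_all : B1Stmt := b1_stmt setup_all hux_stmt cub_stmt q_all pt_all num_stmt

theorem int_all : IntStmt := int_stmt b1_all b2_all blk_stmt

theorem final_all : FinalStmt := final_stmt int_all tay_stmt

end Pool.Agent.MP_2a1f0e_nt.GM
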