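import Pool.Agent.MP_2a1f0e_nt.GM.Basic
set_option autoImplicit false
open Finset
namespace Pool.Agent.MP_2a1f0e_nt.GM

/-- the trigonometric polynomial -/
noncomputable def F_Par (s : Finset ℤ) (g : ℤ → ℝ) (θ : ℝ) : ℂ :=
  ∑ t ∈ s, (g t : ℂ) * Complex.exp (Complex.I * ((t : ℝ) : ℂ) * (θ : ℂ))

lemma cont_Par (s : Finset ℤ) (g : ℤ → ℝ) : Continuous (F_Par s g) := by
  unfold F_Par
  fun_prop

lemma orth_Par (k : ℤ) : ∫ θ in (-Real.pi)..Real.pi, Complex.exp (Complex.I * (k : ℂ) * (θ : ℂ)) =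
    if k = 0 then (2 * Real.pi : ℂ) else 0 := by
  split_ifs with h
  · subst h
    simp [two_mul]
  · rw [integral_exp_mul_complex (mul_ne_zero Complex.I_ne_zero (Int.cast_ne_zero.2 h))]
    have e : Complex.I * (k : ℂ) * (Real.pi : ℂ) =
        Complex.I * (k : ℂ) * ((-Real.pi : ℝ) : ℂ) + k * (2 * Real.pi * Complex.I) := by
      push_cast
      ring
    rw [e, Complex.exp_add, Complex.exp_int_mul_two_pi_mul_I, mul_one, sub_self, zero_div]

lemma sq_Par (s : Finset ℤ) (g : ℤ → ℝ) (θ : ℝ) : ((‖F_Par s g θ‖ ^ 2 : ℝ) : ℂ) =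
    ∑ t ∈ s, ∑ u ∈ s, ((g t : ℂ) * g u) *
      Complex.exp (Complex.I * ((t - u : ℤ) : ℂ) * (θ : ℂ)) := by
  rw [Complex.ofReal_pow, ← Complex.mul_conj', F_Par, map_sum, sum_mul_sum]
  refine sum_congr rfl fun t _ => sum_congr rfl fun u _ => ?_
  rw [map_mul, Complex.conj_ofReal, ← Complex.exp_conj, map_mul, map_mul, Complex.conj_I,
    Complex.conj_ofReal, Complex.conj_ofReal, mul_mul_mul_comm, ← Complex.exp_add]
  congr 2
  push_cast
  ring

lemma pars_Par (s : Finset ℤ) (g : ℤ → ℝ) :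
    ∫ θ in (-Real.pi)..Real.pi, ‖F_Par s g θ‖ ^ 2 = 2 * Real.pi * ∑ t ∈ s, g t ^ 2 := by
  apply Complex.ofReal_injective
  rw [← intervalIntegral.integral_ofReal]
  simp only [sq_Par]
  rw [intervalIntegral.integral_finsetSum fun t _ =>
    Continuous.intervalIntegrable (by fun_prop) _ _]
  push_cast
  rw [mul_sum]
  refine sum_congr rfl fun t ht => ?_
  rw [intervalIntegral.integral_finsetSum fun u _ =>
    Continuous.intervalIntegrable (by fun_prop) _ _, sum_eq_single_of_mem t ht]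
  · rw [intervalIntegral.integral_const_mul, ← Int.cast_sub, orth_Par, if_pos (sub_self t)]
    ring
  · intro u _ hu
    rw [intervalIntegral.integral_const_mul, ← Int.cast_sub, orth_Par,
      if_neg (sub_ne_zero.2 hu.symm), mul_zero]

theorem par_stmt : ParStmt := by
  intro s g
  have hc : Continuous fun θ => ‖F_Par s g θ‖ ^ 2 := (cont_Par s g).norm.pow 2
  have hab : (1 / 9 : ℝ) ≤ 82 / 9 := by norm_num
  have hpos : ∀ x ∈ Set.uIcc (1 / 9 : ℝ) (82 / 9), x ≠ 0 := fun x hx => by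
    rw [Set.uIcc_of_le hab] at hx
    linarith [hx.1]
  have hlog : ContinuousOn Real.log (Set.uIcc (1 / 9 : ℝ) (82 / 9)) :=
    Real.continuousOn_log.mono hpos
  have hinv : ContinuousOn (fun x : ℝ => x⁻¹) (Set.uIcc (1 / 9 : ℝ) (82 / 9)) :=
    continuousOn_inv₀.mono hpos
  have h1 := intervalIntegral.integral_comp_mul_deriv (a := (1 / 9 : ℝ)) (b := 82 / 9)
    (fun x hx => Real.hasDerivAt_log (hpos x hx)) hinv hc
  have h2 : II (fun v => ‖FT s g v‖ ^ 2) ≤ ∫ x in (1 / 9 : ℝ)..(82 / 9),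
      82 / 9 * (((fun θ => ‖F_Par s g θ‖ ^ 2) ∘ Real.log) x * x⁻¹) := by
    refine intervalIntegral.integral_mono_on hab
      (hc.comp_continuousOn hlog).intervalIntegrable
      (continuousOn_const.mul ((hc.comp_continuousOn hlog).mul hinv)).intervalIntegrable
      fun x hx => ?_
    have hx0 : 0 < x := by linarith [hx.1]
    change ‖F_Par s g (Real.log x)‖ ^ 2 ≤ 82 / 9 * (‖F_Par s g (Real.log x)‖ ^ 2 * x⁻¹)
    rw [mul_left_comm]
    refine le_mul_of_one_le_right (by positivity) ?_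
    rw [← div_eq_mul_inv, one_le_div hx0]
    exact hx.2
  rw [intervalIntegral.integral_const_mul, h1] at h2
  have he : (82 / 9 : ℝ) ≤ Real.exp 3 := by
    have := Real.sum_le_exp_of_nonneg (x := 3) (by norm_num) 4
    simp only [sum_range_succ, Nat.factorial] at this
    norm_num at this
    linarith
  have hu : Real.log (82 / 9) ≤ Real.pi :=
    ((Real.log_le_iff_le_exp (by norm_num)).2 he).trans Real.pi_gt_three.le
  have hl : -Real.pi ≤ Real.log (1 / 9) := by
    rw [one_div, Real.log_inv, neg_le_neg_iff]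
    exact (Real.log_le_log (by norm_num) (by norm_num)).trans hu
  have h3 := intervalIntegral.integral_mono_interval (μ := MeasureTheory.volume) hl
    (Real.log_le_log (by norm_num) hab) hu
    (Filter.Eventually.of_forall fun θ => sq_nonneg ‖F_Par s g θ‖) (hc.intervalIntegrable _ _)
  rw [pars_Par] at h3
  have h4 : 0 ≤ ∑ t ∈ s, g t ^ 2 := sum_nonneg fun _ _ => sq_nonneg _
  have h5 := mul_le_mul_of_nonneg_right Real.pi_lt_d2.le h4
  linarith

end Pool.Agent.MP_2a1f0e_nt.GM
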